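import Pool.Agent.H.MP_08eaf3_pr.A.CM

set_option autoImplicit false

open MeasureTheory ProbabilityTheory Filter Topology Matrix

/-!
# Part A: Gaussian integration by parts
-/

namespace SKC.A

section

variable {κ : Type} [Fintype κ]

/-- the derivative along the line at every point of the line -/
theorem hasDerivAt_line {f f' : (κ → ℝ) → ℝ} {w : κ → ℝ}
    (hd : ∀ x, HasDerivAt (fun t : ℝ => f (x + t • w)) (f' x) 0) (x : κ → ℝ) (t : ℝ) :
    HasDerivAt (fun t : ℝ => f (x + t • w)) (f' (x + t • w)) t := by
  have h1 := hd (x + t • w)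
  have h2 : HasDerivAt (fun s : ℝ => s - t) 1 t := (hasDerivAt_id t).sub_const t
  have h3 : HasDerivAt (fun t : ℝ => f (x + t • w)) (f' (x + t • w)) (t - t + t) := by
    rw [sub_self, zero_add]
    have h4 : HasDerivAt (fun s : ℝ => f (x + t • w + (s - t) • w)) (f' (x + t • w) * 1) t := by
      have h5 : HasDerivAt (fun u : ℝ => f (x + t • w + u • w)) (f' (x + t • w)) (t - t) := by
        rw [sub_self]; exact h1
      exact HasDerivAt.comp (h₂ := fun u : ℝ => f (x + t • w + u • w)) t h5 h2
    rw [mul_one] at h4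
    refine h4.congr_of_eventuallyEq ?_
    filter_upwards with s
    congr 1
    rw [add_assoc, ← add_smul]
    congr 2
    ring
  rw [sub_self, zero_add] at h3
  exact h3

theorem stein_dir (w : κ → ℝ) (f f' : (κ → ℝ) → ℝ) (hf : EG f) (hf' : EG f')
    (hd : ∀ x, HasDerivAt (fun t : ℝ => f (x + t • w)) (f' x) 0) :
    ∫ x, dot x w * f x ∂(gam κ) = ∫ x, f' x ∂(gam κ) := by
  -- left side of Cameron-Martin
  obtain ⟨C, -, hC, hb⟩ := hf'.bound 0
  obtain ⟨A, -, hA, ha⟩ := hf.bound 0
  have hn : ∀ t : ℝ, |t - 0| < 1 → ∀ x : κ → ℝ, n1 (x + t • w) ≤ n1 x + n1 w := by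
    intro t ht x
    have h1 := n1_add_le x (t • w)
    rw [n1_smul] at h1
    rw [sub_zero] at ht
    have h2 : |t| * n1 w ≤ 1 * n1 w := mul_le_mul_of_nonneg_right ht.le (n1_nonneg w)
    linarith
  have hL : HasDerivAt (fun t : ℝ => ∫ x, f (x + t • w) ∂(gam κ)) (∫ x, f' (x + (0 : ℝ) • w) ∂(gam κ)) 0 := by
    apply hasDerivAt_gam (fun t x => f (x + t • w)) (fun t x => f' (x + t • w)) 0
      (C * Real.exp (C * n1 w) + C)
    · intro t _
      have := hf.comp_add (t • w)
      simpa [add_comm] using this
    · have := hf'.comp_add ((0 : ℝ) • w)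
      simpa [add_comm] using this
    · intro t _ x
      exact hasDerivAt_line hd x t
    · intro t ht x
      have h1 := hb (x + t • w)
      have h2 := hn t ht x
      have h3 : Real.exp (C * n1 (x + t • w)) ≤ Real.exp (C * n1 w) * Real.exp (C * n1 x) := by
        rw [← Real.exp_add]
        apply Real.exp_le_exp.mpr
        nlinarith
      have h4 : Real.exp (C * n1 x) ≤ Real.exp ((C * Real.exp (C * n1 w) + C) * n1 x) := by
        apply Real.exp_le_exp.mpr
        apply mul_le_mul_of_nonneg_right _ (n1_nonneg x)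
        have : 0 ≤ C * Real.exp (C * n1 w) := by positivity
        linarith
      calc |f' (x + t • w)| ≤ C * Real.exp (C * n1 (x + t • w)) := h1
        _ ≤ C * (Real.exp (C * n1 w) * Real.exp (C * n1 x)) := by gcongr
        _ = (C * Real.exp (C * n1 w)) * Real.exp (C * n1 x) := by ring
        _ ≤ (C * Real.exp (C * n1 w) + C) * Real.exp ((C * Real.exp (C * n1 w) + C) * n1 x) := by
            apply mul_le_mul _ h4 (Real.exp_nonneg _) (by positivity)
            linarith
  -- right side
  have hR : HasDerivAt (fun t : ℝ => ∫ x, f x * Real.exp (t * dot w x - t ^ 2 * dot w w / 2) ∂(gam κ))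
      (∫ x, f x * (Real.exp ((0 : ℝ) * dot w x - (0 : ℝ) ^ 2 * dot w w / 2) *
        (dot w x - 0 * dot w w)) ∂(gam κ)) 0 := by
    have hww := dot_self_nonneg w
    apply hasDerivAt_gam (fun t x => f x * Real.exp (t * dot w x - t ^ 2 * dot w w / 2))
      (fun t x => f x * (Real.exp (t * dot w x - t ^ 2 * dot w w / 2) * (dot w x - t * dot w w))) 0
      (A * (n1 w + dot w w + 1) + (A + n1 w + 1))
    · intro t _
      apply hf.mul
      have := (EG.exp_dot (K := κ) (t • w)).mul (EG.const (K := κ) (Real.exp (- (t ^ 2 * dot w w / 2))))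
      refine EG.mono this ?_ ?_
      · unfold dot; fun_prop
      · intro z
        rw [dot_smul_right, ← Real.exp_add, dot_comm w z]
        exact le_of_eq (by ring_nf)
    · apply hf.mul
      have h0 : (fun z : κ → ℝ => Real.exp ((0 : ℝ) * dot w z - (0 : ℝ) ^ 2 * dot w w / 2) *
          (dot w z - 0 * dot w w)) = fun z => dot z w := by
        funext z
        rw [dot_comm w z]
        simp
      rw [h0]
      exact EG.dot_right w
    · intro t _ x
      apply HasDerivAt.const_mul
      have h1 : HasDerivAt (fun t : ℝ => t * dot w x - t ^ 2 * dot w w / 2)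
          (dot w x - t * dot w w) t := by
        have h2 := (hasDerivAt_id t).mul_const (dot w x)
        have h3 := (((hasDerivAt_id t).pow 2).mul_const (dot w w)).div_const 2
        have h4 := h2.sub h3
        refine h4.congr_deriv ?_
        simp
        ring
      exact h1.exp
    · intro t ht x
      rw [sub_zero] at ht
      have hdw : |dot w x| ≤ n1 w * n1 x := abs_dot_le_n1 w x
      have hnx := n1_nonneg x
      have hnw := n1_nonneg w
      have e1 : Real.exp (t * dot w x - t ^ 2 * dot w w / 2) ≤ Real.exp (n1 w * n1 x) := by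
        apply Real.exp_le_exp.mpr
        have h1 : t * dot w x ≤ |t| * |dot w x| := by rw [← abs_mul]; exact le_abs_self _
        have h2 : |t| * |dot w x| ≤ 1 * (n1 w * n1 x) :=
          mul_le_mul ht.le hdw (abs_nonneg _) zero_le_one
        have h3 : 0 ≤ t ^ 2 * dot w w / 2 := by positivity
        linarith
      have e2 : |dot w x - t * dot w w| ≤ (n1 w + dot w w + 1) * Real.exp (n1 x) := by
        have h1 : |dot w x - t * dot w w| ≤ |dot w x| + |t * dot w w| := abs_sub _ _
        have h2 : |t * dot w w| ≤ dot w w := by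
          rw [abs_mul, abs_of_nonneg hww]
          have := mul_le_mul_of_nonneg_right ht.le hww
          linarith
        have h3 : n1 x + 1 ≤ Real.exp (n1 x) := Real.add_one_le_exp _
        have h4 : n1 w * n1 x + dot w w ≤ (n1 w + dot w w + 1) * (n1 x + 1) := by nlinarith
        have h5 : (n1 w + dot w w + 1) * (n1 x + 1) ≤ (n1 w + dot w w + 1) * Real.exp (n1 x) :=
          mul_le_mul_of_nonneg_left h3 (by positivity)
        linarith
      rw [abs_mul, abs_mul, abs_of_pos (Real.exp_pos _)]
      have e3 := ha x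
      calc |f x| * (Real.exp (t * dot w x - t ^ 2 * dot w w / 2) * |dot w x - t * dot w w|)
          ≤ (A * Real.exp (A * n1 x)) * (Real.exp (n1 w * n1 x) *
              ((n1 w + dot w w + 1) * Real.exp (n1 x))) := by
            apply mul_le_mul e3 _ (by positivity) (by positivity)
            exact mul_le_mul e1 e2 (abs_nonneg _) (Real.exp_nonneg _)
        _ = A * (n1 w + dot w w + 1) * Real.exp ((A + n1 w + 1) * n1 x) := by
            rw [show (A + n1 w + 1) * n1 x = A * n1 x + (n1 w * n1 x + n1 x) by ring,
              Real.exp_add, Real.exp_add]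
            ring
        _ ≤ (A * (n1 w + dot w w + 1) + (A + n1 w + 1)) *
              Real.exp ((A * (n1 w + dot w w + 1) + (A + n1 w + 1)) * n1 x) := by
            have p1 : 0 ≤ A * (n1 w + dot w w + 1) := by positivity
            have p2 : 0 ≤ A + n1 w + 1 := by positivity
            apply mul_le_mul _ _ (Real.exp_nonneg _) (by positivity)
            · linarith
            · apply Real.exp_le_exp.mpr
              apply mul_le_mul_of_nonneg_right _ hnx
              linarith
  have hE : (fun t : ℝ => ∫ x, f (x + t • w) ∂(gam κ)) =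
      fun t : ℝ => ∫ x, f x * Real.exp (t * dot w x - t ^ 2 * dot w w / 2) ∂(gam κ) := by
    funext t
    rw [cm f (t • w)]
    apply integral_congr_ae
    filter_upwards with x
    rw [dot_smul_left, dot_smul_left, dot_smul_right]
    congr 2
    ring
  rw [hE] at hL
  have hU := hL.unique hR
  have e1 : ∫ x, f' (x + (0 : ℝ) • w) ∂(gam κ) = ∫ x, f' x ∂(gam κ) := by simp
  have e2 : ∫ x, f x * (Real.exp ((0 : ℝ) * dot w x - (0 : ℝ) ^ 2 * dot w w / 2) *
        (dot w x - 0 * dot w w)) ∂(gam κ) = ∫ x, dot x w * f x ∂(gam κ) := by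
    apply integral_congr_ae
    filter_upwards with x
    rw [dot_comm w x]
    simp
    ring
  rw [e1, e2] at hU
  exact hU.symm

/-- Stein for a coordinate -/
theorem stein [DecidableEq κ] (i : κ) (f f' : (κ → ℝ) → ℝ) (hf : EG f) (hf' : EG f')
    (hd : ∀ x, HasDerivAt (fun t : ℝ => f (x + t • Pi.single i 1)) (f' x) 0) :
    ∫ x, x i * f x ∂(gam κ) = ∫ x, f' x ∂(gam κ) := by
  rw [← stein_dir (Pi.single i 1) f f' hf hf' hd]
  apply integral_congr_ae
  filter_upwards with x
  rw [dot_single, mul_one]

end

end SKC.A
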