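import Pool.Agent.H.MP_08eaf3_pr.A.Coord
import Pool.Agent.H.MP_08eaf3_pr.A.Stein

/-!
# Part A: A3, Poincare inequality
-/

set_option autoImplicit false

open MeasureTheory ProbabilityTheory Filter Topology Matrix

namespace SKC.A

section

variable {κ : Type} [Fintype κ]

theorem Poinc_mono {C A t : ℝ} (h0 : 0 ≤ C) (h : C ≤ A) (ht : 0 ≤ t) :
    C * Real.exp (C * t) ≤ A * Real.exp (A * t) := by
  apply mul_le_mul h _ (Real.exp_nonneg _) (h0.trans h)
  exact Real.exp_le_exp.mpr (mul_le_mul_of_nonneg_right h ht)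

theorem Poinc_common {f : (κ → ℝ) → ℝ} {D : κ → (κ → ℝ) → ℝ} (hf : EG f) (hDe : ∀ i, EG (D i)) :
    ∃ A : ℝ, 0 < A ∧ (∀ z, |f z| ≤ A * Real.exp (A * n1 z)) ∧
      ∀ i z, |D i z| ≤ A * Real.exp (A * n1 z) := by
  obtain ⟨C, -, hC, hb⟩ := hf.bound 0
  choose c _ hc hcb using fun i => (hDe i).bound 0
  refine ⟨C + ∑ i, c i, ?_, ?_, ?_⟩
  · have : 0 ≤ ∑ i, c i := Finset.sum_nonneg (fun i _ => (hc i).le)
    linarith
  · intro z
    refine (hb z).trans (Poinc_mono hC.le ?_ (n1_nonneg z))
    have : 0 ≤ ∑ i, c i := Finset.sum_nonneg (fun i _ => (hc i).le)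
    linarith
  · intro i z
    refine (hcb i z).trans (Poinc_mono (hc i).le ?_ (n1_nonneg z))
    have : c i ≤ ∑ i, c i := Finset.single_le_sum (f := c) (fun i _ => (hc i).le) (Finset.mem_univ i)
    linarith

theorem Poinc_n1 {c s : ℝ} (hc : |c| ≤ 1) (hs : |s| ≤ 1) (x y : κ → ℝ) :
    n1 (c • x + s • y) ≤ n1 x + n1 y := by
  refine (n1_add_le _ _).trans ?_
  rw [n1_smul, n1_smul]
  have h1 := mul_le_mul_of_nonneg_right hc (n1_nonneg x)
  have h2 := mul_le_mul_of_nonneg_right hs (n1_nonneg y)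
  linarith

/-- bound of a function at a linear combination -/
theorem Poinc_comb {g : (κ → ℝ) → ℝ} {A : ℝ} (hA : 0 < A) (hg : ∀ z, |g z| ≤ A * Real.exp (A * n1 z))
    {c s : ℝ} (hc : |c| ≤ 1) (hs : |s| ≤ 1) (x y : κ → ℝ) :
    |g (c • x + s • y)| ≤ A * Real.exp (A * (n1 x + n1 y)) := by
  refine (hg _).trans ?_
  apply mul_le_mul_of_nonneg_left _ hA.le
  exact Real.exp_le_exp.mpr (mul_le_mul_of_nonneg_left (Poinc_n1 hc hs x y) hA.le)

theorem Poinc_self {g : (κ → ℝ) → ℝ} {A : ℝ} (hA : 0 < A) (hg : ∀ z, |g z| ≤ A * Real.exp (A * n1 z))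
    (x y : κ → ℝ) : |g x| ≤ A * Real.exp (A * (n1 x + n1 y)) := by
  refine (hg _).trans ?_
  apply mul_le_mul_of_nonneg_left _ hA.le
  apply Real.exp_le_exp.mpr (mul_le_mul_of_nonneg_left _ hA.le)
  linarith [n1_nonneg y]

/-- product of a value, derivatives and coordinates -/
theorem Poinc_big {A n a b : ℝ} (hA : 0 < A) (hn : 0 ≤ n) (ha : |a| ≤ A * Real.exp (A * n))
    (hb : |b| ≤ A * Real.exp (A * n) * n) :
    |a * b| ≤ (A ^ 2 + 2 * A + 1) * Real.exp ((A ^ 2 + 2 * A + 1) * n) := by
  rw [abs_mul]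
  have h1 : n ≤ Real.exp n := by linarith [Real.add_one_le_exp n]
  have h2 : |b| ≤ A * Real.exp (A * n) * Real.exp n :=
    hb.trans (mul_le_mul_of_nonneg_left h1 (by positivity))
  calc |a| * |b| ≤ (A * Real.exp (A * n)) * (A * Real.exp (A * n) * Real.exp n) :=
        mul_le_mul ha h2 (abs_nonneg _) (by positivity)
    _ = A ^ 2 * Real.exp ((2 * A + 1) * n) := by
        rw [show (2 * A + 1) * n = A * n + (A * n + n) by ring, Real.exp_add, Real.exp_add]
        ring
    _ ≤ (A ^ 2 + 2 * A + 1) * Real.exp ((A ^ 2 + 2 * A + 1) * n) := by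
        apply mul_le_mul _ _ (Real.exp_nonneg _) (by positivity)
        · nlinarith
        · apply Real.exp_le_exp.mpr
          apply mul_le_mul_of_nonneg_right _ hn
          nlinarith

variable [DecidableEq κ]

/-- A3, the core: `φ θ = E f(x) f(cos θ x + sin θ y)` has derivative
`- sin θ E Σ_i D_i f(x) D_i f(cos θ x + sin θ y)`. -/
theorem hasDerivAt_corr {f : (κ → ℝ) → ℝ} {D : κ → (κ → ℝ) → ℝ} (hf : EG f)
    (hD : ∀ i x, HasDerivAt (fun h : ℝ => f (x + h • Pi.single i 1)) (D i x) 0)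
    (hDe : ∀ i, EG (D i)) (θ : ℝ) :
    HasDerivAt (fun θ => ∫ p, f p.1 * f (Real.cos θ • p.1 + Real.sin θ • p.2)
        ∂((gam κ).prod (gam κ)))
      (- Real.sin θ * ∫ p, ∑ i, D i p.1 * D i (Real.cos θ • p.1 + Real.sin θ • p.2)
        ∂((gam κ).prod (gam κ))) θ := by
  obtain ⟨A, hA, hfb, hDb⟩ := Poinc_common hf hDe
  have hfc := hf.cont
  have hDc : ∀ i, Continuous (D i) := fun i => (hDe i).cont
  -- step 1: differentiate under the integral
  have key : HasDerivAt (fun θ => ∫ x : κ ⊕ κ → ℝ, f (fun i => x (Sum.inl i)) *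
        f (Real.cos θ • (fun i => x (Sum.inl i)) + Real.sin θ • (fun i => x (Sum.inr i))) ∂(gam (κ ⊕ κ)))
      (∫ x : κ ⊕ κ → ℝ, f (fun i => x (Sum.inl i)) *
        ∑ i, D i (Real.cos θ • (fun i => x (Sum.inl i)) + Real.sin θ • (fun i => x (Sum.inr i))) *
          (-Real.sin θ * x (Sum.inl i) + Real.cos θ * x (Sum.inr i)) ∂(gam (κ ⊕ κ))) θ := by
    have hn : ∀ x : κ ⊕ κ → ℝ, n1 x = n1 (fun i => x (Sum.inl i)) + n1 (fun i => x (Sum.inr i)) := by
      intro x
      unfold n1
      rw [Fintype.sum_sum_type]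
    have hB : ∀ (t : ℝ) (x : κ ⊕ κ → ℝ), |f (fun i => x (Sum.inl i)) *
        ∑ i, D i (Real.cos t • (fun i => x (Sum.inl i)) + Real.sin t • (fun i => x (Sum.inr i))) *
          (-Real.sin t * x (Sum.inl i) + Real.cos t * x (Sum.inr i))| ≤
        (A ^ 2 + 2 * A + 1) * Real.exp ((A ^ 2 + 2 * A + 1) * n1 x) := by
      intro t x
      rw [hn x]
      set x1 : κ → ℝ := fun i => x (Sum.inl i)
      set x2 : κ → ℝ := fun i => x (Sum.inr i)
      apply Poinc_big hA (add_nonneg (n1_nonneg x1) (n1_nonneg x2)) (Poinc_self hA hfb x1 x2)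
      refine (Finset.abs_sum_le_sum_abs _ _).trans ?_
      have : ∀ i ∈ Finset.univ, |D i (Real.cos t • x1 + Real.sin t • x2) *
          (-Real.sin t * x1 i + Real.cos t * x2 i)| ≤
          A * Real.exp (A * (n1 x1 + n1 x2)) * (|x1 i| + |x2 i|) := by
        intro i _
        rw [abs_mul]
        apply mul_le_mul (Poinc_comb hA (hDb i) (Real.abs_cos_le_one t) (Real.abs_sin_le_one t) x1 x2)
          _ (abs_nonneg _) (by positivity)
        refine (abs_add_le _ _).trans ?_
        rw [abs_mul, abs_mul, abs_neg]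
        have h1 := mul_le_mul_of_nonneg_right (Real.abs_sin_le_one t) (abs_nonneg (x1 i))
        have h2 := mul_le_mul_of_nonneg_right (Real.abs_cos_le_one t) (abs_nonneg (x2 i))
        linarith
      refine (Finset.sum_le_sum this).trans ?_
      rw [← Finset.mul_sum, Finset.sum_add_distrib]
      exact le_of_eq rfl
    apply hasDerivAt_gam (fun θ (x : κ ⊕ κ → ℝ) => f (fun i => x (Sum.inl i)) *
        f (Real.cos θ • (fun i => x (Sum.inl i)) + Real.sin θ • (fun i => x (Sum.inr i))))
      (fun θ (x : κ ⊕ κ → ℝ) => f (fun i => x (Sum.inl i)) *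
        ∑ i, D i (Real.cos θ • (fun i => x (Sum.inl i)) + Real.sin θ • (fun i => x (Sum.inr i))) *
          (-Real.sin θ * x (Sum.inl i) + Real.cos θ * x (Sum.inr i))) θ (A ^ 2 + 2 * A + 1)
    · intro t _
      refine EG.of_bound (A := A ^ 2) (B := 2 * A) ?_ ?_
      · apply Continuous.mul
        · exact hfc.comp (by fun_prop)
        · exact hfc.comp (by fun_prop)
      · intro x
        rw [hn x, abs_mul]
        have h1 := Poinc_self hA hfb (fun i => x (Sum.inl i)) (fun i => x (Sum.inr i))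
        have h2 := Poinc_comb hA hfb (Real.abs_cos_le_one t) (Real.abs_sin_le_one t)
          (fun i => x (Sum.inl i)) (fun i => x (Sum.inr i))
        refine (mul_le_mul h1 h2 (abs_nonneg _) (by positivity)).trans (le_of_eq ?_)
        rw [show 2 * A * (n1 (fun i => x (Sum.inl i)) + n1 fun i => x (Sum.inr i)) =
          A * (n1 (fun i => x (Sum.inl i)) + n1 fun i => x (Sum.inr i)) +
          A * (n1 (fun i => x (Sum.inl i)) + n1 fun i => x (Sum.inr i)) by ring, Real.exp_add]
        ring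
    · refine EG.of_bound (A := A ^ 2 + 2 * A + 1) (B := A ^ 2 + 2 * A + 1) ?_ (hB θ)
      apply Continuous.mul
      · exact hfc.comp (by fun_prop)
      · apply continuous_finsetSum
        intro i _
        apply Continuous.mul
        · exact (hDc i).comp (by fun_prop)
        · fun_prop
    · intro t _ x
      apply HasDerivAt.const_mul
      apply hasDerivAt_curve hD hDc (c := fun t => Real.cos t • (fun i => x (Sum.inl i)) +
        Real.sin t • (fun i => x (Sum.inr i)))
      intro i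
      simp only [Pi.add_apply, Pi.smul_apply, smul_eq_mul]
      exact ((Real.hasDerivAt_cos t).mul_const _).add ((Real.hasDerivAt_sin t).mul_const _)
    · intro t _ x
      exact hB t x
  have hfun : (fun θ => ∫ p, f p.1 * f (Real.cos θ • p.1 + Real.sin θ • p.2) ∂((gam κ).prod (gam κ))) =
      (fun θ => ∫ x : κ ⊕ κ → ℝ, f (fun i => x (Sum.inl i)) *
        f (Real.cos θ • (fun i => x (Sum.inl i)) + Real.sin θ • (fun i => x (Sum.inr i))) ∂(gam (κ ⊕ κ))) := by
    funext t
    rw [integral_gam_sum]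
    rfl
  rw [hfun]
  refine key.congr_deriv ?_
  rw [integral_gam_sum]
  -- step 2: rotate
  set G : (κ → ℝ) × (κ → ℝ) → ℝ := fun p => f (Real.cos θ • p.1 + (-Real.sin θ) • p.2) *
    ∑ i, D i p.1 * p.2 i with hG
  have e1 : (∫ p : (κ → ℝ) × (κ → ℝ), f (fun i => (Sum.elim p.1 p.2 : κ ⊕ κ → ℝ) (Sum.inl i)) *
        ∑ i, D i (Real.cos θ • (fun i => (Sum.elim p.1 p.2 : κ ⊕ κ → ℝ) (Sum.inl i)) +
          Real.sin θ • (fun i => (Sum.elim p.1 p.2 : κ ⊕ κ → ℝ) (Sum.inr i))) *
          (-Real.sin θ * (Sum.elim p.1 p.2 : κ ⊕ κ → ℝ) (Sum.inl i) +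
            Real.cos θ * (Sum.elim p.1 p.2 : κ ⊕ κ → ℝ) (Sum.inr i)) ∂((gam κ).prod (gam κ))) =
      ∫ p, G (Real.cos θ • p.1 + Real.sin θ • p.2, -Real.sin θ • p.1 + Real.cos θ • p.2)
        ∂((gam κ).prod (gam κ)) := by
    apply integral_congr_ae
    filter_upwards with p
    have h1 : Real.cos θ • (Real.cos θ • p.1 + Real.sin θ • p.2) +
        (-Real.sin θ) • (-Real.sin θ • p.1 + Real.cos θ • p.2) = p.1 := by
      funext i
      simp only [Pi.add_apply, Pi.smul_apply, smul_eq_mul]
      have := Real.sin_sq_add_cos_sq θ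
      linear_combination p.1 i * this
    simp only [hG]
    rw [h1]
    rfl
  rw [e1, integral_rotate θ G]
  -- step 3: Fubini and Stein
  have hGc : Continuous G := by
    simp only [hG]
    apply Continuous.mul
    · exact hfc.comp (by fun_prop)
    · apply continuous_finsetSum
      intro i _
      exact ((hDc i).comp continuous_fst).mul (by fun_prop)
  have hms : |(-Real.sin θ)| ≤ 1 := by rw [abs_neg]; exact Real.abs_sin_le_one θ
  have hGb : ∀ p, |G p| ≤ (A ^ 2 + 2 * A + 1) * Real.exp ((A ^ 2 + 2 * A + 1) * (n1 p.1 + n1 p.2)) := by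
    intro p
    simp only [hG]
    apply Poinc_big hA (add_nonneg (n1_nonneg p.1) (n1_nonneg p.2))
      (Poinc_comb hA hfb (Real.abs_cos_le_one θ) hms p.1 p.2)
    refine (Finset.abs_sum_le_sum_abs _ _).trans ?_
    have : ∀ i ∈ Finset.univ, |D i p.1 * p.2 i| ≤ A * Real.exp (A * (n1 p.1 + n1 p.2)) * |p.2 i| := by
      intro i _
      rw [abs_mul]
      exact mul_le_mul_of_nonneg_right (Poinc_self hA (hDb i) p.1 p.2) (abs_nonneg _)
    refine (Finset.sum_le_sum this).trans ?_
    rw [← Finset.mul_sum]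
    apply mul_le_mul_of_nonneg_left _ (by positivity)
    have : ∑ i, |p.2 i| = n1 p.2 := rfl
    rw [this]
    linarith [n1_nonneg p.1]
  have hGi : Integrable G ((gam κ).prod (gam κ)) := integrable_prod_of_bound G hGc _ hGb
  rw [integral_prod G hGi]
  set H : (κ → ℝ) × (κ → ℝ) → ℝ := fun p => ∑ i, D i p.1 * D i (Real.cos θ • p.1 + (-Real.sin θ) • p.2)
    with hH
  have hHc : Continuous H := by
    simp only [hH]
    apply continuous_finsetSum
    intro i _
    exact ((hDc i).comp continuous_fst).mul ((hDc i).comp (by fun_prop))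
  have hHi : Integrable H ((gam κ).prod (gam κ)) := by
    apply integrable_finsetSum
    intro i _
    apply integrable_prod_of_bound _ _ (A ^ 2 + 2 * A + 1)
    · intro p
      rw [abs_mul]
      have h1 := Poinc_self hA (hDb i) p.1 p.2
      have h2 := Poinc_comb hA (hDb i) (Real.abs_cos_le_one θ) hms p.1 p.2
      refine (mul_le_mul h1 h2 (abs_nonneg _) (by positivity)).trans ?_
      have hn := add_nonneg (n1_nonneg p.1) (n1_nonneg p.2)
      calc A * Real.exp (A * (n1 p.1 + n1 p.2)) * (A * Real.exp (A * (n1 p.1 + n1 p.2)))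
          = A ^ 2 * Real.exp (2 * A * (n1 p.1 + n1 p.2)) := by
            rw [show 2 * A * (n1 p.1 + n1 p.2) = A * (n1 p.1 + n1 p.2) + A * (n1 p.1 + n1 p.2) by ring,
              Real.exp_add]
            ring
        _ ≤ _ := by
            apply mul_le_mul _ _ (Real.exp_nonneg _) (by positivity)
            · nlinarith
            · apply Real.exp_le_exp.mpr
              apply mul_le_mul_of_nonneg_right _ hn
              nlinarith
    · exact ((hDc i).comp continuous_fst).mul ((hDc i).comp (by fun_prop))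
  have e2 : ∀ u : κ → ℝ, ∫ w, G (u, w) ∂(gam κ) = ∫ w, (-Real.sin θ) * H (u, w) ∂(gam κ) := by
    intro u
    have hfu : EG (fun w : κ → ℝ => f (Real.cos θ • u + (-Real.sin θ) • w)) :=
      hf.comp_smul_add _ _
    have hDu : ∀ i, EG (fun w : κ → ℝ => D i (Real.cos θ • u + (-Real.sin θ) • w)) :=
      fun i => (hDe i).comp_smul_add _ _
    have h1 : ∀ i, ∫ w, w i * f (Real.cos θ • u + (-Real.sin θ) • w) ∂(gam κ) =
        ∫ w, (-Real.sin θ) * D i (Real.cos θ • u + (-Real.sin θ) • w) ∂(gam κ) := by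
      intro i
      apply stein i _ _ hfu ((hDu i).const_mul _)
      intro x
      have h2 := hD i (Real.cos θ • u + (-Real.sin θ) • x)
      have h3 : HasDerivAt (fun t : ℝ => (-Real.sin θ) * t) (-Real.sin θ) 0 := by
        simpa using (hasDerivAt_id (0 : ℝ)).const_mul (-Real.sin θ)
      have h4 : HasDerivAt (fun h : ℝ => f (Real.cos θ • u + (-Real.sin θ) • x + h • Pi.single i 1))
          (D i (Real.cos θ • u + (-Real.sin θ) • x)) ((-Real.sin θ) * 0) := by
        rw [mul_zero]; exact h2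
      have h5 := HasDerivAt.comp (h₂ := fun h : ℝ =>
        f (Real.cos θ • u + (-Real.sin θ) • x + h • Pi.single i 1)) (0 : ℝ) h4 h3
      have h6 : ((fun h : ℝ => f (Real.cos θ • u + (-Real.sin θ) • x + h • Pi.single i 1)) ∘
          fun t : ℝ => (-Real.sin θ) * t) =
          fun t : ℝ => f (Real.cos θ • u + (-Real.sin θ) • (x + t • Pi.single i 1)) := by
        funext t
        simp only [Function.comp]
        congr 1
        rw [smul_add, smul_smul, add_assoc]
      rw [h6] at h5
      rw [mul_comm]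
      exact h5
    have h7 : ∀ i, Integrable (fun w : κ → ℝ => D i u * (w i * f (Real.cos θ • u + (-Real.sin θ) • w)))
        (gam κ) := fun i => (((EG.coord i).mul hfu).const_mul _).integrable
    have h8 : ∀ i, Integrable (fun w : κ → ℝ => D i u * ((-Real.sin θ) *
        D i (Real.cos θ • u + (-Real.sin θ) • w))) (gam κ) :=
      fun i => (((hDu i).const_mul _).const_mul _).integrable
    calc ∫ w, G (u, w) ∂(gam κ) = ∫ w, ∑ i, D i u * (w i * f (Real.cos θ • u + (-Real.sin θ) • w)) ∂(gam κ) := by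
          apply integral_congr_ae
          filter_upwards with w
          simp only [hG]
          rw [Finset.mul_sum]
          apply Finset.sum_congr rfl
          intro i _
          ring
      _ = ∑ i, D i u * ∫ w, w i * f (Real.cos θ • u + (-Real.sin θ) • w) ∂(gam κ) := by
          rw [integral_finsetSum _ (fun i _ => h7 i)]
          simp_rw [integral_const_mul]
      _ = ∑ i, D i u * ∫ w, (-Real.sin θ) * D i (Real.cos θ • u + (-Real.sin θ) • w) ∂(gam κ) := by
          simp_rw [h1]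
      _ = ∫ w, ∑ i, D i u * ((-Real.sin θ) * D i (Real.cos θ • u + (-Real.sin θ) • w)) ∂(gam κ) := by
          rw [integral_finsetSum _ (fun i _ => h8 i)]
          simp_rw [integral_const_mul]
      _ = ∫ w, (-Real.sin θ) * H (u, w) ∂(gam κ) := by
          apply integral_congr_ae
          filter_upwards with w
          simp only [hH]
          rw [Finset.mul_sum]
          apply Finset.sum_congr rfl
          intro i _
          ring
  simp_rw [e2]
  simp_rw [integral_const_mul]
  rw [← integral_prod H hHi]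
  congr 1
  rw [← integral_rotate θ H]
  apply integral_congr_ae
  filter_upwards with p
  simp only [hH]
  apply Finset.sum_congr rfl
  intro i _
  have h1 : Real.cos θ • (Real.cos θ • p.1 + Real.sin θ • p.2) +
      (-Real.sin θ) • (-Real.sin θ • p.1 + Real.cos θ • p.2) = p.1 := by
    funext i
    simp only [Pi.add_apply, Pi.smul_apply, smul_eq_mul]
    have := Real.sin_sq_add_cos_sq θ
    linear_combination p.1 i * this
  rw [h1, mul_comm]

omit [DecidableEq κ] in
theorem Poinc_var {f : (κ → ℝ) → ℝ} (hf : EG f) :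
    ∫ x, (f x - ∫ y, f y ∂(gam κ)) ^ 2 ∂(gam κ) =
      ∫ x, f x * f x ∂(gam κ) - (∫ y, f y ∂(gam κ)) * (∫ y, f y ∂(gam κ)) := by
  set m := ∫ y, f y ∂(gam κ) with hm
  have h1 : (fun x => (f x - m) ^ 2) = fun x => (f x * f x - 2 * m * f x) + m * m := by
    funext x; ring
  rw [h1, integral_add, integral_sub, integral_const_mul, ← hm]
  · simp
    ring
  · exact (hf.mul hf).integrable
  · exact (hf.const_mul (2 * m)).integrable
  · exact ((hf.mul hf).sub (hf.const_mul (2 * m))).integrable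
  · exact integrable_const _

/-- A3 (Poincare) -/
theorem var_le {f : (κ → ℝ) → ℝ} {D : κ → (κ → ℝ) → ℝ} (hf : EG f)
    (hD : ∀ i x, HasDerivAt (fun h : ℝ => f (x + h • Pi.single i 1)) (D i x) 0)
    (hDe : ∀ i, EG (D i)) :
    ∫ x, (f x - ∫ y, f y ∂(gam κ)) ^ 2 ∂(gam κ) ≤ ∫ x, ∑ i, D i x ^ 2 ∂(gam κ) := by
  obtain ⟨A, hA, hfb, hDb⟩ := Poinc_common hf hDe
  have hDc : ∀ i, Continuous (D i) := fun i => (hDe i).cont
  set S := ∫ x, ∑ i, D i x ^ 2 ∂(gam κ) with hS
  set φ : ℝ → ℝ := fun θ => ∫ p, f p.1 * f (Real.cos θ • p.1 + Real.sin θ • p.2)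
        ∂((gam κ).prod (gam κ)) with hφ
  set J : ℝ → ℝ := fun θ => ∫ p, ∑ i, D i p.1 * D i (Real.cos θ • p.1 + Real.sin θ • p.2)
        ∂((gam κ).prod (gam κ)) with hJ
  have hder : ∀ θ, HasDerivAt φ (-Real.sin θ * J θ) θ := fun θ => hasDerivAt_corr hf hD hDe θ
  -- integrals of squares
  have hsqb : ∀ (θ : ℝ) (i : κ) (p : (κ → ℝ) × (κ → ℝ)),
      |D i (Real.cos θ • p.1 + Real.sin θ • p.2) ^ 2| ≤
      (A ^ 2 + 2 * A) * Real.exp ((A ^ 2 + 2 * A) * (n1 p.1 + n1 p.2)) := by
    intro θ i p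
    have h2 := Poinc_comb hA (hDb i) (Real.abs_cos_le_one θ) (Real.abs_sin_le_one θ) p.1 p.2
    have hn := add_nonneg (n1_nonneg p.1) (n1_nonneg p.2)
    rw [sq, abs_mul]
    refine (mul_le_mul h2 h2 (abs_nonneg _) (by positivity)).trans ?_
    calc A * Real.exp (A * (n1 p.1 + n1 p.2)) * (A * Real.exp (A * (n1 p.1 + n1 p.2)))
        = A ^ 2 * Real.exp (2 * A * (n1 p.1 + n1 p.2)) := by
          rw [show 2 * A * (n1 p.1 + n1 p.2) = A * (n1 p.1 + n1 p.2) + A * (n1 p.1 + n1 p.2) by ring,
            Real.exp_add]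
          ring
      _ ≤ _ := by
          apply mul_le_mul _ _ (Real.exp_nonneg _) (by positivity)
          · nlinarith
          · apply Real.exp_le_exp.mpr
            apply mul_le_mul_of_nonneg_right _ hn
            nlinarith
  have hsqi : ∀ (θ : ℝ) (i : κ), Integrable (fun p : (κ → ℝ) × (κ → ℝ) =>
      D i (Real.cos θ • p.1 + Real.sin θ • p.2) ^ 2) ((gam κ).prod (gam κ)) := by
    intro θ i
    apply integrable_prod_of_bound _ _ _ (hsqb θ i)
    exact ((hDc i).comp (by fun_prop)).pow 2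
  have hsq0 : ∀ i : κ, Integrable (fun p : (κ → ℝ) × (κ → ℝ) => D i p.1 ^ 2)
      ((gam κ).prod (gam κ)) := by
    intro i
    have h := hsqi 0 i
    simpa using h
  have hsq : ∀ (θ : ℝ) (i : κ), ∫ p, D i (Real.cos θ • p.1 + Real.sin θ • p.2) ^ 2
      ∂((gam κ).prod (gam κ)) = ∫ x, D i x ^ 2 ∂(gam κ) := by
    intro θ i
    rw [integral_rotate θ (fun p : (κ → ℝ) × (κ → ℝ) => D i p.1 ^ 2)]
    rw [integral_fun_fst (μ := gam κ) (ν := gam κ) (fun x => D i x ^ 2)]
    simp
  have hsq' : ∀ (i : κ), ∫ p, D i p.1 ^ 2 ∂((gam κ).prod (gam κ)) = ∫ x, D i x ^ 2 ∂(gam κ) := by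
    intro i
    rw [integral_fun_fst (μ := gam κ) (ν := gam κ) (fun x => D i x ^ 2)]
    simp
  have hSsum : S = ∑ i, ∫ x, D i x ^ 2 ∂(gam κ) := by
    rw [hS, integral_finsetSum]
    intro i _
    exact ((hDe i).pow 2).integrable
  have hJle : ∀ θ, J θ ≤ S := by
    intro θ
    have h1 : J θ ≤ ∫ p, ∑ i, ((1 / 2) * D i p.1 ^ 2 +
        (1 / 2) * D i (Real.cos θ • p.1 + Real.sin θ • p.2) ^ 2) ∂((gam κ).prod (gam κ)) := by
      apply integral_mono
      · apply integrable_finsetSum
        intro i _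
        have h3 : Continuous (fun p : (κ → ℝ) × (κ → ℝ) => D i p.1 *
            D i (Real.cos θ • p.1 + Real.sin θ • p.2)) :=
          ((hDc i).comp continuous_fst).mul ((hDc i).comp (by fun_prop))
        apply Integrable.mono' (((hsq0 i).const_mul (1 / 2)).add ((hsqi θ i).const_mul (1 / 2)))
          h3.aestronglyMeasurable
        filter_upwards with p
        rw [Real.norm_eq_abs, abs_mul]
        simp only [Pi.add_apply]
        nlinarith [sq_nonneg (|D i p.1| - |D i (Real.cos θ • p.1 + Real.sin θ • p.2)|),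
          sq_abs (D i p.1), sq_abs (D i (Real.cos θ • p.1 + Real.sin θ • p.2))]
      · apply integrable_finsetSum
        intro i _
        exact ((hsq0 i).const_mul _).add ((hsqi θ i).const_mul _)
      · intro p
        apply Finset.sum_le_sum
        intro i _
        nlinarith [sq_nonneg (D i p.1 - D i (Real.cos θ • p.1 + Real.sin θ • p.2))]
    have h2 : (∫ p, ∑ i, ((1 / 2) * D i p.1 ^ 2 +
        (1 / 2) * D i (Real.cos θ • p.1 + Real.sin θ • p.2) ^ 2) ∂((gam κ).prod (gam κ))) = S := by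
      rw [integral_finsetSum]
      · rw [hSsum]
        apply Finset.sum_congr rfl
        intro i _
        rw [integral_add ((hsq0 i).const_mul _) ((hsqi θ i).const_mul _), integral_const_mul,
          integral_const_mul, hsq θ i, hsq' i]
        ring
      · intro i _
        exact ((hsq0 i).const_mul _).add ((hsqi θ i).const_mul _)
    linarith
  have hmono : MonotoneOn (fun θ => φ θ - Real.cos θ * S) (Set.Icc 0 (Real.pi / 2)) := by
    apply monotoneOn_of_deriv_nonneg (convex_Icc _ _)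
    · intro θ _
      exact ((hder θ).sub ((Real.hasDerivAt_cos θ).mul_const S)).continuousAt.continuousWithinAt
    · intro θ _
      exact ((hder θ).sub ((Real.hasDerivAt_cos θ).mul_const S)).differentiableAt.differentiableWithinAt
    · intro θ hθ
      rw [interior_Icc] at hθ
      have hd0 : HasDerivAt (fun θ => φ θ - Real.cos θ * S)
          (-Real.sin θ * J θ - -Real.sin θ * S) θ := (hder θ).sub ((Real.hasDerivAt_cos θ).mul_const S)
      rw [hd0.deriv]
      have hs : 0 ≤ Real.sin θ := Real.sin_nonneg_of_nonneg_of_le_pi hθ.1.le (by linarith [hθ.2, Real.pi_pos])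
      have := mul_nonneg hs (sub_nonneg.mpr (hJle θ))
      linarith
  have hend := hmono (Set.left_mem_Icc.mpr (by positivity)) (Set.right_mem_Icc.mpr (by positivity))
    (by positivity : (0 : ℝ) ≤ Real.pi / 2)
  simp only [Real.cos_zero, Real.cos_pi_div_two, one_mul, zero_mul, sub_zero] at hend
  have e0 : φ 0 = ∫ x, f x * f x ∂(gam κ) := by
    simp only [hφ, Real.cos_zero, Real.sin_zero, one_smul, zero_smul, add_zero]
    rw [integral_fun_fst (μ := gam κ) (ν := gam κ) (fun x => f x * f x)]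
    simp
  have e1 : φ (Real.pi / 2) = (∫ y, f y ∂(gam κ)) * (∫ y, f y ∂(gam κ)) := by
    simp only [hφ, Real.cos_pi_div_two, Real.sin_pi_div_two, one_smul, zero_smul, zero_add]
    rw [integral_prod_mul]
  rw [Poinc_var hf, ← e0, ← e1]
  linarith

end

end SKC.A
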