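import Pool.Agent.H.MP_08eaf3_pr.A.EL
import Pool.Agent.H.MP_08eaf3_pr.A.Poinc

/-!
# Part A: concentration of free energies
-/

set_option autoImplicit false

open MeasureTheory ProbabilityTheory Filter Topology Matrix

namespace SKC.A

section

variable {Ω Ω' κ : Type} [Fintype κ] {B : Finset Ω}

theorem Conc_gav_sq_le (hB : B.Nonempty) (a f : Ω → ℝ) :
    gav B a f ^ 2 ≤ gav B a (fun ω => f ω ^ 2) := by
  unfold gav
  have h := Finset.sum_sq_le_sum_mul_sum_of_sq_le_mul B (r := fun ω => gw B a ω * f ω)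
    (f := fun ω => gw B a ω) (g := fun ω => gw B a ω * f ω ^ 2)
    (fun ω _ => gw_nonneg a ω) (fun ω _ => mul_nonneg (gw_nonneg a ω) (sq_nonneg _))
    (fun ω _ => le_of_eq (by ring))
  rw [sum_gw hB a, one_mul] at h
  exact h

theorem Conc_grad_le (hB : B.Nonempty) (v : Ω → κ → ℝ) (a : Ω → ℝ) (κ0 : ℝ)
    (h : ∀ ω ∈ B, dot (v ω) (v ω) ≤ κ0) :
    ∑ i, gav B a (fun ω => v ω i) ^ 2 ≤ κ0 := by
  calc ∑ i, gav B a (fun ω => v ω i) ^ 2
      ≤ ∑ i, gav B a (fun ω => v ω i ^ 2) :=
        Finset.sum_le_sum (fun i _ => Conc_gav_sq_le hB a _)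
    _ = gav B a (fun ω => dot (v ω) (v ω)) := by
        unfold gav
        rw [Finset.sum_comm]
        refine Finset.sum_congr rfl ?_
        intro ω _
        rw [← Finset.mul_sum]
        congr 1
        unfold dot
        refine Finset.sum_congr rfl ?_
        intro i _
        ring
    _ ≤ gav B a (fun _ => κ0) := gav_mono a h
    _ = κ0 := gav_const hB a κ0

/-- A3 for free energies: the gradient is the Gibbs average of the features (`var_le`) -/
theorem var_lse (B : Finset Ω) (hB : B.Nonempty)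
    (v : Ω → κ → ℝ) (a : Ω → ℝ) (κ0 : ℝ) (h : ∀ ω ∈ B, dot (v ω) (v ω) ≤ κ0) :
    ∫ x, (lse B (fun ω => dot x (v ω) + a ω) - EL B v a) ^ 2 ∂(gam κ) ≤ κ0 := by
  classical
  have hD : ∀ (i : κ) (x : κ → ℝ), HasDerivAt
      (fun t : ℝ => lse B (fun ω => dot (x + t • Pi.single i 1) (v ω) + a ω))
      (gav B (fun ω => dot x (v ω) + a ω) (fun ω => v ω i)) 0 := by
    intro i x
    have h1 := hasDerivAt_lse (B := B) hB
      (a := fun t ω => dot (x + t • Pi.single i 1) (v ω) + a ω) (a' := fun ω => v ω i) (t := 0)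
      (by
        intro ω _
        have e : (fun t : ℝ => dot (x + t • Pi.single i 1) (v ω) + a ω) =
            fun t : ℝ => t * v ω i + (dot x (v ω) + a ω) := by
          funext t
          rw [dot_add_left, dot_smul_left, dot_comm (Pi.single i 1) (v ω), dot_single]
          ring
        change HasDerivAt (fun t : ℝ => dot (x + t • Pi.single i 1) (v ω) + a ω) (v ω i) 0
        rw [e]
        have h2 := ((hasDerivAt_id (0 : ℝ)).mul_const (v ω i)).add_const (dot x (v ω) + a ω)
        simpa using h2)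
    have e2 : (fun ω => dot (x + (0 : ℝ) • Pi.single i 1) (v ω) + a ω) =
        fun ω => dot x (v ω) + a ω := by
      funext ω
      rw [zero_smul, add_zero]
    have h3 : HasDerivAt (fun t : ℝ => lse B (fun ω => dot (x + t • Pi.single i 1) (v ω) + a ω))
        (gav B (fun ω => dot (x + (0 : ℝ) • Pi.single i 1) (v ω) + a ω) (fun ω => v ω i)) 0 := h1
    rw [e2] at h3
    exact h3
  have hv := var_le (f := fun x => lse B (fun ω => dot x (v ω) + a ω))
    (D := fun i x => gav B (fun ω => dot x (v ω) + a ω) (fun ω => v ω i))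
    (LG_lse hB v a).eg hD (fun i => EG_gav hB v a _)
  have hint : Integrable (fun x => ∑ i, gav B (fun ω => dot x (v ω) + a ω) (fun ω => v ω i) ^ 2)
      (gam κ) :=
    (EG.sum (Finset.univ : Finset κ) (fun i _ => (EG_gav hB v a (fun ω => v ω i)).pow 2)).integrable
  calc ∫ x, (lse B (fun ω => dot x (v ω) + a ω) - EL B v a) ^ 2 ∂(gam κ)
      ≤ ∫ x, ∑ i, gav B (fun ω => dot x (v ω) + a ω) (fun ω => v ω i) ^ 2 ∂(gam κ) := hv
    _ ≤ ∫ _x, κ0 ∂(gam κ) := by
        refine integral_mono hint (integrable_const _) ?_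
        intro x
        exact Conc_grad_le hB v _ κ0 h
    _ = κ0 := by simp

theorem Conc_integrable_dev (hB : B.Nonempty) (v : Ω → κ → ℝ) (a : Ω → ℝ) :
    Integrable (fun x => |lse B (fun ω => dot x (v ω) + a ω) - EL B v a|) (gam κ) :=
  ((integrable_lse hB v a).sub (integrable_const _)).abs

theorem Conc_integrable_sq (hB : B.Nonempty) (v : Ω → κ → ℝ) (a : Ω → ℝ) :
    Integrable (fun x => (lse B (fun ω => dot x (v ω) + a ω) - EL B v a) ^ 2) (gam κ) :=
  (((LG_lse hB v a).eg.sub (EG.const (EL B v a))).pow 2).integrable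

/-- Chebyshev (`meas_ge_le_variance_div_sq` or `mul_meas_ge_le_lintegral`) -/
theorem conc (hB : B.Nonempty) (v : Ω → κ → ℝ) (a : Ω → ℝ) {D t : ℝ} (ht : 0 < t)
    (h : ∀ ω ∈ B, dot (v ω) (v ω) ≤ D) :
    gam κ {x | t ≤ |lse B (fun ω => dot x (v ω) + a ω) - EL B v a|} ≤ ENNReal.ofReal (D / t ^ 2) := by
  have h1 := mul_meas_ge_le_integral_of_nonneg (μ := gam κ)
    (f := fun x => (lse B (fun ω => dot x (v ω) + a ω) - EL B v a) ^ 2)
    (Filter.Eventually.of_forall (fun x => sq_nonneg _)) (Conc_integrable_sq hB v a) (t ^ 2)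
  have h2 := h1.trans (var_lse B hB v a D h)
  have hset : {x : κ → ℝ | t ≤ |lse B (fun ω => dot x (v ω) + a ω) - EL B v a|} =
      {x | t ^ 2 ≤ (lse B (fun ω => dot x (v ω) + a ω) - EL B v a) ^ 2} := by
    ext x
    change t ≤ |lse B (fun ω => dot x (v ω) + a ω) - EL B v a| ↔
      t ^ 2 ≤ (lse B (fun ω => dot x (v ω) + a ω) - EL B v a) ^ 2
    rw [← sq_abs (lse B (fun ω => dot x (v ω) + a ω) - EL B v a)]
    constructor
    · intro hx
      exact pow_le_pow_left₀ ht.le hx 2
    · intro hx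
      exact le_of_sq_le_sq hx (abs_nonneg _)
  rw [hset]
  have ht2 : (0 : ℝ) < t ^ 2 := by positivity
  have h3 : (gam κ).real {x | t ^ 2 ≤ (lse B (fun ω => dot x (v ω) + a ω) - EL B v a) ^ 2} ≤
      D / t ^ 2 := by
    rw [le_div_iff₀ ht2, mul_comm]
    exact h2
  rw [← ENNReal.ofReal_toReal (measure_ne_top (gam κ) _)]
  exact ENNReal.ofReal_le_ofReal h3

/-- mean deviation: Cauchy-Schwarz -/
theorem mean_dev (hB : B.Nonempty) (v : Ω → κ → ℝ) (a : Ω → ℝ) {D : ℝ}
    (h : ∀ ω ∈ B, dot (v ω) (v ω) ≤ D) :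
    ∫ x, |lse B (fun ω => dot x (v ω) + a ω) - EL B v a| ∂(gam κ) ≤ Real.sqrt D := by
  set g : (κ → ℝ) → ℝ := fun x => |lse B (fun ω => dot x (v ω) + a ω) - EL B v a| with hg
  set c : ℝ := ∫ x, g x ∂(gam κ) with hc
  have hgi : Integrable g (gam κ) := Conc_integrable_dev hB v a
  have hg2 : Integrable (fun x => g x ^ 2) (gam κ) := by
    refine (Conc_integrable_sq hB v a).congr (Filter.Eventually.of_forall ?_)
    intro x
    exact (sq_abs _).symm
  have h0 : 0 ≤ ∫ x, (g x - c) ^ 2 ∂(gam κ) := integral_nonneg (fun x => sq_nonneg _)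
  have h1 : ∫ x, (g x - c) ^ 2 ∂(gam κ) = (∫ x, g x ^ 2 ∂(gam κ)) - c ^ 2 := by
    have e : ∀ x, (g x - c) ^ 2 = (g x ^ 2 - 2 * c * g x) + c ^ 2 := by
      intro x
      ring
    have i1 : Integrable (fun x => g x ^ 2 - 2 * c * g x) (gam κ) := hg2.sub (hgi.const_mul _)
    simp only [e]
    rw [integral_add i1 (integrable_const _),
      integral_sub hg2 (hgi.const_mul _), integral_const_mul, ← hc]
    simp
    ring
  have h2 : ∫ x, g x ^ 2 ∂(gam κ) ≤ D := by
    have e : ∀ x, g x ^ 2 = (lse B (fun ω => dot x (v ω) + a ω) - EL B v a) ^ 2 :=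
      fun x => sq_abs _
    simp only [e]
    exact var_lse B hB v a D h
  have h3 : c ^ 2 ≤ D := by linarith
  exact Real.le_sqrt_of_sq_le h3

/-- maximum of finitely many free energies (used for the colours C6): the free energy of a union
exceeds the largest expected free energy by at most `log |s| + Σ_j sqrt D` -/
theorem EL_biUnion_le {J : Type} [DecidableEq Ω] (s : Finset J) (hs : s.Nonempty)
    (E : J → Finset Ω) (hE : ∀ j ∈ s, (E j).Nonempty) (v : Ω → κ → ℝ) (a : Ω → ℝ) {D c : ℝ}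
    (hD : ∀ j ∈ s, ∀ ω ∈ E j, dot (v ω) (v ω) ≤ D) (hc : ∀ j ∈ s, EL (E j) v a ≤ c) :
    EL (s.biUnion E) v a ≤ c + Real.log s.card + s.card * Real.sqrt D := by
  have hne : (s.biUnion E).Nonempty := by
    obtain ⟨j, hj⟩ := hs
    obtain ⟨ω, hω⟩ := hE j hj
    exact ⟨ω, Finset.mem_biUnion.2 ⟨j, hj, hω⟩⟩
  have hdev : ∀ j ∈ s, Integrable
      (fun x => |lse (E j) (fun ω => dot x (v ω) + a ω) - EL (E j) v a|) (gam κ) :=
    fun j hj => Conc_integrable_dev (hE j hj) v a
  have hpt : ∀ x : κ → ℝ, lse (s.biUnion E) (fun ω => dot x (v ω) + a ω) ≤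
      (Real.log s.card + c) + ∑ j ∈ s, |lse (E j) (fun ω => dot x (v ω) + a ω) - EL (E j) v a| := by
    intro x
    have h1 := lse_biUnion_le s hs E hE (fun ω => dot x (v ω) + a ω)
      (c := c + ∑ j ∈ s, |lse (E j) (fun ω => dot x (v ω) + a ω) - EL (E j) v a|) (by
        intro j hj
        have h2 : |lse (E j) (fun ω => dot x (v ω) + a ω) - EL (E j) v a| ≤
            ∑ j ∈ s, |lse (E j) (fun ω => dot x (v ω) + a ω) - EL (E j) v a| :=
          Finset.single_le_sum (f := fun j => |lse (E j) (fun ω => dot x (v ω) + a ω) -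
            EL (E j) v a|) (fun i _ => abs_nonneg _) hj
        have h3 := le_abs_self (lse (E j) (fun ω => dot x (v ω) + a ω) - EL (E j) v a)
        have h4 := hc j hj
        linarith)
    linarith
  have hsum : Integrable (fun x => ∑ j ∈ s,
      |lse (E j) (fun ω => dot x (v ω) + a ω) - EL (E j) v a|) (gam κ) :=
    integrable_finsetSum s hdev
  calc EL (s.biUnion E) v a
      ≤ ∫ x, ((Real.log s.card + c) +
          ∑ j ∈ s, |lse (E j) (fun ω => dot x (v ω) + a ω) - EL (E j) v a|) ∂(gam κ) := by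
        unfold EL
        exact integral_mono (integrable_lse hne v a) ((integrable_const _).add hsum) hpt
    _ = (Real.log s.card + c) +
          ∑ j ∈ s, ∫ x, |lse (E j) (fun ω => dot x (v ω) + a ω) - EL (E j) v a| ∂(gam κ) := by
        rw [integral_add (integrable_const _) hsum, integral_finsetSum s hdev]
        simp
    _ ≤ (Real.log s.card + c) + ∑ _j ∈ s, Real.sqrt D := by
        have := Finset.sum_le_sum (fun j hj => mean_dev (hE j hj) v a (hD j hj))
        linarith
    _ = c + Real.log s.card + s.card * Real.sqrt D := by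
        rw [Finset.sum_const, nsmul_eq_mul]
        ring

end

end SKC.A
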