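import Pool.Agent.H.MP_08eaf3_pr.A.EL

/-!
# Part A: expected free energies of sums and products
-/

set_option autoImplicit false

open MeasureTheory ProbabilityTheory Filter Topology Matrix

namespace SKC.A

section

variable {Ω Ω' κ κ' : Type} [Fintype κ] [Fintype κ'] {B : Finset Ω}

/-- two independent fields: Fubini (`integral_gam_sum'`) -/
theorem EL_sum (hB : B.Nonempty) (v : Ω → κ → ℝ) (w : Ω → κ' → ℝ) (a : Ω → ℝ) :
    EL B (fun ω => Sum.elim (v ω) (w ω)) a =
      ∫ x, ∫ y, lse B (fun ω => dot x (v ω) + dot y (w ω) + a ω) ∂(gam κ') ∂(gam κ) := by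
  have h := integral_gam_sum' (ι := κ) (κ := κ') _
    (LG_lse hB (fun ω => Sum.elim (v ω) (w ω)) a).eg
  simp only [dot_sum_elim] at h
  exact h

/-- two independent fields, the inner expectation is an `EL` with a random deterministic part -/
theorem EL_sum' (hB : B.Nonempty) (v : Ω → κ → ℝ) (w : Ω → κ' → ℝ) (a : Ω → ℝ) :
    EL B (fun ω => Sum.elim (v ω) (w ω)) a =
      ∫ x, EL B w (fun ω => dot x (v ω) + a ω) ∂(gam κ) := by
  rw [EL_sum hB]
  refine integral_congr_ae (Eventually.of_forall fun x => ?_)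
  refine integral_congr_ae (Eventually.of_forall fun y => ?_)
  change lse B _ = lse B _
  refine lse_congr fun ω _ => ?_
  ring

theorem ELsum_integrable (hB : B.Nonempty) (v : Ω → κ → ℝ) (w : Ω → κ' → ℝ) (a : Ω → ℝ) :
    Integrable (fun x => EL B w (fun ω => dot x (v ω) + a ω)) (gam κ) := by
  have hf := (LG_lse hB (fun ω => Sum.elim (v ω) (w ω)) a).eg.integrable
  have h1 := (gam_sum_elim (ι := κ) (κ := κ')).integrable_comp_of_integrable hf
  have h2 := h1.integral_prod_left
  refine h2.congr (Eventually.of_forall fun x => ?_)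
  refine integral_congr_ae (Eventually.of_forall fun y => ?_)
  change lse B _ = lse B _
  refine lse_congr fun ω _ => ?_
  change dot (Sum.elim x y) (Sum.elim (v ω) (w ω)) + a ω = _
  rw [dot_sum_elim]
  ring

/-- adding an independent field increases the expected free energy -/
theorem EL_le_EL_sum (hB : B.Nonempty) (v : Ω → κ → ℝ) (w : Ω → κ' → ℝ) (a : Ω → ℝ) :
    EL B v a ≤ EL B (fun ω => Sum.elim (v ω) (w ω)) a := by
  rw [EL_sum' hB]
  exact integral_mono (integrable_lse hB v a) (ELsum_integrable hB v w a)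
    fun x => lse_le_EL hB w _

/-- product of two systems with the same disorder -/
theorem EL_prod (hB : B.Nonempty) {B' : Finset Ω'} (hB' : B'.Nonempty) (v : Ω → κ → ℝ)
    (w : Ω' → κ → ℝ) (a : Ω → ℝ) (b : Ω' → ℝ) :
    EL (B ×ˢ B') (fun p => v p.1 + w p.2) (fun p => a p.1 + b p.2) = EL B v a + EL B' w b := by
  unfold EL
  rw [← integral_add (integrable_lse hB v a) (integrable_lse hB' w b)]
  refine integral_congr_ae (Eventually.of_forall fun x => ?_)
  change lse (B ×ˢ B') _ = lse B _ + lse B' _
  rw [← lse_product hB hB']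
  refine lse_congr fun p _ => ?_
  rw [dot_add_right]
  ring

/-- product of two systems with independent disorders -/
theorem EL_prod_indep (hB : B.Nonempty) {B' : Finset Ω'} (hB' : B'.Nonempty) (v : Ω → κ → ℝ)
    (w : Ω' → κ' → ℝ) (a : Ω → ℝ) (b : Ω' → ℝ) :
    EL (B ×ˢ B') (fun p => Sum.elim (v p.1) (w p.2)) (fun p => a p.1 + b p.2) =
      EL B v a + EL B' w b := by
  rw [EL_sum (hB.product hB') (fun p : Ω × Ω' => v p.1) (fun p : Ω × Ω' => w p.2)]
  have h1 : ∀ x : κ → ℝ, ∫ y, lse (B ×ˢ B') (fun p => dot x (v p.1) + dot y (w p.2) +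
      (a p.1 + b p.2)) ∂(gam κ') = lse B (fun ω => dot x (v ω) + a ω) + EL B' w b := by
    intro x
    have h2 : ∀ y : κ' → ℝ, lse (B ×ˢ B') (fun p => dot x (v p.1) + dot y (w p.2) +
        (a p.1 + b p.2)) = lse B (fun ω => dot x (v ω) + a ω) +
          lse B' (fun ω => dot y (w ω) + b ω) := by
      intro y
      rw [← lse_product hB hB']
      refine lse_congr fun p _ => ?_
      ring
    simp only [h2]
    rw [integral_add (integrable_const _) (integrable_lse hB' w b), integral_const]
    simp [EL]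
  simp only [h1]
  rw [integral_add (integrable_lse hB v a) (integrable_const _), integral_const]
  simp [EL]

end

end SKC.A
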