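import Pool.Agent.H.MP_08eaf3_pr.A.Poinc

/-!
# Part A: A4 and A5, improved Poincare inequalities
-/

set_option autoImplicit false

open MeasureTheory ProbabilityTheory Filter Topology Matrix

namespace SKC.A

section

variable {κ : Type} [Fintype κ] [DecidableEq κ]

/-! ### auxiliary facts -/

/-- growth class on the product of two spaces -/
def Even_PG (F : (κ → ℝ) × (κ → ℝ) → ℝ) : Prop :=
  Continuous F ∧ ∃ C : ℝ, 0 < C ∧ ∀ p, |F p| ≤ C * Real.exp (C * (n1 p.1 + n1 p.2))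

omit [DecidableEq κ] in
theorem Even_PG_of {F : (κ → ℝ) × (κ → ℝ) → ℝ} (hc : Continuous F) {A B : ℝ}
    (hb : ∀ p, |F p| ≤ A * Real.exp (B * (n1 p.1 + n1 p.2))) : Even_PG F := by
  refine ⟨hc, max (max A B) 1, lt_of_lt_of_le one_pos (le_max_right _ _), fun p => ?_⟩
  have hs : 0 ≤ n1 p.1 + n1 p.2 := add_nonneg (n1_nonneg _) (n1_nonneg _)
  have hA : A ≤ max (max A B) 1 := (le_max_left _ _).trans (le_max_left _ _)
  have hB : B ≤ max (max A B) 1 := (le_max_right _ _).trans (le_max_left _ _)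
  have h0 : 0 ≤ max (max A B) 1 := le_trans zero_le_one (le_max_right _ _)
  refine (hb p).trans ?_
  refine (mul_le_mul_of_nonneg_right hA (Real.exp_pos _).le).trans ?_
  exact mul_le_mul_of_nonneg_left (Real.exp_le_exp.mpr (mul_le_mul_of_nonneg_right hB hs)) h0

omit [DecidableEq κ] in
theorem Even_PG_integrable {F : (κ → ℝ) × (κ → ℝ) → ℝ} (h : Even_PG F) :
    Integrable F ((gam κ).prod (gam κ)) := by
  obtain ⟨hc, C, _, hb⟩ := h
  exact integrable_prod_of_bound F hc C hb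

omit [DecidableEq κ] in
theorem Even_PG_fst {f : (κ → ℝ) → ℝ} (hf : EG f) : Even_PG (fun p => f p.1) := by
  obtain ⟨C, _, hC, hb⟩ := hf.bound 0
  refine Even_PG_of (hf.cont.comp continuous_fst) (A := C) (B := C) fun p => (hb p.1).trans ?_
  refine mul_le_mul_of_nonneg_left (Real.exp_le_exp.mpr (mul_le_mul_of_nonneg_left ?_ hC.le)) hC.le
  exact le_add_of_nonneg_right (n1_nonneg _)

omit [DecidableEq κ] in
theorem Even_PG_snd {f : (κ → ℝ) → ℝ} (hf : EG f) : Even_PG (fun p => f p.2) := by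
  obtain ⟨C, _, hC, hb⟩ := hf.bound 0
  refine Even_PG_of (hf.cont.comp continuous_snd) (A := C) (B := C) fun p => (hb p.2).trans ?_
  refine mul_le_mul_of_nonneg_left (Real.exp_le_exp.mpr (mul_le_mul_of_nonneg_left ?_ hC.le)) hC.le
  exact le_add_of_nonneg_left (n1_nonneg _)

theorem Even_c_abs : |(Real.sqrt 2)⁻¹| ≤ 1 := by
  rw [abs_of_nonneg (inv_nonneg.mpr (Real.sqrt_nonneg 2))]
  refine inv_le_one_of_one_le₀ ?_
  rw [Real.one_le_sqrt]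
  norm_num

omit [DecidableEq κ] in
theorem Even_PG_add_arg {f : (κ → ℝ) → ℝ} (hf : EG f) :
    Even_PG (fun p => f ((Real.sqrt 2)⁻¹ • (p.1 + p.2))) := by
  obtain ⟨C, _, hC, hb⟩ := hf.bound 0
  refine Even_PG_of (hf.cont.comp (by fun_prop :
      Continuous fun p : (κ → ℝ) × (κ → ℝ) => (Real.sqrt 2)⁻¹ • (p.1 + p.2)))
    (A := C) (B := C) fun p => (hb _).trans ?_
  refine mul_le_mul_of_nonneg_left (Real.exp_le_exp.mpr (mul_le_mul_of_nonneg_left ?_ hC.le)) hC.le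
  rw [n1_smul]
  refine (mul_le_of_le_one_left (n1_nonneg _) Even_c_abs).trans ?_
  exact n1_add_le _ _

omit [DecidableEq κ] in
theorem Even_PG_sub_arg {f : (κ → ℝ) → ℝ} (hf : EG f) :
    Even_PG (fun p => f ((Real.sqrt 2)⁻¹ • (p.1 - p.2))) := by
  obtain ⟨C, _, hC, hb⟩ := hf.bound 0
  refine Even_PG_of (hf.cont.comp (by fun_prop :
      Continuous fun p : (κ → ℝ) × (κ → ℝ) => (Real.sqrt 2)⁻¹ • (p.1 - p.2)))
    (A := C) (B := C) fun p => (hb _).trans ?_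
  refine mul_le_mul_of_nonneg_left (Real.exp_le_exp.mpr (mul_le_mul_of_nonneg_left ?_ hC.le)) hC.le
  rw [n1_smul]
  refine (mul_le_of_le_one_left (n1_nonneg _) Even_c_abs).trans ?_
  have h := n1_add_le p.1 (-p.2)
  rw [n1_neg, ← sub_eq_add_neg] at h
  exact h

omit [DecidableEq κ] in
theorem Even_PG_mul {F H : (κ → ℝ) × (κ → ℝ) → ℝ} (hF : Even_PG F) (hH : Even_PG H) :
    Even_PG (fun p => F p * H p) := by
  obtain ⟨hFc, C, hC, hFb⟩ := hF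
  obtain ⟨hHc, D, hD, hHb⟩ := hH
  refine Even_PG_of (hFc.mul hHc) (A := C * D) (B := C + D) fun p => ?_
  rw [abs_mul]
  refine (mul_le_mul (hFb p) (hHb p) (abs_nonneg _) (by positivity)).trans (le_of_eq ?_)
  rw [add_mul, Real.exp_add]
  ring

omit [DecidableEq κ] in
theorem Even_PG_add {F H : (κ → ℝ) × (κ → ℝ) → ℝ} (hF : Even_PG F) (hH : Even_PG H) :
    Even_PG (fun p => F p + H p) := by
  obtain ⟨hFc, C, hC, hFb⟩ := hF
  obtain ⟨hHc, D, hD, hHb⟩ := hH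
  refine Even_PG_of (hFc.add hHc) (A := C + D) (B := C + D) fun p => ?_
  have hs : 0 ≤ n1 p.1 + n1 p.2 := add_nonneg (n1_nonneg _) (n1_nonneg _)
  refine (abs_add_le _ _).trans ?_
  have h1 : Real.exp (C * (n1 p.1 + n1 p.2)) ≤ Real.exp ((C + D) * (n1 p.1 + n1 p.2)) :=
    Real.exp_le_exp.mpr (mul_le_mul_of_nonneg_right (by linarith) hs)
  have h2 : Real.exp (D * (n1 p.1 + n1 p.2)) ≤ Real.exp ((C + D) * (n1 p.1 + n1 p.2)) :=
    Real.exp_le_exp.mpr (mul_le_mul_of_nonneg_right (by linarith) hs)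
  have h3 := (hFb p).trans (mul_le_mul_of_nonneg_left h1 hC.le)
  have h4 := (hHb p).trans (mul_le_mul_of_nonneg_left h2 hD.le)
  linarith

omit [DecidableEq κ] in
theorem Even_PG_const (a : ℝ) : Even_PG (fun _ : (κ → ℝ) × (κ → ℝ) => a) :=
  Even_PG_of continuous_const (A := |a|) (B := 0) fun p => by simp

omit [DecidableEq κ] in
theorem Even_PG_const_mul {F : (κ → ℝ) × (κ → ℝ) → ℝ} (hF : Even_PG F) (a : ℝ) :
    Even_PG (fun p => a * F p) := Even_PG_mul (Even_PG_const a) hF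

omit [DecidableEq κ] in
theorem Even_PG_sub {F H : (κ → ℝ) × (κ → ℝ) → ℝ} (hF : Even_PG F) (hH : Even_PG H) :
    Even_PG (fun p => F p - H p) := by
  have h := Even_PG_add hF (Even_PG_const_mul hH (-1))
  refine (iff_of_eq ?_).mp h
  congr 1
  funext p
  ring

omit [DecidableEq κ] in
theorem Even_PG_div {F : (κ → ℝ) × (κ → ℝ) → ℝ} (hF : Even_PG F) (a : ℝ) :
    Even_PG (fun p => F p / a) := by
  have h := Even_PG_const_mul hF a⁻¹
  refine (iff_of_eq ?_).mp h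
  congr 1
  funext p
  rw [div_eq_inv_mul]

omit [DecidableEq κ] in
theorem Even_PG_sq {F : (κ → ℝ) × (κ → ℝ) → ℝ} (hF : Even_PG F) :
    Even_PG (fun p => F p ^ 2) := by
  have h := Even_PG_mul hF hF
  refine (iff_of_eq ?_).mp h
  congr 1
  funext p
  ring

omit [DecidableEq κ] in
theorem Even_PG_sum {ι : Type} (s : Finset ι) {F : ι → (κ → ℝ) × (κ → ℝ) → ℝ}
    (hF : ∀ i, Even_PG (F i)) : Even_PG (fun p => ∑ i ∈ s, F i p) := by
  classical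
  induction s using Finset.induction_on with
  | empty => simpa using Even_PG_const (κ := κ) 0
  | insert a s ha ih =>
    have h := Even_PG_add (hF a) ih
    refine (iff_of_eq ?_).mp h
    congr 1
    funext p
    rw [Finset.sum_insert ha]

omit [DecidableEq κ] in
theorem Even_PG_right {F : (κ → ℝ) × (κ → ℝ) → ℝ} (hF : Even_PG F) (a : κ → ℝ) :
    EG (fun b => F (a, b)) := by
  obtain ⟨hFc, C, hC, hFb⟩ := hF
  refine EG.of_bound (hFc.comp (Continuous.prodMk_right a)) (A := C * Real.exp (C * n1 a)) (B := C)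
    fun b => (hFb (a, b)).trans (le_of_eq ?_)
  simp only
  rw [mul_add, Real.exp_add]
  ring

omit [DecidableEq κ] in
theorem Even_PG_left {F : (κ → ℝ) × (κ → ℝ) → ℝ} (hF : Even_PG F) (b : κ → ℝ) :
    EG (fun a => F (a, b)) := by
  obtain ⟨hFc, C, hC, hFb⟩ := hF
  refine EG.of_bound (hFc.comp (Continuous.prodMk_left b)) (A := C * Real.exp (C * n1 b)) (B := C)
    fun a => (hFb (a, b)).trans (le_of_eq ?_)
  simp only
  rw [mul_add, Real.exp_add]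
  ring

omit [DecidableEq κ] in
theorem Even_int_fst (g : (κ → ℝ) → ℝ) :
    ∫ p, g p.1 ∂((gam κ).prod (gam κ)) = ∫ x, g x ∂(gam κ) := by
  have h := integral_prod_mul (μ := gam κ) (ν := gam κ) g (fun _ => (1 : ℝ))
  simpa using h

omit [DecidableEq κ] in
theorem Even_int_snd (g : (κ → ℝ) → ℝ) :
    ∫ p, g p.2 ∂((gam κ).prod (gam κ)) = ∫ x, g x ∂(gam κ) := by
  have h := integral_prod_mul (μ := gam κ) (ν := gam κ) (fun _ => (1 : ℝ)) g
  simpa using h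

omit [DecidableEq κ] in
theorem Even_int_comb {g : (κ → ℝ) → ℝ} (hg : EG g) (ε : ℝ) :
    ∫ p, (g p.1 + ε * g p.2) ^ 2 ∂((gam κ).prod (gam κ)) =
      (1 + ε ^ 2) * (∫ x, g x ^ 2 ∂(gam κ)) + 2 * ε * (∫ x, g x ∂(gam κ)) ^ 2 := by
  have hA : Integrable (fun p : (κ → ℝ) × (κ → ℝ) => g p.1 ^ 2) ((gam κ).prod (gam κ)) :=
    Even_PG_integrable (Even_PG_fst (hg.pow 2))
  have hB : Integrable (fun p : (κ → ℝ) × (κ → ℝ) => g p.2 ^ 2) ((gam κ).prod (gam κ)) :=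
    Even_PG_integrable (Even_PG_snd (hg.pow 2))
  have hC : Integrable (fun p : (κ → ℝ) × (κ → ℝ) => g p.1 * g p.2) ((gam κ).prod (gam κ)) :=
    Even_PG_integrable (Even_PG_mul (Even_PG_fst hg) (Even_PG_snd hg))
  have e : (fun p : (κ → ℝ) × (κ → ℝ) => (g p.1 + ε * g p.2) ^ 2) =
      fun p => (g p.1 ^ 2 + ε ^ 2 * g p.2 ^ 2) + (2 * ε) * (g p.1 * g p.2) := by
    funext p
    ring
  have h1 := Even_int_fst (fun x : κ → ℝ => g x ^ 2)
  have h2 := Even_int_snd (fun x : κ → ℝ => g x ^ 2)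
  have h3 := integral_prod_mul (μ := gam κ) (ν := gam κ) g g
  have hAB : Integrable (fun p : (κ → ℝ) × (κ → ℝ) => g p.1 ^ 2 + ε ^ 2 * g p.2 ^ 2)
      ((gam κ).prod (gam κ)) := hA.add (hB.const_mul _)
  rw [e, integral_add hAB (hC.const_mul _), integral_add hA (hB.const_mul _),
    integral_const_mul, integral_const_mul, h1, h2, h3]
  ring

omit [DecidableEq κ] in
theorem Even_var {f : (κ → ℝ) → ℝ} (hf : EG f) :
    ∫ x, (f x - ∫ y, f y ∂(gam κ)) ^ 2 ∂(gam κ) = ∫ x, f x ^ 2 ∂(gam κ) - (∫ y, f y ∂(gam κ)) ^ 2 := by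
  set m := ∫ y, f y ∂(gam κ) with hm
  have e : (fun x : κ → ℝ => (f x - m) ^ 2) = fun x => (f x ^ 2 - (2 * m) * f x) + m ^ 2 := by
    funext x
    ring
  have h1 : Integrable (fun x => f x ^ 2) (gam κ) := (hf.pow 2).integrable
  have h2 : Integrable (fun x => (2 * m) * f x) (gam κ) := (hf.const_mul _).integrable
  have h12 : Integrable (fun x => f x ^ 2 - (2 * m) * f x) (gam κ) := h1.sub h2
  rw [e, integral_add h12 (integrable_const _), integral_sub h1 h2, integral_const_mul,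
    integral_const, ← hm, probReal_univ, one_smul]
  ring

omit [DecidableEq κ] in
theorem Even_odd {g : (κ → ℝ) → ℝ} (h : ∀ x, g (-x) = - g x) : ∫ x, g x ∂(gam κ) = 0 := by
  have h1 := integral_gam_neg g
  simp only [h] at h1
  rw [integral_neg] at h1
  linarith

theorem Even_der {f : (κ → ℝ) → ℝ} {D : κ → (κ → ℝ) → ℝ}
    (hD : ∀ i x, HasDerivAt (fun h : ℝ => f (x + h • Pi.single i 1)) (D i x) 0) (x : κ → ℝ) (s : ℝ)
    (i : κ) : HasDerivAt (fun h : ℝ => f (x + (s * h) • Pi.single i 1)) (D i x * s) 0 := by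
  have h1 : HasDerivAt (fun h : ℝ => s * h) s 0 := by
    simpa using (hasDerivAt_id (0 : ℝ)).const_mul s
  have h2 : HasDerivAt (fun h : ℝ => f (x + h • Pi.single i 1)) (D i x) (s * 0) := by
    rw [mul_zero]
    exact hD i x
  exact HasDerivAt.comp (0 : ℝ) h2 h1

/-- two independent copies: `E (f(x) - f(y))² = 2 Var f` -/
theorem var_eq_pair {f : (κ → ℝ) → ℝ} (hf : EG f) :
    ∫ p, (f p.1 - f p.2) ^ 2 ∂((gam κ).prod (gam κ)) =
      2 * ∫ x, (f x - ∫ y, f y ∂(gam κ)) ^ 2 ∂(gam κ) := by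
  have h := Even_int_comb hf (-1)
  have e : (fun p : (κ → ℝ) × (κ → ℝ) => (f p.1 + (-1) * f p.2) ^ 2) =
      fun p => (f p.1 - f p.2) ^ 2 := by
    funext p
    ring
  rw [e] at h
  rw [h, Even_var hf]
  ring

/-- variance and second moment -/
theorem var_eq_sq {f : (κ → ℝ) → ℝ} (hf : EG f) :
    ∫ x, (f x - ∫ y, f y ∂(gam κ)) ^ 2 ∂(gam κ) = ∫ x, f x ^ 2 ∂(gam κ) - (∫ y, f y ∂(gam κ)) ^ 2 :=
  Even_var hf

/-- coordinate derivatives of `b ↦ f((a+b)/√2) - f((a-b)/√2)` -/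
theorem hasDerivAt_pair_right {f : (κ → ℝ) → ℝ} {D : κ → (κ → ℝ) → ℝ}
    (hD : ∀ i x, HasDerivAt (fun h : ℝ => f (x + h • Pi.single i 1)) (D i x) 0) (a b : κ → ℝ) (i : κ) :
    HasDerivAt (fun h : ℝ => f ((Real.sqrt 2)⁻¹ • (a + (b + h • Pi.single i 1))) -
        f ((Real.sqrt 2)⁻¹ • (a - (b + h • Pi.single i 1))))
      ((D i ((Real.sqrt 2)⁻¹ • (a + b)) + D i ((Real.sqrt 2)⁻¹ • (a - b))) / Real.sqrt 2) 0 := by
  have h1 := Even_der hD ((Real.sqrt 2)⁻¹ • (a + b)) ((Real.sqrt 2)⁻¹) i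
  have h2 := Even_der hD ((Real.sqrt 2)⁻¹ • (a - b)) (-(Real.sqrt 2)⁻¹) i
  have e : (fun h : ℝ => f ((Real.sqrt 2)⁻¹ • (a + (b + h • Pi.single i 1))) -
        f ((Real.sqrt 2)⁻¹ • (a - (b + h • Pi.single i 1)))) =
      fun h : ℝ => f ((Real.sqrt 2)⁻¹ • (a + b) + ((Real.sqrt 2)⁻¹ * h) • Pi.single i 1) -
        f ((Real.sqrt 2)⁻¹ • (a - b) + (-(Real.sqrt 2)⁻¹ * h) • Pi.single i 1) := by
    funext h
    congr 2
    · module
    · module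
  rw [e]
  refine (h1.sub h2).congr_deriv ?_
  rw [div_eq_mul_inv]
  ring

/-- coordinate derivatives of `a ↦ f((a+b)/√2) - f((a-b)/√2)` -/
theorem hasDerivAt_pair_left {f : (κ → ℝ) → ℝ} {D : κ → (κ → ℝ) → ℝ}
    (hD : ∀ i x, HasDerivAt (fun h : ℝ => f (x + h • Pi.single i 1)) (D i x) 0) (a b : κ → ℝ) (i : κ) :
    HasDerivAt (fun h : ℝ => f ((Real.sqrt 2)⁻¹ • ((a + h • Pi.single i 1) + b)) -
        f ((Real.sqrt 2)⁻¹ • ((a + h • Pi.single i 1) - b)))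
      ((D i ((Real.sqrt 2)⁻¹ • (a + b)) - D i ((Real.sqrt 2)⁻¹ • (a - b))) / Real.sqrt 2) 0 := by
  have h1 := Even_der hD ((Real.sqrt 2)⁻¹ • (a + b)) ((Real.sqrt 2)⁻¹) i
  have h2 := Even_der hD ((Real.sqrt 2)⁻¹ • (a - b)) ((Real.sqrt 2)⁻¹) i
  have e : (fun h : ℝ => f ((Real.sqrt 2)⁻¹ • ((a + h • Pi.single i 1) + b)) -
        f ((Real.sqrt 2)⁻¹ • ((a + h • Pi.single i 1) - b))) =
      fun h : ℝ => f ((Real.sqrt 2)⁻¹ • (a + b) + ((Real.sqrt 2)⁻¹ * h) • Pi.single i 1) -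
        f ((Real.sqrt 2)⁻¹ • (a - b) + ((Real.sqrt 2)⁻¹ * h) • Pi.single i 1) := by
    funext h
    congr 2
    · module
    · module
  rw [e]
  refine (h1.sub h2).congr_deriv ?_
  rw [div_eq_mul_inv]
  ring

/-- `E Φ² = 2 Var f` -/
theorem Even_phi {f : (κ → ℝ) → ℝ} (hf : EG f) :
    ∫ p, (f ((Real.sqrt 2)⁻¹ • (p.1 + p.2)) - f ((Real.sqrt 2)⁻¹ • (p.1 - p.2))) ^ 2
      ∂((gam κ).prod (gam κ)) = 2 * ∫ x, (f x - ∫ y, f y ∂(gam κ)) ^ 2 ∂(gam κ) := by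
  rw [← var_eq_pair hf]
  exact integral_rotate_half (fun p : (κ → ℝ) × (κ → ℝ) => (f p.1 - f p.2) ^ 2)

theorem Even_sqrt2_sq : (Real.sqrt 2) ^ 2 = 2 := Real.sq_sqrt (by norm_num)

/-- the rotated sum of squares of `D_i x + ε D_i y` -/
theorem Even_rot_sum {D : κ → (κ → ℝ) → ℝ} (hDe : ∀ i, EG (D i)) (ε : ℝ) (hε : ε ^ 2 = 1) :
    ∫ p, ∑ i, ((D i ((Real.sqrt 2)⁻¹ • (p.1 + p.2)) +
        ε * D i ((Real.sqrt 2)⁻¹ • (p.1 - p.2))) / Real.sqrt 2) ^ 2 ∂((gam κ).prod (gam κ)) =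
      (∫ x, ∑ i, D i x ^ 2 ∂(gam κ)) + ε * ∑ i, (∫ x, D i x ∂(gam κ)) ^ 2 := by
  have h1 := integral_rotate_half (fun p : (κ → ℝ) × (κ → ℝ) =>
    ∑ i, ((D i p.1 + ε * D i p.2) / Real.sqrt 2) ^ 2)
  simp only at h1
  rw [h1, integral_finsetSum _ fun i _ => Even_PG_integrable
    (Even_PG_sq (Even_PG_div (Even_PG_add (Even_PG_fst (hDe i))
      (Even_PG_const_mul (Even_PG_snd (hDe i)) ε)) (Real.sqrt 2))),
    integral_finsetSum _ fun i _ => ((hDe i).pow 2).integrable, Finset.mul_sum,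
    ← Finset.sum_add_distrib]
  refine Finset.sum_congr rfl fun i _ => ?_
  have h2 := Even_int_comb (hDe i) ε
  have e : (fun p : (κ → ℝ) × (κ → ℝ) => ((D i p.1 + ε * D i p.2) / Real.sqrt 2) ^ 2) =
      fun p => (1 / 2) * (D i p.1 + ε * D i p.2) ^ 2 := by
    funext p
    rw [div_pow, Even_sqrt2_sq]
    ring
  rw [e, integral_const_mul, h2, hε]
  ring

/-- A4 (improved Poincaré). `2 Var h = E Φ²` with `Φ(a,b) = h((a+b)/√2) - h((a-b)/√2)`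
(`var_eq_pair`, `integral_rotate_half`); for fixed `a`, `Φ` is odd in `b`, so its mean over `b` is `0`
(`integral_gam_neg`) and `var_le` in `b` with `hasDerivAt_pair_right` gives
`E_b Φ² ≤ E_b Σ ((D_i x + D_i y)/√2)²`; integrate over `a` and rotate back:
`E Φ² ≤ (1/2) E Σ (D_i x + D_i y)² = E Σ D_i² + Σ (E D_i)²`; finally
`E (D_i - E D_i)² = E D_i² - (E D_i)²` (`var_eq_sq`). -/
theorem var_le_improved {f : (κ → ℝ) → ℝ} {D : κ → (κ → ℝ) → ℝ} (hf : EG f)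
    (hD : ∀ i x, HasDerivAt (fun h : ℝ => f (x + h • Pi.single i 1)) (D i x) 0)
    (hDe : ∀ i, EG (D i)) :
    ∫ x, (f x - ∫ y, f y ∂(gam κ)) ^ 2 ∂(gam κ) ≤ (∫ x, ∑ i, D i x ^ 2 ∂(gam κ)) -
      (1 / 2) * ∫ x, ∑ i, (D i x - ∫ y, D i y ∂(gam κ)) ^ 2 ∂(gam κ) := by
  have hΦ : Even_PG (fun p : (κ → ℝ) × (κ → ℝ) =>
      f ((Real.sqrt 2)⁻¹ • (p.1 + p.2)) - f ((Real.sqrt 2)⁻¹ • (p.1 - p.2))) :=
    Even_PG_sub (Even_PG_add_arg hf) (Even_PG_sub_arg hf)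
  have hG : ∀ i, Even_PG (fun p : (κ → ℝ) × (κ → ℝ) =>
      (D i ((Real.sqrt 2)⁻¹ • (p.1 + p.2)) + D i ((Real.sqrt 2)⁻¹ • (p.1 - p.2))) / Real.sqrt 2) :=
    fun i => Even_PG_div (Even_PG_add (Even_PG_add_arg (hDe i)) (Even_PG_sub_arg (hDe i))) _
  have hGs := Even_PG_sum Finset.univ fun i => Even_PG_sq (hG i)
  -- the inequality for a fixed first coordinate
  have key : ∀ a : κ → ℝ, ∫ b, (f ((Real.sqrt 2)⁻¹ • (a + b)) - f ((Real.sqrt 2)⁻¹ • (a - b))) ^ 2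
      ∂(gam κ) ≤ ∫ b, ∑ i, ((D i ((Real.sqrt 2)⁻¹ • (a + b)) +
        D i ((Real.sqrt 2)⁻¹ • (a - b))) / Real.sqrt 2) ^ 2 ∂(gam κ) := by
    intro a
    have h0 : ∫ b, (f ((Real.sqrt 2)⁻¹ • (a + b)) - f ((Real.sqrt 2)⁻¹ • (a - b))) ∂(gam κ) = 0 := by
      refine Even_odd fun b => ?_
      rw [sub_neg_eq_add, ← sub_eq_add_neg]
      ring
    have h1 := var_le (f := fun b => f ((Real.sqrt 2)⁻¹ • (a + b)) - f ((Real.sqrt 2)⁻¹ • (a - b)))
      (D := fun i b => (D i ((Real.sqrt 2)⁻¹ • (a + b)) +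
        D i ((Real.sqrt 2)⁻¹ • (a - b))) / Real.sqrt 2)
      (Even_PG_right hΦ a) (fun i b => hasDerivAt_pair_right hD a b i)
      (fun i => Even_PG_right (hG i) a)
    simp only [h0, sub_zero] at h1
    exact h1
  have hint1 := (Even_PG_integrable (Even_PG_sq hΦ)).integral_prod_left
  have hint2 := (Even_PG_integrable hGs).integral_prod_left
  have h2 : ∫ p, (f ((Real.sqrt 2)⁻¹ • (p.1 + p.2)) - f ((Real.sqrt 2)⁻¹ • (p.1 - p.2))) ^ 2
      ∂((gam κ).prod (gam κ)) ≤ ∫ p, ∑ i, ((D i ((Real.sqrt 2)⁻¹ • (p.1 + p.2)) +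
        D i ((Real.sqrt 2)⁻¹ • (p.1 - p.2))) / Real.sqrt 2) ^ 2 ∂((gam κ).prod (gam κ)) := by
    rw [integral_prod _ (Even_PG_integrable (Even_PG_sq hΦ)), integral_prod _ (Even_PG_integrable hGs)]
    exact integral_mono hint1 hint2 key
  have h3 := Even_rot_sum hDe 1 (by norm_num)
  simp only [one_mul] at h3
  rw [Even_phi hf, h3] at h2
  have h4 : ∫ x, ∑ i, (D i x - ∫ y, D i y ∂(gam κ)) ^ 2 ∂(gam κ) =
      (∫ x, ∑ i, D i x ^ 2 ∂(gam κ)) - ∑ i, (∫ x, D i x ∂(gam κ)) ^ 2 := by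
    rw [integral_finsetSum _ fun i _ => (((hDe i).sub (EG.const _)).pow 2).integrable,
      integral_finsetSum _ fun i _ => ((hDe i).pow 2).integrable, ← Finset.sum_sub_distrib]
    exact Finset.sum_congr rfl fun i _ => Even_var (hDe i)
  rw [h4]
  linarith

/-- A5 in the form used in `IfA`, with growth classes instead of bounds. For `f` even the function
`Φ(a,b)` is odd in `a` as well, so `var_le_improved` in `a` (with `hasDerivAt_pair_left`) gives for fixed `b`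
`E_a Φ² ≤ E_a Σ G_i² - (1/2) E_a Σ (G_i - E_a G_i)²`, `G_i = (D_i x - D_i y)/√2`.
Integrate over `b`, rotate back: `E Σ G_i² = (1/2) E Σ (D_i x - D_i y)² = E Σ D_i² - Σ (E D_i)² ≤ E Σ D_i²`.
`Var f = (1/2) E Φ²`. -/
theorem var_even {f : (κ → ℝ) → ℝ} {D : κ → (κ → ℝ) → ℝ} (hf : EG f) (hev : ∀ x, f (-x) = f x)
    (hD : ∀ i x, HasDerivAt (fun h : ℝ => f (x + h • Pi.single i 1)) (D i x) 0)
    (hDe : ∀ i, EG (D i)) :
    ∫ x, (f x - ∫ y, f y ∂(gam κ)) ^ 2 ∂(gam κ) ≤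
      (1 / 2) * (∫ x, ∑ i, D i x ^ 2 ∂(gam κ)) -
      (1 / 4) * (∫ b, ∫ a, ∑ i,
        ((D i ((Real.sqrt 2)⁻¹ • (a + b)) - D i ((Real.sqrt 2)⁻¹ • (a - b))) / Real.sqrt 2 -
          ∫ a', (D i ((Real.sqrt 2)⁻¹ • (a' + b)) - D i ((Real.sqrt 2)⁻¹ • (a' - b))) / Real.sqrt 2
            ∂(gam κ)) ^ 2 ∂(gam κ) ∂(gam κ)) := by
  have hΦ : Even_PG (fun p : (κ → ℝ) × (κ → ℝ) =>
      f ((Real.sqrt 2)⁻¹ • (p.1 + p.2)) - f ((Real.sqrt 2)⁻¹ • (p.1 - p.2))) :=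
    Even_PG_sub (Even_PG_add_arg hf) (Even_PG_sub_arg hf)
  have hG : ∀ i, Even_PG (fun p : (κ → ℝ) × (κ → ℝ) =>
      (D i ((Real.sqrt 2)⁻¹ • (p.1 + p.2)) - D i ((Real.sqrt 2)⁻¹ • (p.1 - p.2))) / Real.sqrt 2) :=
    fun i => Even_PG_div (Even_PG_sub (Even_PG_add_arg (hDe i)) (Even_PG_sub_arg (hDe i))) _
  have hGs := Even_PG_sum Finset.univ fun i => Even_PG_sq (hG i)
  -- the inequality for a fixed second coordinate
  have key : ∀ b : κ → ℝ, ∫ a, (f ((Real.sqrt 2)⁻¹ • (a + b)) - f ((Real.sqrt 2)⁻¹ • (a - b))) ^ 2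
      ∂(gam κ) ≤ (∫ a, ∑ i, ((D i ((Real.sqrt 2)⁻¹ • (a + b)) -
        D i ((Real.sqrt 2)⁻¹ • (a - b))) / Real.sqrt 2) ^ 2 ∂(gam κ)) -
      (1 / 2) * ∫ a, ∑ i, ((D i ((Real.sqrt 2)⁻¹ • (a + b)) -
        D i ((Real.sqrt 2)⁻¹ • (a - b))) / Real.sqrt 2 -
          ∫ a', (D i ((Real.sqrt 2)⁻¹ • (a' + b)) - D i ((Real.sqrt 2)⁻¹ • (a' - b))) / Real.sqrt 2
            ∂(gam κ)) ^ 2 ∂(gam κ) := by
    intro b
    have h0 : ∫ a, (f ((Real.sqrt 2)⁻¹ • (a + b)) - f ((Real.sqrt 2)⁻¹ • (a - b))) ∂(gam κ) = 0 := by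
      refine Even_odd fun a => ?_
      have e1 : (Real.sqrt 2)⁻¹ • (-a + b) = -((Real.sqrt 2)⁻¹ • (a - b)) := by module
      have e2 : (Real.sqrt 2)⁻¹ • (-a - b) = -((Real.sqrt 2)⁻¹ • (a + b)) := by module
      rw [e1, e2, hev, hev]
      ring
    have h1 := var_le_improved
      (f := fun a => f ((Real.sqrt 2)⁻¹ • (a + b)) - f ((Real.sqrt 2)⁻¹ • (a - b)))
      (D := fun i a => (D i ((Real.sqrt 2)⁻¹ • (a + b)) -
        D i ((Real.sqrt 2)⁻¹ • (a - b))) / Real.sqrt 2)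
      (Even_PG_left hΦ b) (fun i a => hasDerivAt_pair_left hD a b i)
      (fun i => Even_PG_left (hG i) b)
    simp only [h0, sub_zero] at h1
    exact h1
  have hint1 := (Even_PG_integrable (Even_PG_sq hΦ)).integral_prod_right
  have hint2 := (Even_PG_integrable hGs).integral_prod_right
  -- the subtracted term
  have hsub : ∀ b : κ → ℝ, ∫ a, ∑ i, ((D i ((Real.sqrt 2)⁻¹ • (a + b)) -
        D i ((Real.sqrt 2)⁻¹ • (a - b))) / Real.sqrt 2 -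
          ∫ a', (D i ((Real.sqrt 2)⁻¹ • (a' + b)) - D i ((Real.sqrt 2)⁻¹ • (a' - b))) / Real.sqrt 2
            ∂(gam κ)) ^ 2 ∂(gam κ) =
      (∫ a, ∑ i, ((D i ((Real.sqrt 2)⁻¹ • (a + b)) -
        D i ((Real.sqrt 2)⁻¹ • (a - b))) / Real.sqrt 2) ^ 2 ∂(gam κ)) -
      ∑ i, (∫ a', (D i ((Real.sqrt 2)⁻¹ • (a' + b)) -
        D i ((Real.sqrt 2)⁻¹ • (a' - b))) / Real.sqrt 2 ∂(gam κ)) ^ 2 := by
    intro b
    have hE : ∀ i, EG (fun a : κ → ℝ => (D i ((Real.sqrt 2)⁻¹ • (a + b)) -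
        D i ((Real.sqrt 2)⁻¹ • (a - b))) / Real.sqrt 2) := fun i => Even_PG_left (hG i) b
    rw [integral_finsetSum _ fun i _ => (((hE i).sub (EG.const _)).pow 2).integrable,
      integral_finsetSum _ fun i _ => ((hE i).pow 2).integrable, ← Finset.sum_sub_distrib]
    exact Finset.sum_congr rfl fun i _ => Even_var (hE i)
  have hint3 : Integrable (fun b : κ → ℝ => ∫ a, ∑ i, ((D i ((Real.sqrt 2)⁻¹ • (a + b)) -
        D i ((Real.sqrt 2)⁻¹ • (a - b))) / Real.sqrt 2 -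
          ∫ a', (D i ((Real.sqrt 2)⁻¹ • (a' + b)) - D i ((Real.sqrt 2)⁻¹ • (a' - b))) / Real.sqrt 2
            ∂(gam κ)) ^ 2 ∂(gam κ)) (gam κ) := by
    refine hint2.mono ?_ ?_
    · rw [funext hsub]
      refine hint2.aestronglyMeasurable.sub ?_
      have hm : ∀ i, AEStronglyMeasurable (fun b : κ → ℝ => ∫ a', (D i ((Real.sqrt 2)⁻¹ • (a' + b)) -
          D i ((Real.sqrt 2)⁻¹ • (a' - b))) / Real.sqrt 2 ∂(gam κ)) (gam κ) := fun i =>
        (Even_PG_integrable (hG i)).integral_prod_right.aestronglyMeasurable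
      refine Finset.aestronglyMeasurable_fun_sum _ fun i _ => (hm i).pow 2
    · refine Filter.Eventually.of_forall fun b => ?_
      have n1' : 0 ≤ ∫ a, ∑ i, ((D i ((Real.sqrt 2)⁻¹ • (a + b)) -
          D i ((Real.sqrt 2)⁻¹ • (a - b))) / Real.sqrt 2 -
          ∫ a', (D i ((Real.sqrt 2)⁻¹ • (a' + b)) - D i ((Real.sqrt 2)⁻¹ • (a' - b))) / Real.sqrt 2
            ∂(gam κ)) ^ 2 ∂(gam κ) :=
        integral_nonneg fun a => Finset.sum_nonneg fun i _ => sq_nonneg _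
      have n2' : 0 ≤ ∑ i, (∫ a', (D i ((Real.sqrt 2)⁻¹ • (a' + b)) -
        D i ((Real.sqrt 2)⁻¹ • (a' - b))) / Real.sqrt 2 ∂(gam κ)) ^ 2 :=
        Finset.sum_nonneg fun i _ => sq_nonneg _
      have n3' := hsub b
      rw [Real.norm_of_nonneg n1', Real.norm_of_nonneg (by linarith)]
      linarith
  have h2 : ∫ p, (f ((Real.sqrt 2)⁻¹ • (p.1 + p.2)) - f ((Real.sqrt 2)⁻¹ • (p.1 - p.2))) ^ 2
      ∂((gam κ).prod (gam κ)) ≤ (∫ p, ∑ i, ((D i ((Real.sqrt 2)⁻¹ • (p.1 + p.2)) -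
        D i ((Real.sqrt 2)⁻¹ • (p.1 - p.2))) / Real.sqrt 2) ^ 2 ∂((gam κ).prod (gam κ))) -
      (1 / 2) * ∫ b, ∫ a, ∑ i, ((D i ((Real.sqrt 2)⁻¹ • (a + b)) -
        D i ((Real.sqrt 2)⁻¹ • (a - b))) / Real.sqrt 2 -
          ∫ a', (D i ((Real.sqrt 2)⁻¹ • (a' + b)) - D i ((Real.sqrt 2)⁻¹ • (a' - b))) / Real.sqrt 2
            ∂(gam κ)) ^ 2 ∂(gam κ) ∂(gam κ) := by
    rw [integral_prod_symm _ (Even_PG_integrable (Even_PG_sq hΦ)),
      integral_prod_symm _ (Even_PG_integrable hGs), ← integral_const_mul,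
      ← integral_sub hint2 (hint3.const_mul _)]
    exact integral_mono hint1 (hint2.sub (hint3.const_mul _)) key
  have h3 := Even_rot_sum hDe (-1) (by norm_num)
  have e3 : (fun p : (κ → ℝ) × (κ → ℝ) => ∑ i, ((D i ((Real.sqrt 2)⁻¹ • (p.1 + p.2)) +
      (-1) * D i ((Real.sqrt 2)⁻¹ • (p.1 - p.2))) / Real.sqrt 2) ^ 2) =
      fun p => ∑ i, ((D i ((Real.sqrt 2)⁻¹ • (p.1 + p.2)) -
      D i ((Real.sqrt 2)⁻¹ • (p.1 - p.2))) / Real.sqrt 2) ^ 2 := by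
    funext p
    refine Finset.sum_congr rfl fun i _ => ?_
    ring
  rw [e3] at h3
  rw [Even_phi hf, h3] at h2
  have h5 : 0 ≤ ∑ i, (∫ x, D i x ∂(gam κ)) ^ 2 := Finset.sum_nonneg fun i _ => sq_nonneg _
  linarith

end

end SKC.A
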