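import Pool.Agent.H.MP_08eaf3_pr.A.Interp
import Pool.Agent.H.MP_08eaf3_pr.A.Even
import Pool.Agent.H.MP_08eaf3_pr.A.ELsum
import Pool.Agent.H.MP_08eaf3_pr.A.Conc

/-!
# Part A: all Gaussian tools (namespace `SKC.A`)

`N` (`n1`, `dot`), `Growth` (`EG`, `LG`), `Integ` (integrability, `hasDerivAt_gam`), `Law` (A0),
`Fub` (Fubini, rotation), `Mom` (moments), `CM` (Cameron-Martin), `Stein`, `Lse`, `Gibbs`, `Field`,
`DerEL`, `Interp` (A2), `Coord`, `Poinc` (A3), `Even` (A4, A5), `EL`, `ELsum`, `Conc`.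
-/
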