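import Pool.Agent.H.MP_08eaf3_pr.A.Mom

set_option autoImplicit false

open MeasureTheory ProbabilityTheory Filter Topology Matrix

/-!
# Part A: Cameron-Martin formula
-/

namespace SKC.A

section

variable {κ : Type} [Fintype κ]

/-- one dimensional translation -/
theorem cm_one (s : ℝ) (S : Set ℝ) (hS : MeasurableSet S) :
    gaussianReal s 1 S =
      ENNReal.ofReal (∫ x, S.indicator (fun x => Real.exp (s * x - s ^ 2 / 2)) x ∂(gaussianReal 0 1)) := by
  rw [gaussianReal_apply_eq_integral s one_ne_zero S,
    integral_gaussianReal_eq_integral_smul one_ne_zero, ← integral_indicator hS]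
  congr 1
  apply integral_congr_ae
  filter_upwards with x
  by_cases hx : x ∈ S
  · rw [Set.indicator_of_mem hx, Set.indicator_of_mem hx, gaussianPDFReal_def, gaussianPDFReal_def,
      smul_eq_mul]
    simp only []
    rw [mul_assoc (Real.sqrt _)⁻¹ (Real.exp _) (Real.exp _), ← Real.exp_add]
    congr 2
    simp
    ring
  · rw [Set.indicator_of_notMem hx, Set.indicator_of_notMem hx, smul_zero]

theorem cm_integrable_one (s : ℝ) (S : Set ℝ) (hS : MeasurableSet S) :
    Integrable (fun x => S.indicator (fun x => Real.exp (s * x - s ^ 2 / 2)) x) (gaussianReal 0 1) := by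
  apply Integrable.indicator _ hS
  have h := (integrable_exp_mul_gaussianReal (μ := 0) (v := 1) s).mul_const (Real.exp (-(s ^ 2 / 2)))
  refine h.congr ?_
  filter_upwards with x
  rw [← Real.exp_add]
  ring_nf

theorem exp_dot_prod (s x : κ → ℝ) :
    Real.exp (dot s x - dot s s / 2) = ∏ i, Real.exp (s i * x i - s i ^ 2 / 2) := by
  rw [← Real.exp_sum]
  congr 1
  unfold dot
  rw [Finset.sum_sub_distrib, ← Finset.sum_div]
  congr 2
  apply Finset.sum_congr rfl
  intro i _
  ring

theorem gam_map_add (s : κ → ℝ) :
    (gam κ).map (fun x => x + s) =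
      (gam κ).withDensity (fun x => ENNReal.ofReal (Real.exp (dot s x - dot s s / 2))) := by
  classical
  have hL : (gam κ).map (fun x => x + s) = Measure.pi (fun i => gaussianReal (s i) 1) := by
    unfold gam
    have h0 := Measure.pi_map_pi (μ := fun _ : κ => gaussianReal 0 1)
      (f := fun (i : κ) (y : ℝ) => y + s i)
      (hμ := fun i => by rw [gaussianReal_map_add_const]; infer_instance) (fun i => by fun_prop)
    have h1 : (fun x : κ → ℝ => x + s) = (fun x i => x i + s i) := rfl
    rw [h1, h0]
    congr 1
    ext1 i
    rw [gaussianReal_map_add_const, zero_add]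
  rw [hL]
  apply Measure.pi_eq
  intro S hS
  have hmS : MeasurableSet (Set.univ.pi S) := MeasurableSet.univ_pi hS
  rw [withDensity_apply _ hmS, ← lintegral_indicator hmS]
  have h1 : ∀ x : κ → ℝ, (Set.univ.pi S).indicator
      (fun x => ENNReal.ofReal (Real.exp (dot s x - dot s s / 2))) x =
      ENNReal.ofReal (∏ i, (S i).indicator (fun x => Real.exp (s i * x - s i ^ 2 / 2)) (x i)) := by
    intro x
    by_cases hx : x ∈ Set.univ.pi S
    · rw [Set.indicator_of_mem hx, exp_dot_prod]
      congr 1
      apply Finset.prod_congr rfl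
      intro i _
      rw [Set.indicator_of_mem (hx i (Set.mem_univ i))]
    · rw [Set.indicator_of_notMem hx]
      simp only [Set.mem_pi, Set.mem_univ, forall_true_left, not_forall] at hx
      obtain ⟨i, hi⟩ := hx
      rw [Finset.prod_eq_zero (Finset.mem_univ i), ENNReal.ofReal_zero]
      rw [Set.indicator_of_notMem hi]
  simp_rw [h1]
  rw [← ofReal_integral_eq_lintegral_ofReal]
  · unfold gam
    rw [integral_fintype_prod_eq_prod
      (f := fun i x => (S i).indicator (fun x => Real.exp (s i * x - s i ^ 2 / 2)) x)]
    rw [ENNReal.ofReal_prod_of_nonneg]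
    · apply Finset.prod_congr rfl
      intro i _
      rw [cm_one (s i) (S i) (hS i)]
    · intro i _
      apply integral_nonneg
      intro x
      apply Set.indicator_nonneg
      intro y _
      positivity
  · unfold gam
    exact Integrable.fintype_prod
      (f := fun i x => (S i).indicator (fun x => Real.exp (s i * x - s i ^ 2 / 2)) x)
      (fun i => cm_integrable_one (s i) (S i) (hS i))
  · filter_upwards with x
    apply Finset.prod_nonneg
    intro i _
    apply Set.indicator_nonneg
    intro y _
    positivity

theorem cm (h : (κ → ℝ) → ℝ) (s : κ → ℝ) :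
    ∫ x, h (x + s) ∂(gam κ) = ∫ x, h x * Real.exp (dot s x - dot s s / 2) ∂(gam κ) := by
  have hme : MeasurableEmbedding (fun x : κ → ℝ => x + s) :=
    (Homeomorph.addRight s).toMeasurableEquiv.measurableEmbedding
  rw [← hme.integral_map (μ := gam κ) (g := h)]
  rw [gam_map_add, integral_withDensity_eq_integral_toReal_smul]
  · apply integral_congr_ae
    filter_upwards with x
    rw [ENNReal.toReal_ofReal (Real.exp_nonneg _), smul_eq_mul, mul_comm]
  · apply Measurable.ennreal_ofReal
    apply Real.measurable_exp.comp
    have : Continuous (fun x : κ → ℝ => dot s x - dot s s / 2) := by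
      unfold dot
      fun_prop
    exact this.measurable
  · filter_upwards with x
    exact ENNReal.ofReal_lt_top

end

end SKC.A
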