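import Pool.Agent.H.MP_08eaf3_pr.A.Integ

/-!
# Part A: functions with continuous derivatives in the coordinate directions
-/

set_option autoImplicit false

open MeasureTheory ProbabilityTheory Filter Topology Matrix

namespace SKC.A

section

variable {κ : Type} [Fintype κ] [DecidableEq κ]

/-- the point with the coordinates of `y` on `S` and the coordinates of `x` off `S` -/
def Coord_pt (S : Finset κ) (x y : κ → ℝ) : κ → ℝ := fun c => if c ∈ S then y c else x c

omit [Fintype κ] in
theorem Coord_pt_insert {j : κ} {S : Finset κ} (hj : j ∉ S) (x y : κ → ℝ) :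
    Coord_pt (insert j S) x y = Coord_pt S x y + (y j - x j) • Pi.single j 1 := by
  funext c
  simp only [Coord_pt, Finset.mem_insert, Pi.add_apply, Pi.smul_apply, smul_eq_mul]
  by_cases h : c = j
  · subst h
    rw [if_pos (Or.inl rfl), if_neg hj, Pi.single_eq_same]
    ring
  · rw [Pi.single_eq_of_ne h, mul_zero, add_zero]
    by_cases h' : c ∈ S
    · rw [if_pos (Or.inr h'), if_pos h']
    · rw [if_neg (fun h'' => h''.elim h h'), if_neg h']

theorem Coord_pt_norm {j : κ} {S : Finset κ} (hj : j ∉ S) (x y : κ → ℝ) {h : ℝ}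
    (hh : |h| ≤ |y j - x j|) :
    ‖Coord_pt S x y + h • Pi.single j 1 - x‖ ≤ ‖y - x‖ := by
  rw [pi_norm_le_iff_of_nonneg (norm_nonneg _)]
  intro c
  have hc : ‖(y - x) c‖ ≤ ‖y - x‖ := norm_le_pi_norm (y - x) c
  rw [Pi.sub_apply] at hc
  simp only [Coord_pt, Pi.add_apply, Pi.sub_apply, Pi.smul_apply, smul_eq_mul]
  by_cases h1 : c = j
  · subst h1
    rw [if_neg hj, Pi.single_eq_same, mul_one, add_sub_cancel_left, Real.norm_eq_abs]
    exact hh.trans hc
  · rw [Pi.single_eq_of_ne h1, mul_zero, add_zero]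
    by_cases h' : c ∈ S
    · rw [if_pos h']
      exact hc
    · rw [if_neg h', sub_self, norm_zero]
      exact norm_nonneg _

omit [Fintype κ] in
/-- derivative in a coordinate direction at a shifted point -/
theorem Coord_shift {f : (κ → ℝ) → ℝ} {D : κ → (κ → ℝ) → ℝ}
    (hD : ∀ i x, HasDerivAt (fun h : ℝ => f (x + h • Pi.single i 1)) (D i x) 0) (j : κ)
    (p : κ → ℝ) (h : ℝ) :
    HasDerivAt (fun h : ℝ => f (p + h • Pi.single j 1)) (D j (p + h • Pi.single j 1)) h := by
  have h0 := hD j (p + h • Pi.single j 1)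
  have h2 : HasDerivAt (fun h' : ℝ => f (p + h • Pi.single j 1 + h' • Pi.single j 1))
      (D j (p + h • Pi.single j 1)) (h - h) := by
    rw [sub_self]
    exact h0
  have h3 := HasDerivAt.comp_sub_const h h h2
  refine h3.congr_of_eventuallyEq (Filter.Eventually.of_forall fun t => ?_)
  dsimp only
  rw [add_assoc, ← add_smul, add_sub_cancel]

theorem Coord_main {f : (κ → ℝ) → ℝ} {D : κ → (κ → ℝ) → ℝ}
    (hD : ∀ i x, HasDerivAt (fun h : ℝ => f (x + h • Pi.single i 1)) (D i x) 0)
    {x : κ → ℝ} {ε δ : ℝ} (hε : ∀ i z, ‖z - x‖ < δ → |D i z - D i x| ≤ ε) {y : κ → ℝ}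
    (hy : ‖y - x‖ < δ) (hε0 : 0 ≤ ε) (S : Finset κ) :
    |f (Coord_pt S x y) - f x - ∑ i ∈ S, D i x * (y i - x i)| ≤ (S.card : ℝ) * ε * ‖y - x‖ := by
  induction S using Finset.induction_on with
  | empty =>
    have : Coord_pt (∅ : Finset κ) x y = x := by
      funext c
      simp [Coord_pt]
    rw [this]
    simp
  | insert j S hj ih =>
    have hstep : |f (Coord_pt (insert j S) x y) - f (Coord_pt S x y) - D j x * (y j - x j)| ≤
        ε * ‖y - x‖ := by
      have hd : ∀ h ∈ Set.uIcc (0 : ℝ) (y j - x j), HasDerivWithinAt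
          (fun h : ℝ => f (Coord_pt S x y + h • Pi.single j 1) - D j x * h)
          (D j (Coord_pt S x y + h • Pi.single j 1) - D j x) (Set.uIcc (0 : ℝ) (y j - x j)) h := by
        intro h _
        have h1 := Coord_shift hD j (Coord_pt S x y) h
        have h2 : HasDerivAt (fun h : ℝ => D j x * h) (D j x) h := by
          have := (hasDerivAt_id h).const_mul (D j x)
          rw [mul_one] at this
          exact this
        exact (h1.sub h2).hasDerivWithinAt
      have hb : ∀ h ∈ Set.uIcc (0 : ℝ) (y j - x j),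
          ‖D j (Coord_pt S x y + h • Pi.single j 1) - D j x‖ ≤ ε := by
        intro h hh
        rw [Real.norm_eq_abs]
        refine hε j _ (lt_of_le_of_lt (Coord_pt_norm hj x y ?_) hy)
        have := Set.abs_sub_left_of_mem_uIcc hh
        simpa using this
      have hm := Convex.norm_image_sub_le_of_norm_hasDerivWithin_le hd hb (convex_uIcc _ _)
        Set.left_mem_uIcc Set.right_mem_uIcc
      have hc : ‖(y - x) j‖ ≤ ‖y - x‖ := norm_le_pi_norm (y - x) j
      rw [Pi.sub_apply] at hc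
      simp only [zero_smul, add_zero, mul_zero, sub_zero] at hm
      rw [← Coord_pt_insert hj x y] at hm
      rw [Real.norm_eq_abs] at hm
      have he : f (Coord_pt (insert j S) x y) - f (Coord_pt S x y) - D j x * (y j - x j) =
          f (Coord_pt (insert j S) x y) - D j x * (y j - x j) - f (Coord_pt S x y) := by ring
      rw [he]
      exact hm.trans (mul_le_mul_of_nonneg_left hc hε0)
    rw [Finset.sum_insert hj, Finset.card_insert_of_notMem hj]
    have he : f (Coord_pt (insert j S) x y) - f x -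
        (D j x * (y j - x j) + ∑ i ∈ S, D i x * (y i - x i)) =
        (f (Coord_pt (insert j S) x y) - f (Coord_pt S x y) - D j x * (y j - x j)) +
        (f (Coord_pt S x y) - f x - ∑ i ∈ S, D i x * (y i - x i)) := by ring
    rw [he]
    refine (abs_add_le _ _).trans ?_
    push_cast
    nlinarith [hstep, ih]

/-- A function with continuous first derivatives in the coordinate directions is differentiable along
every differentiable curve. Proof: first Fréchet differentiability at `x`: for a finite set `S` of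
coordinates, `h ↦ f (x + h_S)` has derivative `h ↦ Σ_{i ∈ S} D i x * h i` at `0`
(`Finset.induction_on`, mean value theorem in the new coordinate and continuity of `D j`);
then the chain rule `HasFDerivAt.comp_hasDerivAt`. -/
theorem hasFDerivAt_of_coord {f : (κ → ℝ) → ℝ} {D : κ → (κ → ℝ) → ℝ}
    (hD : ∀ i x, HasDerivAt (fun h : ℝ => f (x + h • Pi.single i 1)) (D i x) 0)
    (hDc : ∀ i, Continuous (D i)) (x : κ → ℝ) :
    HasFDerivAt f (∑ i, D i x • (ContinuousLinearMap.proj i : (κ → ℝ) →L[ℝ] ℝ)) x := by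
  refine HasFDerivAt.of_isLittleO (Asymptotics.isLittleO_iff.mpr fun c hc => ?_)
  have hn : (0 : ℝ) < (Fintype.card κ : ℝ) + 1 := by positivity
  have hε : 0 < c / ((Fintype.card κ : ℝ) + 1) := div_pos hc hn
  have hev : ∀ᶠ z in 𝓝 x, ∀ i, |D i z - D i x| ≤ c / ((Fintype.card κ : ℝ) + 1) := by
    rw [Filter.eventually_all]
    intro i
    have := Metric.tendsto_nhds.mp ((hDc i).tendsto x) _ hε
    filter_upwards [this] with z hz
    rw [Real.dist_eq] at hz
    exact hz.le
  obtain ⟨δ, hδ, hball⟩ := Metric.eventually_nhds_iff.mp hev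
  rw [Metric.eventually_nhds_iff]
  refine ⟨δ, hδ, fun y hy => ?_⟩
  rw [dist_eq_norm] at hy
  have hm := Coord_main (x := x) hD (fun i z hz => hball (by rw [dist_eq_norm]; exact hz) i) hy
    hε.le Finset.univ
  have h1 : Coord_pt Finset.univ x y = y := by
    funext c
    simp [Coord_pt]
  rw [h1] at hm
  have h2 : (∑ i, D i x • (ContinuousLinearMap.proj i : (κ → ℝ) →L[ℝ] ℝ)) (y - x) =
      ∑ i, D i x * (y i - x i) := by
    rw [_root_.sum_apply]
    refine Finset.sum_congr rfl fun i _ => ?_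
    rw [_root_.smul_apply, ContinuousLinearMap.proj_apply, Pi.sub_apply, smul_eq_mul]
  rw [h2, Real.norm_eq_abs]
  refine hm.trans ?_
  rw [Finset.card_univ]
  refine mul_le_mul_of_nonneg_right ?_ (norm_nonneg _)
  rw [mul_div_assoc', div_le_iff₀ hn]
  nlinarith [hc]

theorem hasDerivAt_curve {f : (κ → ℝ) → ℝ} {D : κ → (κ → ℝ) → ℝ}
    (hD : ∀ i x, HasDerivAt (fun h : ℝ => f (x + h • Pi.single i 1)) (D i x) 0)
    (hDc : ∀ i, Continuous (D i)) {c : ℝ → κ → ℝ} {c' : κ → ℝ} {t : ℝ}
    (hc : ∀ i, HasDerivAt (fun t => c t i) (c' i) t) :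
    HasDerivAt (fun t => f (c t)) (∑ i, D i (c t) * c' i) t := by
  have h1 := (hasFDerivAt_of_coord hD hDc (c t)).comp_hasDerivAt t (hasDerivAt_pi.mpr hc)
  have h2 : (∑ i, D i (c t) • (ContinuousLinearMap.proj i : (κ → ℝ) →L[ℝ] ℝ)) c' =
      ∑ i, D i (c t) * c' i := by
    rw [_root_.sum_apply]
    refine Finset.sum_congr rfl fun i _ => ?_
    rw [_root_.smul_apply, ContinuousLinearMap.proj_apply, smul_eq_mul]
  rw [h2] at h1
  exact h1

/-- Lipschitz bound from bounded coordinate derivatives (first form) -/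
theorem Coord_lip {f : (κ → ℝ) → ℝ} {D : κ → (κ → ℝ) → ℝ} {L : ℝ}
    (hD : ∀ i x, HasDerivAt (fun h : ℝ => f (x + h • Pi.single i 1)) (D i x) 0)
    (hDc : ∀ i, Continuous (D i)) (hDb : ∀ i x, |D i x| ≤ L) (x y : κ → ℝ) :
    |f x - f y| ≤ L * n1 (x - y) := by
  have hc : ∀ t : ℝ, ∀ i, HasDerivAt (fun t : ℝ => (y + t • (x - y)) i) ((x - y) i) t := by
    intro t i
    have h1 : HasDerivAt (fun t : ℝ => y i + t * (x - y) i) (1 * (x - y) i) t :=
      ((hasDerivAt_id t).mul_const ((x - y) i)).const_add (y i)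
    rw [one_mul] at h1
    exact h1
  have hd : ∀ t ∈ Set.uIcc (0 : ℝ) 1, HasDerivWithinAt (fun t : ℝ => f (y + t • (x - y)))
      (∑ i, D i (y + t • (x - y)) * (x - y) i) (Set.uIcc (0 : ℝ) 1) t := by
    intro t _
    exact (hasDerivAt_curve (c := fun t : ℝ => y + t • (x - y)) hD hDc (hc t)).hasDerivWithinAt
  have hb : ∀ t ∈ Set.uIcc (0 : ℝ) 1, ‖∑ i, D i (y + t • (x - y)) * (x - y) i‖ ≤
      L * n1 (x - y) := by
    intro t _
    unfold n1
    rw [Finset.mul_sum]
    refine (norm_sum_le _ _).trans (Finset.sum_le_sum fun i _ => ?_)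
    rw [Real.norm_eq_abs, abs_mul]
    exact mul_le_mul_of_nonneg_right (hDb i _) (abs_nonneg _)
  have hm := Convex.norm_image_sub_le_of_norm_hasDerivWithin_le hd hb (convex_uIcc _ _)
    Set.left_mem_uIcc Set.right_mem_uIcc
  simp only [zero_smul, add_zero, one_smul, sub_zero, norm_one, mul_one, add_sub_cancel] at hm
  rw [Real.norm_eq_abs] at hm
  exact hm

/-- growth of a function with bounded coordinate derivatives (`hasFDerivAt_of_coord`, mean value
inequality): class `LG` -/
theorem LG_of_bounded_deriv {f : (κ → ℝ) → ℝ} {D : κ → (κ → ℝ) → ℝ} {L : ℝ}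
    (hD : ∀ i x, HasDerivAt (fun h : ℝ => f (x + h • Pi.single i 1)) (D i x) 0)
    (hDc : ∀ i, Continuous (D i)) (hDb : ∀ i x, |D i x| ≤ L) : LG f := by
  refine ⟨continuous_iff_continuousAt.mpr fun x => (hasFDerivAt_of_coord hD hDc x).continuousAt,
    |f 0| + |L|, fun z => ?_⟩
  have h1 := Coord_lip hD hDc hDb z 0
  rw [sub_zero] at h1
  have h2 : 0 ≤ n1 z := by
    unfold n1
    exact Finset.sum_nonneg fun _ _ => abs_nonneg _
  have h3 : |f z| ≤ |f 0| + |f z - f 0| := by
    have := abs_add_le (f 0) (f z - f 0)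
    rw [add_sub_cancel] at this
    exact this
  have h4 : L * n1 z ≤ |L| * n1 z := mul_le_mul_of_nonneg_right (le_abs_self L) h2
  nlinarith [abs_nonneg (f 0), abs_nonneg L, mul_nonneg (abs_nonneg (f 0)) h2]

/-- Lipschitz bound from bounded coordinate derivatives -/
theorem abs_sub_le_of_deriv {f : (κ → ℝ) → ℝ} {D : κ → (κ → ℝ) → ℝ} {L : ℝ}
    (hD : ∀ i x, HasDerivAt (fun h : ℝ => f (x + h • Pi.single i 1)) (D i x) 0)
    (hDc : ∀ i, Continuous (D i)) (hDb : ∀ i x, |D i x| ≤ L) (x y : κ → ℝ) :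
    |f x - f y| ≤ L * n1 (x - y) :=
  Coord_lip hD hDc hDb x y

end

end SKC.A
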