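import Pool.Agent.H.MP_08eaf3_pr.A.Field
import Pool.Agent.H.MP_08eaf3_pr.A.Stein

/-!
# Part A: derivative of expected free energies
-/

set_option autoImplicit false

open MeasureTheory ProbabilityTheory Filter Topology Matrix

namespace SKC.A

section

variable {Ω κ : Type} [Fintype κ] {B : Finset Ω}

theorem DerEL_EG_gavdot (hB : B.Nonempty) (v : Ω → κ → ℝ) (a : Ω → ℝ) (w : Ω → κ → ℝ) :
    EG (fun x => gav B (fun ω => dot x (v ω) + a ω) (fun ω => dot x (w ω))) := by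
  unfold gav
  exact EG.sum B (fun ω hω => (EG_gw hB v a hω).mul (EG.dot_right (w ω)))

theorem DerEL_EG_gavgav (hB : B.Nonempty) (v : Ω → κ → ℝ) (a : Ω → ℝ) (w : Ω → κ → ℝ) :
    EG (fun x => gav B (fun ω => dot x (v ω) + a ω) (fun ω =>
      gav B (fun ω => dot x (v ω) + a ω) (fun ω' => dot (w ω) (v ω')))) := by
  have h1 : EG (fun x => ∑ ω ∈ B, gw B (fun ω => dot x (v ω) + a ω) ω *
      gav B (fun ω => dot x (v ω) + a ω) (fun ω' => dot (w ω) (v ω'))) :=
    EG.sum B (fun ω hω => (EG_gw hB v a hω).mul (EG_gav hB v a (fun ω' => dot (w ω) (v ω'))))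
  exact h1

/-- integration by parts for a Gibbs weight times a function `f` of the disorder (`stein_dir` and
`hasDerivAt_gw`): the derivative of the field `dot x (v ω') + a ω'` in direction `w` is `dot w (v ω')`. -/
theorem ibp_gw (hB : B.Nonempty) (v : Ω → κ → ℝ) (a : Ω → ℝ) (w : κ → ℝ) {ω : Ω} (hω : ω ∈ B) :
    ∫ x, dot x w * gw B (fun ω => dot x (v ω) + a ω) ω ∂(gam κ) =
      ∫ x, gw B (fun ω => dot x (v ω) + a ω) ω *
        (dot w (v ω) - gav B (fun ω => dot x (v ω) + a ω) (fun ω' => dot w (v ω'))) ∂(gam κ) := by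
  refine stein_dir w (fun x => gw B (fun ω => dot x (v ω) + a ω) ω)
    (fun x => gw B (fun ω => dot x (v ω) + a ω) ω *
        (dot w (v ω) - gav B (fun ω => dot x (v ω) + a ω) (fun ω' => dot w (v ω'))))
    (EG_gw hB v a hω)
    ((EG_gw hB v a hω).mul ((EG.const _).sub (EG_gav hB v a (fun ω' => dot w (v ω'))))) ?_
  intro x
  have h1 := hasDerivAt_gw hB (a := fun t ω => dot (x + t • w) (v ω) + a ω)
    (a' := fun ω => dot w (v ω)) (t := (0 : ℝ)) (ω := ω) (fun ω' _ => by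
      have h2 : (fun t : ℝ => dot (x + t • w) (v ω') + a ω') =
          fun t : ℝ => (dot x (v ω') + t * dot w (v ω')) + a ω' := by
        funext t
        rw [dot_add_left, dot_smul_left]
      rw [h2]
      have h3 : HasDerivAt (fun t : ℝ => t * dot w (v ω')) (1 * dot w (v ω')) 0 :=
        (hasDerivAt_id (0 : ℝ)).mul_const (dot w (v ω'))
      rw [one_mul] at h3
      exact (h3.const_add (dot x (v ω'))).add_const (a ω')) hω
  simp only [zero_smul, add_zero] at h1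
  exact h1

/-- integration by parts for a Gibbs average of a field with features `w`:
`E <x·w> = E [ <w·v> - Σ p p' w(ω)·v(ω') ]` -/
theorem ibp_gav (hB : B.Nonempty) (v : Ω → κ → ℝ) (a : Ω → ℝ) (w : Ω → κ → ℝ) :
    ∫ x, gav B (fun ω => dot x (v ω) + a ω) (fun ω => dot x (w ω)) ∂(gam κ) =
      ∫ x, (gav B (fun ω => dot x (v ω) + a ω) (fun ω => dot (w ω) (v ω)) -
        gav B (fun ω => dot x (v ω) + a ω) (fun ω =>
          gav B (fun ω => dot x (v ω) + a ω) (fun ω' => dot (w ω) (v ω')))) ∂(gam κ) := by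
  have e1 : (fun x => gav B (fun ω => dot x (v ω) + a ω) (fun ω => dot x (w ω))) =
      fun x => ∑ ω ∈ B, dot x (w ω) * gw B (fun ω => dot x (v ω) + a ω) ω := by
    funext x
    unfold gav
    exact Finset.sum_congr rfl (fun ω _ => mul_comm _ _)
  have e2 : (fun x => (gav B (fun ω => dot x (v ω) + a ω) (fun ω => dot (w ω) (v ω)) -
        gav B (fun ω => dot x (v ω) + a ω) (fun ω =>
          gav B (fun ω => dot x (v ω) + a ω) (fun ω' => dot (w ω) (v ω'))))) =
      fun x => ∑ ω ∈ B, gw B (fun ω => dot x (v ω) + a ω) ω *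
        (dot (w ω) (v ω) - gav B (fun ω => dot x (v ω) + a ω) (fun ω' => dot (w ω) (v ω'))) := by
    funext x
    have h1 : ∀ f : Ω → ℝ, gav B (fun ω => dot x (v ω) + a ω) f =
        ∑ ω ∈ B, gw B (fun ω => dot x (v ω) + a ω) ω * f ω := fun _ => rfl
    rw [h1 (fun ω => dot (w ω) (v ω)), h1 (fun ω =>
      gav B (fun ω => dot x (v ω) + a ω) (fun ω' => dot (w ω) (v ω'))),
      ← Finset.sum_sub_distrib]
    exact Finset.sum_congr rfl (fun ω _ => (mul_sub _ _ _).symm)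
  rw [e1, e2, integral_finsetSum B (fun ω hω =>
      ((EG.dot_right (w ω)).mul (EG_gw hB v a hω)).integrable),
    integral_finsetSum B (fun ω hω => ((EG_gw hB v a hω).mul
      ((EG.const _).sub (EG_gav hB v a (fun ω' => dot (w ω) (v ω'))))).integrable)]
  exact Finset.sum_congr rfl (fun ω hω => ibp_gw hB v a (w ω) hω)

theorem DerEL_abs_dot_le {x y : κ → ℝ} {C : ℝ} (hy : ∀ i, |y i| ≤ C) :
    |dot x y| ≤ C * n1 x := by
  unfold dot n1
  rw [Finset.mul_sum]
  refine (Finset.abs_sum_le_sum_abs _ _).trans (Finset.sum_le_sum (fun i _ => ?_))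
  rw [abs_mul, mul_comm]
  exact mul_le_mul_of_nonneg_right (hy i) (abs_nonneg _)

/-- derivative of the expected free energy along a differentiable family of features and
deterministic parts. The bounds `hv', ha'` are only needed near `t0`. `hasDerivAt_gam` with
`F t x = lse ..`, `F' t x = gav .. (dot x (v' t ω) + a' t ω)`, `hasDerivAt_lse`. -/
theorem hasDerivAt_EL_raw (hB : B.Nonempty) (v v' : ℝ → Ω → κ → ℝ) (a a' : ℝ → Ω → ℝ) (t0 C : ℝ)
    (hv : ∀ t, |t - t0| < 1 → ∀ ω ∈ B, ∀ i, HasDerivAt (fun t => v t ω i) (v' t ω i) t)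
    (ha : ∀ t, |t - t0| < 1 → ∀ ω ∈ B, HasDerivAt (fun t => a t ω) (a' t ω) t)
    (hv' : ∀ t, |t - t0| < 1 → ∀ ω ∈ B, ∀ i, |v' t ω i| ≤ C)
    (ha' : ∀ t, |t - t0| < 1 → ∀ ω ∈ B, |a' t ω| ≤ C) :
    HasDerivAt (fun t => EL B (v t) (a t))
      (∫ x, gav B (fun ω => dot x (v t0 ω) + a t0 ω) (fun ω => dot x (v' t0 ω) + a' t0 ω) ∂(gam κ)) t0 := by
  have hC : 0 ≤ C := by
    obtain ⟨ω, hω⟩ := hB
    exact (abs_nonneg _).trans (ha' t0 (by simp) ω hω)
  have h1 := hasDerivAt_gam (fun t x => lse B (fun ω => dot x (v t ω) + a t ω))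
    (fun t x => gav B (fun ω => dot x (v t ω) + a t ω) (fun ω => dot x (v' t ω) + a' t ω))
    t0 (C + 1) (fun t _ => (LG_lse hB (v t) (a t)).eg) ?_ ?_ ?_
  · exact h1
  · have h2 : EG (fun x => ∑ ω ∈ B, gw B (fun ω => dot x (v t0 ω) + a t0 ω) ω *
        (dot x (v' t0 ω) + a' t0 ω)) :=
      EG.sum B (fun ω hω => (EG_gw hB (v t0) (a t0) hω).mul
        ((EG.dot_right (v' t0 ω)).add (EG.const _)))
    exact h2
  · intro t ht x
    refine hasDerivAt_lse hB (a := fun t ω => dot x (v t ω) + a t ω)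
      (a' := fun ω => dot x (v' t ω) + a' t ω) (t := t) ?_
    intro ω hω
    refine HasDerivAt.add ?_ (ha t ht ω hω)
    unfold dot
    exact HasDerivAt.fun_sum (fun i _ => (hv t ht ω hω i).const_mul (x i))
  · intro t ht x
    have hn : 0 ≤ n1 x := n1_nonneg x
    refine (abs_gav_le hB _ (c := C * n1 x + C) (fun ω hω => ?_)).trans ?_
    · exact (abs_add_le _ _).trans (add_le_add (DerEL_abs_dot_le (hv' t ht ω hω)) (ha' t ht ω hω))
    · have h3 := Real.add_one_le_exp ((C + 1) * n1 x)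
      have h4 : n1 x ≤ (C + 1) * n1 x := by nlinarith
      calc C * n1 x + C = C * (n1 x + 1) := by ring
        _ ≤ C * Real.exp ((C + 1) * n1 x) := mul_le_mul_of_nonneg_left (by linarith) hC
        _ ≤ (C + 1) * Real.exp ((C + 1) * n1 x) :=
            mul_le_mul_of_nonneg_right (by linarith) (Real.exp_pos _).le

/-- the same after integration by parts -/
theorem hasDerivAt_EL (hB : B.Nonempty) (v v' : ℝ → Ω → κ → ℝ) (a a' : ℝ → Ω → ℝ) (t0 C : ℝ)
    (hv : ∀ t, |t - t0| < 1 → ∀ ω ∈ B, ∀ i, HasDerivAt (fun t => v t ω i) (v' t ω i) t)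
    (ha : ∀ t, |t - t0| < 1 → ∀ ω ∈ B, HasDerivAt (fun t => a t ω) (a' t ω) t)
    (hv' : ∀ t, |t - t0| < 1 → ∀ ω ∈ B, ∀ i, |v' t ω i| ≤ C)
    (ha' : ∀ t, |t - t0| < 1 → ∀ ω ∈ B, |a' t ω| ≤ C) :
    HasDerivAt (fun t => EL B (v t) (a t))
      (∫ x, (gav B (fun ω => dot x (v t0 ω) + a t0 ω) (fun ω => dot (v' t0 ω) (v t0 ω) + a' t0 ω) -
        gav B (fun ω => dot x (v t0 ω) + a t0 ω) (fun ω =>
          gav B (fun ω => dot x (v t0 ω) + a t0 ω) (fun ω' => dot (v' t0 ω) (v t0 ω')))) ∂(gam κ)) t0 := by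
  have h1 := hasDerivAt_EL_raw hB v v' a a' t0 C hv ha hv' ha'
  have i1 := (DerEL_EG_gavdot hB (v t0) (a t0) (v' t0)).integrable
  have i2 := (EG_gav hB (v t0) (a t0) (a' t0)).integrable
  have i3 := (EG_gav hB (v t0) (a t0) (fun ω => dot (v' t0 ω) (v t0 ω))).integrable
  have i4 := (DerEL_EG_gavgav hB (v t0) (a t0) (v' t0)).integrable
  have e1 : ∫ x, gav B (fun ω => dot x (v t0 ω) + a t0 ω)
        (fun ω => dot x (v' t0 ω) + a' t0 ω) ∂(gam κ) =
      ∫ x, gav B (fun ω => dot x (v t0 ω) + a t0 ω) (fun ω => dot x (v' t0 ω)) ∂(gam κ) +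
      ∫ x, gav B (fun ω => dot x (v t0 ω) + a t0 ω) (a' t0) ∂(gam κ) := by
    rw [← integral_add i1 i2]
    congr 1
    funext x
    exact gav_add _ _ _
  have e2 : ∫ x, (gav B (fun ω => dot x (v t0 ω) + a t0 ω)
        (fun ω => dot (v' t0 ω) (v t0 ω) + a' t0 ω) -
        gav B (fun ω => dot x (v t0 ω) + a t0 ω) (fun ω =>
          gav B (fun ω => dot x (v t0 ω) + a t0 ω) (fun ω' => dot (v' t0 ω) (v t0 ω')))) ∂(gam κ) =
      ∫ x, (gav B (fun ω => dot x (v t0 ω) + a t0 ω) (fun ω => dot (v' t0 ω) (v t0 ω)) -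
        gav B (fun ω => dot x (v t0 ω) + a t0 ω) (fun ω =>
          gav B (fun ω => dot x (v t0 ω) + a t0 ω) (fun ω' => dot (v' t0 ω) (v t0 ω')))) ∂(gam κ) +
      ∫ x, gav B (fun ω => dot x (v t0 ω) + a t0 ω) (a' t0) ∂(gam κ) := by
    have i5 : Integrable (fun x =>
        gav B (fun ω => dot x (v t0 ω) + a t0 ω) (fun ω => dot (v' t0 ω) (v t0 ω)) -
        gav B (fun ω => dot x (v t0 ω) + a t0 ω) (fun ω =>
          gav B (fun ω => dot x (v t0 ω) + a t0 ω) (fun ω' => dot (v' t0 ω) (v t0 ω')))) (gam κ) :=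
      i3.sub i4
    rw [← integral_add i5 i2]
    congr 1
    funext x
    rw [gav_add _ (fun ω => dot (v' t0 ω) (v t0 ω)) (a' t0)]
    ring
  rw [e1, ibp_gav hB (v t0) (a t0) (v' t0)] at h1
  rw [e2]
  exact h1

end

end SKC.A
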