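import Pool.Agent.H.MP_08eaf3_pr.A.Fub

/-!
# Part A: linear images and moments
-/

set_option autoImplicit false

open MeasureTheory ProbabilityTheory Filter Topology Matrix

namespace SKC.A

section

variable {ι κ κ' : Type} [Fintype ι] [Fintype κ] [Fintype κ']

/-- integrals of functions of linear images depend only on the covariance -/
theorem integral_linear_congr (M : Matrix ι κ ℝ) (M' : Matrix ι κ' ℝ) (h : M * Mᵀ = M' * M'ᵀ)
    (f : (ι → ℝ) → ℝ) (hf : Continuous f) :
    ∫ x, f (M.mulVec x) ∂(gam κ) = ∫ x, f (M'.mulVec x) ∂(gam κ') := by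
  have hm : Continuous fun x : κ → ℝ => M.mulVec x := continuous_const.matrix_mulVec continuous_id
  have hm' : Continuous fun x : κ' → ℝ => M'.mulVec x :=
    continuous_const.matrix_mulVec continuous_id
  have h1 : ∫ y, f y ∂((gam κ).map fun x => M.mulVec x) = ∫ x, f (M.mulVec x) ∂(gam κ) :=
    integral_map hm.measurable.aemeasurable hf.aestronglyMeasurable
  have h2 : ∫ y, f y ∂((gam κ').map fun x => M'.mulVec x) = ∫ x, f (M'.mulVec x) ∂(gam κ') :=
    integral_map hm'.measurable.aemeasurable hf.aestronglyMeasurable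
  rw [← h1, ← h2, law_map_linear_eq M M' h]

/-- sums of independent linear images: covariance `M Mᵀ = M₁ M₁ᵀ + M₂ M₂ᵀ` -/
theorem integral_linear_add {κ₁ κ₂ : Type} [Fintype κ₁] [Fintype κ₂] (M : Matrix ι κ ℝ)
    (M₁ : Matrix ι κ₁ ℝ) (M₂ : Matrix ι κ₂ ℝ) (h : M * Mᵀ = M₁ * M₁ᵀ + M₂ * M₂ᵀ)
    (f : (ι → ℝ) → ℝ) (hf : EG f) :
    ∫ x, f (M.mulVec x) ∂(gam κ) =
      ∫ x, ∫ y, f (M₁.mulVec x + M₂.mulVec y) ∂(gam κ₂) ∂(gam κ₁) := by
  have h1 : M * Mᵀ = Matrix.fromCols M₁ M₂ * (Matrix.fromCols M₁ M₂)ᵀ := by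
    rw [Matrix.transpose_fromCols, Matrix.fromCols_mul_fromRows]
    exact h
  rw [integral_linear_congr M (Matrix.fromCols M₁ M₂) h1 f hf.cont]
  have h2 : EG (fun x : κ₁ ⊕ κ₂ → ℝ => f ((Matrix.fromCols M₁ M₂).mulVec x)) := by
    have h3 := hf.comp_affine 0 (Matrix.fromCols M₁ M₂)
    have h4 : (fun x : κ₁ ⊕ κ₂ → ℝ => f (0 + (Matrix.fromCols M₁ M₂).mulVec x)) =
        fun x : κ₁ ⊕ κ₂ → ℝ => f ((Matrix.fromCols M₁ M₂).mulVec x) := by
      funext x
      rw [zero_add]
    rwa [h4] at h3
  rw [integral_gam_sum' _ h2]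
  simp only [Matrix.fromCols_mulVec_sumElim]

theorem Mom_sq : ∫ x, x * x ∂(gaussianReal 0 1) = 1 := by
  have h := variance_fun_id_gaussianReal (μ := 0) (v := 1)
  rw [variance_eq_integral measurable_id'.aemeasurable] at h
  simp only [integral_id_gaussianReal, sub_zero, NNReal.coe_one] at h
  rw [← h]
  congr 1
  funext x
  ring

/-- second moments of the coordinates -/
theorem Mom_coord [DecidableEq κ] (i j : κ) :
    ∫ x : κ → ℝ, x i * x j ∂(gam κ) = if i = j then 1 else 0 := by
  have h1 : ∀ x : κ → ℝ, x i * x j =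
      ∏ k, ((if k = i then x k else 1) * (if k = j then x k else 1)) := by
    intro x
    rw [Finset.prod_mul_distrib, Finset.prod_ite_eq' Finset.univ i (fun k => x k),
      Finset.prod_ite_eq' Finset.univ j (fun k => x k), if_pos (Finset.mem_univ i),
      if_pos (Finset.mem_univ j)]
  simp only [h1]
  unfold gam
  rw [integral_fintype_prod_eq_prod
    (fun (k : κ) (x : ℝ) => (if k = i then x else 1) * (if k = j then x else 1))]
  by_cases hij : i = j
  · subst hij
    rw [if_pos rfl]
    refine Finset.prod_eq_one fun k _ => ?_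
    by_cases hk : k = i
    · simp only [if_pos hk]
      exact Mom_sq
    · simp only [if_neg hk]
      simp
  · rw [if_neg hij]
    refine Finset.prod_eq_zero (Finset.mem_univ i) ?_
    simp only [if_pos, if_neg hij, mul_one]
    exact integral_id_gaussianReal

/-- moments of a scalar product -/
theorem integral_dot (w : κ → ℝ) : ∫ x, dot x w ∂(gam κ) = 0 := by
  have h1 := integral_gam_neg (fun x : κ → ℝ => dot x w)
  simp only [dot_neg_left] at h1
  rw [integral_neg] at h1
  linarith

theorem integral_dot_mul_dot (v w : κ → ℝ) : ∫ x, dot x v * dot x w ∂(gam κ) = dot v w := by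
  classical
  have h1 : ∀ x : κ → ℝ, dot x v * dot x w = ∑ i, ∑ j, v i * w j * (x i * x j) := by
    intro x
    unfold dot
    rw [Finset.sum_mul_sum]
    exact Finset.sum_congr rfl fun i _ => Finset.sum_congr rfl fun j _ => by ring
  have hi : ∀ i j : κ, Integrable (fun x : κ → ℝ => v i * w j * (x i * x j)) (gam κ) := fun i j =>
    (((EG.coord i).mul (EG.coord j)).integrable).const_mul _
  simp only [h1]
  rw [integral_finsetSum _ fun i _ => integrable_finsetSum _ fun j _ => hi i j]
  unfold dot
  refine Finset.sum_congr rfl fun i _ => ?_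
  rw [integral_finsetSum _ fun j _ => hi i j, Finset.sum_eq_single i]
  · rw [integral_const_mul, Mom_coord, if_pos rfl, mul_one]
  · intro j _ hj
    rw [integral_const_mul, Mom_coord, if_neg hj.symm, mul_zero]
  · intro h
    exact absurd (Finset.mem_univ i) h

/-- moment generating function: product of `mgf_gaussianReal` -/
theorem integral_exp_dot (w : κ → ℝ) :
    ∫ x, Real.exp (dot x w) ∂(gam κ) = Real.exp (dot w w / 2) := by
  have h1 : ∀ x : κ → ℝ, Real.exp (dot x w) = ∏ i, Real.exp (w i * x i) := by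
    intro x
    unfold dot
    rw [← Real.exp_sum]
    congr 1
    exact Finset.sum_congr rfl fun i _ => mul_comm _ _
  simp only [h1]
  unfold gam
  rw [integral_fintype_prod_eq_prod (fun (i : κ) (x : ℝ) => Real.exp (w i * x))]
  have h2 : ∀ t : ℝ, ∫ x, Real.exp (t * x) ∂(gaussianReal 0 1) = Real.exp (t ^ 2 / 2) := by
    intro t
    have h3 := congrFun (mgf_fun_id_gaussianReal (μ := 0) (v := 1)) t
    unfold mgf at h3
    rw [h3]
    congr 1
    simp
  simp only [h2]
  rw [← Real.exp_sum]
  congr 1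
  unfold dot
  rw [Finset.sum_div]
  exact Finset.sum_congr rfl fun i _ => by rw [pow_two]

/-- positive masses: nonempty open sets have positive measure -/
instance gam_openPos : (gam κ).IsOpenPosMeasure := by
  have h1 : (gaussianReal 0 1).IsOpenPosMeasure :=
    (gaussianReal_absolutelyContinuous' 0 one_ne_zero).isOpenPosMeasure
  unfold gam
  infer_instance

end

end SKC.A
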