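import Pool.Agent.H.MP_08eaf3_pr.A.Field
import Pool.Agent.H.MP_08eaf3_pr.A.Mom

/-!
# Part A: rules for expected free energies
-/

set_option autoImplicit false

open MeasureTheory ProbabilityTheory Filter Topology Matrix

namespace SKC.A

section

variable {Ω Ω' κ : Type} [Fintype κ] {B : Finset Ω}

theorem EL_congr_det (v : Ω → κ → ℝ) {a b : Ω → ℝ} (h : ∀ ω ∈ B, a ω = b ω) :
    EL B v a = EL B v b := by
  unfold EL
  refine integral_congr_ae (Filter.Eventually.of_forall fun x => ?_)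
  refine lse_congr fun ω hω => ?_
  rw [h ω hω]

theorem EL_add_const (hB : B.Nonempty) (v : Ω → κ → ℝ) (a : Ω → ℝ) (c : ℝ) :
    EL B v (fun ω => a ω + c) = EL B v a + c := by
  unfold EL
  have h1 : ∀ x : κ → ℝ, lse B (fun ω => dot x (v ω) + (a ω + c)) =
      lse B (fun ω => dot x (v ω) + a ω) + c := by
    intro x
    rw [← lse_add_const hB]
    exact lse_congr fun ω _ => (add_assoc _ _ _).symm
  simp_rw [h1]
  rw [integral_add (integrable_lse hB v a) (integrable_const c), integral_const, probReal_univ,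
    one_smul]

theorem EL_mono (hB : B.Nonempty) (v : Ω → κ → ℝ) {a b : Ω → ℝ} (h : ∀ ω ∈ B, a ω ≤ b ω) :
    EL B v a ≤ EL B v b := by
  unfold EL
  refine integral_mono (integrable_lse hB v a) (integrable_lse hB v b) fun x => ?_
  exact lse_mono hB fun ω hω => add_le_add le_rfl (h ω hω)

theorem EL_subset {B' : Finset Ω} (hB : B.Nonempty) (h : B ⊆ B') (v : Ω → κ → ℝ) (a : Ω → ℝ) :
    EL B v a ≤ EL B' v a := by
  unfold EL
  refine integral_mono (integrable_lse hB v a) (integrable_lse (hB.mono h) v a) fun x => ?_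
  exact lse_subset hB h _

theorem abs_EL_sub_le (hB : B.Nonempty) (v : Ω → κ → ℝ) {a b : Ω → ℝ} {c : ℝ}
    (h : ∀ ω ∈ B, |a ω - b ω| ≤ c) : |EL B v a - EL B v b| ≤ c := by
  have h1 : EL B v a ≤ EL B v b + c := by
    rw [← EL_add_const hB]
    exact EL_mono hB v fun ω hω => by linarith [(abs_le.1 (h ω hω)).2]
  have h2 : EL B v b ≤ EL B v a + c := by
    rw [← EL_add_const hB]
    exact EL_mono hB v fun ω hω => by linarith [(abs_le.1 (h ω hω)).1]
  rw [abs_le]
  constructor <;> linarith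

/-- no disorder -/
theorem EL_zero (v : Ω → κ → ℝ) (hv : ∀ ω ∈ B, v ω = 0) (a : Ω → ℝ) : EL B v a = lse B a := by
  unfold EL
  have h1 : ∀ x : κ → ℝ, lse B (fun ω => dot x (v ω) + a ω) = lse B a := by
    intro x
    refine lse_congr fun ω hω => ?_
    rw [hv ω hω, dot_zero_right, zero_add]
  simp_rw [h1]
  rw [integral_const, probReal_univ, one_smul]

/-- lower bound: Jensen, the field is centred (`lse_add_ge` and `integral_dot`) -/
theorem lse_le_EL (hB : B.Nonempty) (v : Ω → κ → ℝ) (a : Ω → ℝ) : lse B a ≤ EL B v a := by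
  unfold EL
  have hint : ∀ ω, Integrable (fun x : κ → ℝ => gw B a ω * dot x (v ω)) (gam κ) := fun ω =>
    (SKC.EG.dot_right (v ω)).integrable.const_mul _
  have hint2 : Integrable (fun x : κ → ℝ => gav B a (fun ω => dot x (v ω))) (gam κ) := by
    unfold gav
    exact integrable_finsetSum _ fun ω _ => hint ω
  have h1 : ∫ x, (lse B a + gav B a (fun ω => dot x (v ω))) ∂(gam κ) = lse B a := by
    rw [integral_add (integrable_const _) hint2, integral_const, probReal_univ, one_smul]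
    have h2 : ∫ x, gav B a (fun ω => dot x (v ω)) ∂(gam κ) = 0 := by
      unfold gav
      rw [integral_finsetSum _ fun ω _ => hint ω]
      refine Finset.sum_eq_zero fun ω _ => ?_
      rw [integral_const_mul, integral_dot, mul_zero]
    rw [h2, add_zero]
  rw [← h1]
  refine integral_mono ((integrable_const _).add hint2) (integrable_lse hB v a) fun x => ?_
  refine (lse_add_ge hB a (fun ω => dot x (v ω))).trans (le_of_eq ?_)
  exact lse_congr fun ω _ => add_comm _ _

theorem le_EL {ω : Ω} (hω : ω ∈ B) (v : Ω → κ → ℝ) (a : Ω → ℝ) : a ω ≤ EL B v a :=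
  (le_lse hω a).trans (lse_le_EL ⟨ω, hω⟩ v a)

/-- annealed bound: Jensen for `log` and `integral_exp_dot` -/
theorem EL_le_annealed (hB : B.Nonempty) (v : Ω → κ → ℝ) (a : Ω → ℝ) :
    EL B v a ≤ lse B (fun ω => dot (v ω) (v ω) / 2 + a ω) := by
  have hint : ∀ ω, Integrable (fun x : κ → ℝ => Real.exp (dot x (v ω) + a ω)) (gam κ) := by
    intro ω
    simp_rw [Real.exp_add]
    exact (SKC.EG.exp_dot (v ω)).integrable.mul_const _
  have hm : 0 < ∑ ω ∈ B, Real.exp (dot (v ω) (v ω) / 2 + a ω) := sum_exp_pos hB _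
  have hI : ∫ x, ∑ ω ∈ B, Real.exp (dot x (v ω) + a ω) ∂(gam κ) =
      ∑ ω ∈ B, Real.exp (dot (v ω) (v ω) / 2 + a ω) := by
    rw [integral_finsetSum _ fun ω _ => hint ω]
    refine Finset.sum_congr rfl fun ω _ => ?_
    simp_rw [Real.exp_add]
    rw [integral_mul_const, integral_exp_dot]
  have hXint : Integrable (fun x : κ → ℝ => ∑ ω ∈ B, Real.exp (dot x (v ω) + a ω)) (gam κ) :=
    integrable_finsetSum _ fun ω _ => hint ω
  have hsub : Integrable (fun x : κ → ℝ => (∑ ω ∈ B, Real.exp (dot x (v ω) + a ω)) /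
      (∑ ω ∈ B, Real.exp (dot (v ω) (v ω) / 2 + a ω)) - 1) (gam κ) :=
    (hXint.div_const _).sub (integrable_const _)
  have h0 : ∫ x, ((∑ ω ∈ B, Real.exp (dot x (v ω) + a ω)) /
      (∑ ω ∈ B, Real.exp (dot (v ω) (v ω) / 2 + a ω)) - 1) ∂(gam κ) = 0 := by
    rw [integral_sub (hXint.div_const _) (integrable_const _), integral_div, hI,
      div_self hm.ne', integral_const, probReal_univ, one_smul, sub_self]
  have h1 : ∫ x, (Real.log (∑ ω ∈ B, Real.exp (dot (v ω) (v ω) / 2 + a ω)) +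
      ((∑ ω ∈ B, Real.exp (dot x (v ω) + a ω)) /
        (∑ ω ∈ B, Real.exp (dot (v ω) (v ω) / 2 + a ω)) - 1)) ∂(gam κ) =
      Real.log (∑ ω ∈ B, Real.exp (dot (v ω) (v ω) / 2 + a ω)) := by
    rw [integral_add (integrable_const _) hsub, h0, integral_const, probReal_univ, one_smul,
      add_zero]
  have h2 : lse B (fun ω => dot (v ω) (v ω) / 2 + a ω) =
      Real.log (∑ ω ∈ B, Real.exp (dot (v ω) (v ω) / 2 + a ω)) := rfl
  rw [h2, ← h1]
  unfold EL
  refine integral_mono (integrable_lse hB v a)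
    ((integrable_const _).add hsub) fun x => ?_
  have hX : 0 < ∑ ω ∈ B, Real.exp (dot x (v ω) + a ω) := sum_exp_pos hB _
  have h3 := Real.log_le_sub_one_of_pos (div_pos hX hm)
  rw [Real.log_div hX.ne' hm.ne'] at h3
  change Real.log (∑ ω ∈ B, Real.exp (dot x (v ω) + a ω)) ≤
    Real.log (∑ ω ∈ B, Real.exp (dot (v ω) (v ω) / 2 + a ω)) +
      ((∑ ω ∈ B, Real.exp (dot x (v ω) + a ω)) /
        (∑ ω ∈ B, Real.exp (dot (v ω) (v ω) / 2 + a ω)) - 1)
  linarith

theorem EL_le_of_le (hB : B.Nonempty) (v : Ω → κ → ℝ) (a : Ω → ℝ) {D c : ℝ}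
    (hD : ∀ ω ∈ B, dot (v ω) (v ω) ≤ D) (hc : ∀ ω ∈ B, a ω ≤ c) :
    EL B v a ≤ Real.log B.card + D / 2 + c := by
  refine (EL_le_annealed hB v a).trans ?_
  have h1 := lse_le hB (a := fun ω => dot (v ω) (v ω) / 2 + a ω) (c := D / 2 + c) fun ω hω => by
    linarith [hD ω hω, hc ω hω]
  linarith

/-- change of the configurations along an injection -/
theorem EL_map (e : Ω' ↪ Ω) (B : Finset Ω') (v : Ω → κ → ℝ) (a : Ω → ℝ) :
    EL (B.map e) v a = EL B (fun ω => v (e ω)) (fun ω => a (e ω)) := by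
  unfold EL
  refine integral_congr_ae (Filter.Eventually.of_forall fun x => ?_)
  exact lse_map e B _

theorem EL_image [DecidableEq Ω] (e : Ω' → Ω) (B : Finset Ω') (he : Set.InjOn e B)
    (v : Ω → κ → ℝ) (a : Ω → ℝ) :
    EL (B.image e) v a = EL B (fun ω => v (e ω)) (fun ω => a (e ω)) := by
  unfold EL
  refine integral_congr_ae (Filter.Eventually.of_forall fun x => ?_)
  exact lse_image e B he _

end

end SKC.A
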