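import Pool.Agent.H.MP_08eaf3_pr.A.Growth

/-!
# Part A: integrability and differentiation under the integral
-/

set_option autoImplicit false

open MeasureTheory ProbabilityTheory Filter Topology Matrix

namespace SKC.A

section

variable {K L : Type} [Fintype K] [Fintype L]

/-! ### integrability -/

/-- `exp(c|x|)` is integrable for the one dimensional Gaussian: it is at most
`exp(c x) + exp(-c x)` (`integrable_exp_mul_gaussianReal`) -/
theorem integrable_exp_abs_one (c : ℝ) :
    Integrable (fun x : ℝ => Real.exp (c * |x|)) (gaussianReal 0 1) := by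
  have h1 := (integrable_exp_mul_gaussianReal (μ := 0) (v := 1) c).add
    (integrable_exp_mul_gaussianReal (μ := 0) (v := 1) (-c))
  refine h1.mono' (by fun_prop) (Eventually.of_forall fun x => ?_)
  rw [Real.norm_eq_abs, Real.abs_exp, Pi.add_apply]
  rcases abs_cases x with ⟨h, _⟩ | ⟨h, _⟩
  · rw [h]
    have := Real.exp_pos (-c * x)
    linarith
  · rw [h]
    have := Real.exp_pos (c * x)
    have e : c * -x = -c * x := by ring
    rw [e]
    linarith

/-- `Integrable.fintype_prod` -/
theorem integrable_exp_n1 (c : ℝ) : Integrable (fun x : K → ℝ => Real.exp (c * n1 x)) (gam K) := by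
  have h1 := Integrable.fintype_prod (ι := K) (μ := fun _ => gaussianReal 0 1)
    (f := fun _ x => Real.exp (c * |x|)) (fun _ => integrable_exp_abs_one c)
  unfold gam
  refine h1.congr (Eventually.of_forall fun x => ?_)
  simp only [n1]
  rw [Finset.mul_sum, Real.exp_sum]

theorem _root_.SKC.EG.integrable {h : (K → ℝ) → ℝ} (hh : EG h) : Integrable h (gam K) := by
  obtain ⟨C, _, _, hb⟩ := hh.bound 0
  refine ((integrable_exp_n1 (K := K) C).const_mul C).mono' hh.cont.aestronglyMeasurable
    (Eventually.of_forall fun x => ?_)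
  rw [Real.norm_eq_abs]
  exact hb x

theorem _root_.SKC.LG.integrable {h : (K → ℝ) → ℝ} (hh : LG h) : Integrable h (gam K) := hh.eg.integrable

/-- Gaussian smoothing keeps the class `EG` (continuity by dominated convergence, bound from
`EG.bound_affine` and `integrable_exp_n1`) -/
theorem _root_.SKC.EG.integral_affine {h : (K → ℝ) → ℝ} (hh : EG h) (M : Matrix K L ℝ) :
    EG (fun z => ∫ x, h (z + M.mulVec x) ∂(gam L)) := by
  obtain ⟨C, hC, hb⟩ := hh.bound_affine M
  have hn1 : Continuous (fun z : K → ℝ => n1 z) := by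
    unfold n1
    fun_prop
  have hcm : ∀ z : K → ℝ, Continuous (fun x : L → ℝ => h (z + M.mulVec x)) := fun z =>
    (hh.comp_affine z M).cont
  have hI : Integrable (fun x : L → ℝ => Real.exp (C * n1 x)) (gam L) := integrable_exp_n1 C
  refine EG.of_bound (A := C * ∫ x, Real.exp (C * n1 x) ∂(gam L)) (B := C) ?_ ?_
  · rw [continuous_iff_continuousAt]
    intro z0
    refine continuousAt_of_dominated (bound := fun x => C * Real.exp (C * (n1 z0 + 1)) * Real.exp (C * n1 x)) ?_ ?_ ?_ ?_
    · exact Eventually.of_forall fun z => (hcm z).aestronglyMeasurable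
    · have h1 : ∀ᶠ z in 𝓝 z0, n1 z < n1 z0 + 1 :=
        (hn1.tendsto z0).eventually (gt_mem_nhds (by linarith))
      filter_upwards [h1] with z hz
      refine Eventually.of_forall fun x => ?_
      rw [Real.norm_eq_abs]
      refine (hb z x).trans ?_
      have h2 : Real.exp (C * n1 z) ≤ Real.exp (C * (n1 z0 + 1)) :=
        Real.exp_le_exp.mpr (mul_le_mul_of_nonneg_left hz.le hC.le)
      exact mul_le_mul_of_nonneg_right (mul_le_mul_of_nonneg_left h2 hC.le) (Real.exp_pos _).le
    · exact hI.const_mul _
    · refine Eventually.of_forall fun x => ?_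
      have : Continuous (fun z : K → ℝ => h (z + M.mulVec x)) :=
        hh.cont.comp (continuous_id.add continuous_const)
      exact this.continuousAt
  · intro z
    have h1 : ‖∫ x, h (z + M.mulVec x) ∂(gam L)‖ ≤
        ∫ x, C * Real.exp (C * n1 z) * Real.exp (C * n1 x) ∂(gam L) := by
      refine norm_integral_le_of_norm_le (hI.const_mul _) (Eventually.of_forall fun x => ?_)
      rw [Real.norm_eq_abs]
      exact hb z x
    rw [Real.norm_eq_abs, integral_const_mul] at h1
    refine h1.trans (le_of_eq ?_)
    ring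

/-- positive functions of the class `EG` have positive integral -/
theorem _root_.SKC.EG.integral_pos {h : (K → ℝ) → ℝ} (hh : EG h) (hp : ∀ z, 0 < h z) :
    0 < ∫ x, h x ∂(gam K) := by
  rw [integral_pos_iff_support_of_nonneg (fun z => (hp z).le) hh.integrable]
  have h1 : Function.support h = Set.univ := by
    ext z
    simp only [Function.mem_support, Set.mem_univ, iff_true]
    exact (hp z).ne'
  rw [h1, measure_univ]
  exact one_pos

/-- differentiation under the integral sign (wrapper of
`hasDerivAt_integral_of_dominated_loc_of_deriv_le`, radius `1`) -/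
theorem hasDerivAt_gam (F F' : ℝ → (K → ℝ) → ℝ) (t0 C : ℝ) (hF : ∀ t, |t - t0| < 1 → EG (F t))
    (hF' : EG (F' t0)) (hd : ∀ t, |t - t0| < 1 → ∀ x, HasDerivAt (fun t => F t x) (F' t x) t)
    (hb : ∀ t, |t - t0| < 1 → ∀ x, |F' t x| ≤ C * Real.exp (C * n1 x)) :
    HasDerivAt (fun t => ∫ x, F t x ∂(gam K)) (∫ x, F' t0 x ∂(gam K)) t0 := by
  have hs : Metric.ball t0 1 ∈ 𝓝 t0 := Metric.ball_mem_nhds t0 one_pos
  have hmem : ∀ t ∈ Metric.ball t0 1, |t - t0| < 1 := by
    intro t ht
    rwa [Metric.mem_ball, Real.dist_eq] at ht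
  have h := hasDerivAt_integral_of_dominated_loc_of_deriv_le (μ := gam K) (F := F) (F' := F') (x₀ := t0)
    (bound := fun x => C * Real.exp (C * n1 x)) hs
    (by
      filter_upwards [hs] with t ht
      exact (hF t (hmem t ht)).cont.aestronglyMeasurable)
    ((hF t0 (by simp)).integrable) hF'.cont.aestronglyMeasurable
    (Eventually.of_forall fun x t ht => by
      rw [Real.norm_eq_abs]
      exact hb t (hmem t ht) x)
    ((integrable_exp_n1 (K := K) C).const_mul C)
    (Eventually.of_forall fun x t ht => hd t (hmem t ht) x)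
  exact h.2

end

end SKC.A
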