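import Pool.Agent.H.MP_08eaf3_pr.A.Gibbs
import Pool.Agent.H.MP_08eaf3_pr.A.Integ

/-!
# Part A: derivatives of free energies, Gaussian fields
-/

set_option autoImplicit false

open MeasureTheory ProbabilityTheory Filter Topology Matrix

namespace SKC.A

section

variable {Ω Ω' κ : Type} [Fintype κ] {B : Finset Ω} {a b : Ω → ℝ}

/-- derivative of log-sum-exp along a curve -/
theorem hasDerivAt_lse (hB : B.Nonempty) {a : ℝ → Ω → ℝ} {a' : Ω → ℝ} {t : ℝ}
    (h : ∀ ω ∈ B, HasDerivAt (fun t => a t ω) (a' ω) t) :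
    HasDerivAt (fun t => lse B (a t)) (gav B (a t) a') t := by
  have h1 : HasDerivAt (fun t => ∑ ω ∈ B, Real.exp (a t ω))
      (∑ ω ∈ B, Real.exp (a t ω) * a' ω) t :=
    HasDerivAt.fun_sum fun ω hω => (h ω hω).exp
  have h2 := h1.log (sum_exp_pos hB (a t)).ne'
  have e : gav B (a t) a' = (∑ ω ∈ B, Real.exp (a t ω) * a' ω) / ∑ ω ∈ B, Real.exp (a t ω) := by
    unfold gav gw
    rw [Finset.sum_div]
    exact Finset.sum_congr rfl fun ω _ => div_mul_eq_mul_div _ _ _
  rw [e]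
  exact h2

/-- derivative of a Gibbs weight along a curve -/
theorem hasDerivAt_gw (hB : B.Nonempty) {a : ℝ → Ω → ℝ} {a' : Ω → ℝ} {t : ℝ}
    (h : ∀ ω ∈ B, HasDerivAt (fun t => a t ω) (a' ω) t) {ω : Ω} (hω : ω ∈ B) :
    HasDerivAt (fun t => gw B (a t) ω) (gw B (a t) ω * (a' ω - gav B (a t) a')) t := by
  have e : (fun t => gw B (a t) ω) = fun t => Real.exp (a t ω - lse B (a t)) :=
    funext fun t => gw_eq_exp hB (a t) ω
  rw [e, gw_eq_exp hB (a t) ω]
  exact ((h ω hω).sub (hasDerivAt_lse hB h)).exp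

/-- derivative of a Gibbs average along a curve -/
theorem hasDerivAt_gav (hB : B.Nonempty) {a : ℝ → Ω → ℝ} {a' : Ω → ℝ} {t : ℝ} (f : Ω → ℝ)
    (h : ∀ ω ∈ B, HasDerivAt (fun t => a t ω) (a' ω) t) :
    HasDerivAt (fun t => gav B (a t) f)
      (gav B (a t) (fun ω => f ω * a' ω) - gav B (a t) f * gav B (a t) a') t := by
  have h1 : HasDerivAt (fun t => ∑ ω ∈ B, gw B (a t) ω * f ω)
      (∑ ω ∈ B, gw B (a t) ω * (a' ω - gav B (a t) a') * f ω) t :=
    HasDerivAt.fun_sum fun ω hω => (hasDerivAt_gw hB h hω).mul_const (f ω)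
  have e : gav B (a t) (fun ω => f ω * a' ω) - gav B (a t) f * gav B (a t) a' =
      ∑ ω ∈ B, gw B (a t) ω * (a' ω - gav B (a t) a') * f ω := by
    have e1 : gav B (a t) f * gav B (a t) a' =
        ∑ ω ∈ B, gw B (a t) ω * f ω * gav B (a t) a' := by
      rw [← Finset.sum_mul]
      rfl
    rw [e1]
    unfold gav
    rw [← Finset.sum_sub_distrib]
    exact Finset.sum_congr rfl fun ω _ => by ring
  rw [e]
  exact h1

theorem continuous_lse {X : Type} [TopologicalSpace X] (hB : B.Nonempty) {a : X → Ω → ℝ}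
    (h : ∀ ω ∈ B, Continuous (fun x => a x ω)) : Continuous (fun x => lse B (a x)) := by
  unfold lse
  refine Continuous.log (continuous_finset_sum _ fun ω hω => Real.continuous_exp.comp (h ω hω)) ?_
  intro x
  exact (sum_exp_pos hB (a x)).ne'

theorem continuous_gw {X : Type} [TopologicalSpace X] (hB : B.Nonempty) {a : X → Ω → ℝ}
    (h : ∀ ω ∈ B, Continuous (fun x => a x ω)) {ω : Ω} (hω : ω ∈ B) :
    Continuous (fun x => gw B (a x) ω) := by
  have e : (fun x => gw B (a x) ω) = fun x => Real.exp (a x ω - lse B (a x)) :=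
    funext fun x => gw_eq_exp hB (a x) ω
  rw [e]
  exact Real.continuous_exp.comp ((h ω hω).sub (continuous_lse hB h))

theorem continuous_gav {X : Type} [TopologicalSpace X] (hB : B.Nonempty) {a : X → Ω → ℝ}
    (h : ∀ ω ∈ B, Continuous (fun x => a x ω)) (f : Ω → ℝ) :
    Continuous (fun x => gav B (a x) f) := by
  unfold gav
  exact continuous_finset_sum _ fun ω hω => (continuous_gw hB h hω).mul continuous_const

/-! ### Gaussian fields -/

theorem LG_lse (hB : B.Nonempty) (v : Ω → κ → ℝ) (a : Ω → ℝ) :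
    LG (fun x => lse B (fun ω => dot x (v ω) + a ω)) := by
  refine ⟨continuous_lse hB fun ω _ => (continuous_dot_left (v ω)).add continuous_const,
    Real.log B.card + (∑ ω ∈ B, n1 (v ω)) + ∑ ω ∈ B, |a ω|, fun x => ?_⟩
  have h1 : ∀ ω ∈ B, |dot x (v ω) + a ω| ≤ n1 x * (∑ ω ∈ B, n1 (v ω)) + ∑ ω ∈ B, |a ω| := by
    intro ω hω
    refine (abs_add_le _ _).trans (add_le_add ((abs_dot_le_n1 x (v ω)).trans ?_) ?_)
    · exact mul_le_mul_of_nonneg_left (Finset.single_le_sum (f := fun ω => n1 (v ω))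
        (fun ω _ => n1_nonneg (v ω)) hω) (n1_nonneg x)
    · exact Finset.single_le_sum (f := fun ω => |a ω|) (fun ω _ => abs_nonneg (a ω)) hω
  have h2 := abs_lse_le hB h1
  have h3 : 0 ≤ Real.log B.card := Real.log_natCast_nonneg _
  have h4 : 0 ≤ ∑ ω ∈ B, n1 (v ω) := Finset.sum_nonneg fun ω _ => n1_nonneg (v ω)
  have h5 : 0 ≤ ∑ ω ∈ B, |a ω| := Finset.sum_nonneg fun ω _ => abs_nonneg (a ω)
  have h6 := n1_nonneg x
  have h7 := mul_nonneg h3 h6
  have h8 := mul_nonneg h5 h6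
  nlinarith

theorem EG_gw (hB : B.Nonempty) (v : Ω → κ → ℝ) (a : Ω → ℝ) {ω : Ω} (hω : ω ∈ B) :
    EG (fun x => gw B (fun ω => dot x (v ω) + a ω) ω) := by
  refine EG.of_bdd (continuous_gw hB
    (fun ω _ => (continuous_dot_left (v ω)).add continuous_const) hω) (A := 1) fun x => ?_
  rw [abs_of_nonneg (gw_nonneg _ _)]
  exact gw_le_one hω _

theorem EG_gav (hB : B.Nonempty) (v : Ω → κ → ℝ) (a : Ω → ℝ) (f : Ω → ℝ) :
    EG (fun x => gav B (fun ω => dot x (v ω) + a ω) f) := by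
  refine EG.of_bdd (continuous_gav hB
    (fun ω _ => (continuous_dot_left (v ω)).add continuous_const) f) (A := ∑ ω ∈ B, |f ω|)
    fun x => ?_
  exact abs_gav_le hB _ fun ω hω =>
    Finset.single_le_sum (f := fun ω => |f ω|) (fun ω _ => abs_nonneg (f ω)) hω

theorem integrable_lse (hB : B.Nonempty) (v : Ω → κ → ℝ) (a : Ω → ℝ) :
    Integrable (fun x => lse B (fun ω => dot x (v ω) + a ω)) (gam κ) :=
  (LG_lse hB v a).integrable

end

end SKC.A
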