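import Pool.Agent.H.MP_08eaf3_pr.A.Law

/-!
# Part A: product structure, rotations
-/

set_option autoImplicit false

open MeasureTheory ProbabilityTheory Filter Topology Matrix

set_option linter.unusedSectionVars false

namespace SKC.A

section

variable {ι κ κ' : Type} [Fintype ι] [Fintype κ] [Fintype κ']

theorem Fub_elim_eq : (fun p : (ι → ℝ) × (κ → ℝ) => (Sum.elim p.1 p.2 : ι ⊕ κ → ℝ)) =
    ⇑(MeasurableEquiv.sumPiEquivProdPi (fun _ : ι ⊕ κ => ℝ)).symm := by
  funext p i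
  cases i <;> rfl

theorem Fub_mp : MeasurePreserving (MeasurableEquiv.sumPiEquivProdPi (fun _ : ι ⊕ κ => ℝ)).symm
    ((gam ι).prod (gam κ)) (gam (ι ⊕ κ)) :=
  measurePreserving_sumPiEquivProdPi_symm (fun _ : ι ⊕ κ => gaussianReal 0 1)

/-- product structure: `MeasurableEquiv.sumPiEquivProdPi`, `measurePreserving_sumPiEquivProdPi` -/
theorem gam_sum_elim :
    MeasurePreserving (fun p : (ι → ℝ) × (κ → ℝ) => (Sum.elim p.1 p.2 : ι ⊕ κ → ℝ))
      ((gam ι).prod (gam κ)) (gam (ι ⊕ κ)) := by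
  rw [Fub_elim_eq]
  exact Fub_mp

/-- the same as an integral identity, no hypothesis on `f` (the map is a measurable equivalence) -/
theorem integral_gam_sum (f : (ι ⊕ κ → ℝ) → ℝ) :
    ∫ x, f x ∂(gam (ι ⊕ κ)) = ∫ p, f (Sum.elim p.1 p.2) ∂((gam ι).prod (gam κ)) := by
  have h := (Fub_mp (ι := ι) (κ := κ)).integral_comp' f
  rw [← h]
  refine integral_congr_ae (Filter.Eventually.of_forall fun p => ?_)
  exact congrArg f (congrFun Fub_elim_eq p).symm

/-- Fubini -/
theorem integral_gam_sum' (f : (ι ⊕ κ → ℝ) → ℝ) (hf : EG f) :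
    ∫ x, f x ∂(gam (ι ⊕ κ)) = ∫ x, ∫ y, f (Sum.elim x y) ∂(gam κ) ∂(gam ι) := by
  rw [integral_gam_sum]
  exact integral_prod _ (gam_sum_elim.integrable_comp_of_integrable hf.integrable)

/-- integrability on the product of two Gaussian spaces -/
theorem integrable_prod_of_bound (f : (ι → ℝ) × (κ → ℝ) → ℝ) (hf : Continuous f) (C : ℝ)
    (hb : ∀ p, |f p| ≤ C * Real.exp (C * (n1 p.1 + n1 p.2))) :
    Integrable f ((gam ι).prod (gam κ)) := by
  have h1 : Integrable (fun p : (ι → ℝ) × (κ → ℝ) => C * (Real.exp (C * n1 p.1) * Real.exp (C * n1 p.2)))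
      ((gam ι).prod (gam κ)) := ((integrable_exp_n1 C).mul_prod (integrable_exp_n1 C)).const_mul C
  refine h1.mono' hf.aestronglyMeasurable (Filter.Eventually.of_forall fun p => ?_)
  rw [Real.norm_eq_abs, ← Real.exp_add, ← mul_add]
  exact hb p

theorem Fub_neg : MeasurePreserving (fun x : κ → ℝ => -x) (gam κ) (gam κ) := by
  have h1 : MeasurePreserving (fun x : ℝ => -x) (gaussianReal 0 1) (gaussianReal 0 1) :=
    ⟨measurable_neg, by rw [gaussianReal_map_neg, neg_zero]⟩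
  exact measurePreserving_pi (fun _ : κ => gaussianReal 0 1) (fun _ : κ => gaussianReal 0 1) (fun _ => h1)

theorem Fub_mean : ∫ x : κ → ℝ, id x ∂(gam κ) = 0 := by
  have h1 : MeasurePreserving (MeasurableEquiv.neg (κ → ℝ)) (gam κ) (gam κ) := Fub_neg
  have h2 := h1.integral_comp' (fun x : κ → ℝ => x)
  have h3 : ∫ x : κ → ℝ, -x ∂(gam κ) = ∫ x : κ → ℝ, x ∂(gam κ) := h2
  rw [integral_neg] at h3
  have h4 : ∫ x : κ → ℝ, x ∂(gam κ) = 0 := by
    have h5 : (2 : ℝ) • ∫ x : κ → ℝ, x ∂(gam κ) = 0 := by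
      rw [two_smul]
      nth_rewrite 1 [← h3]
      exact neg_add_cancel _
    rcases smul_eq_zero.mp h5 with h | h
    · exact absurd h two_ne_zero
    · exact h
  exact h4

/-- rotations compose -/
theorem Fub_rot_inv (θ : ℝ) (p : (κ → ℝ) × (κ → ℝ)) :
    (Real.cos (-θ) • (Real.cos θ • p.1 + Real.sin θ • p.2) + Real.sin (-θ) • (-Real.sin θ • p.1 + Real.cos θ • p.2),
      -Real.sin (-θ) • (Real.cos θ • p.1 + Real.sin θ • p.2) +
        Real.cos (-θ) • (-Real.sin θ • p.1 + Real.cos θ • p.2)) = p := by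
  have h := Real.cos_sq_add_sin_sq θ
  rw [Real.cos_neg, Real.sin_neg]
  refine Prod.ext ?_ ?_
  · funext i
    simp only [Pi.add_apply, Pi.smul_apply, smul_eq_mul]
    linear_combination (p.1 i) * h
  · funext i
    simp only [Pi.add_apply, Pi.smul_apply, smul_eq_mul]
    linear_combination (p.2 i) * h

theorem Fub_rot_cont (θ : ℝ) : Continuous (fun p : (κ → ℝ) × (κ → ℝ) =>
    (Real.cos θ • p.1 + Real.sin θ • p.2, -Real.sin θ • p.1 + Real.cos θ • p.2)) := by
  fun_prop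

/-- the rotation as a homeomorphism -/
noncomputable def Fub_rot (κ : Type) [Fintype κ] (θ : ℝ) : ((κ → ℝ) × (κ → ℝ)) ≃ₜ ((κ → ℝ) × (κ → ℝ)) where
  toFun := fun p => (Real.cos θ • p.1 + Real.sin θ • p.2, -Real.sin θ • p.1 + Real.cos θ • p.2)
  invFun := fun p => (Real.cos (-θ) • p.1 + Real.sin (-θ) • p.2, -Real.sin (-θ) • p.1 + Real.cos (-θ) • p.2)
  left_inv := fun p => Fub_rot_inv θ p
  right_inv := fun p => by
    have h := Fub_rot_inv (-θ) p
    rw [neg_neg] at h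
    exact h
  continuous_toFun := Fub_rot_cont θ
  continuous_invFun := Fub_rot_cont (-θ)

/-- rotation invariance: `IsGaussian.map_rotation_eq_self` -/
theorem gam_rotate (θ : ℝ) :
    MeasurePreserving (fun p : (κ → ℝ) × (κ → ℝ) =>
        (Real.cos θ • p.1 + Real.sin θ • p.2, -Real.sin θ • p.1 + Real.cos θ • p.2))
      ((gam κ).prod (gam κ)) ((gam κ).prod (gam κ)) := by
  refine ⟨(Fub_rot_cont θ).measurable, ?_⟩
  exact IsGaussian.map_rotation_eq_self (μ := gam κ) Fub_mean θ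

/-- rotation invariance as an integral identity, no hypothesis on `f` (the rotation is a
homeomorphism, hence a measurable embedding) -/
theorem integral_rotate (θ : ℝ) (f : (κ → ℝ) × (κ → ℝ) → ℝ) :
    ∫ p, f (Real.cos θ • p.1 + Real.sin θ • p.2, -Real.sin θ • p.1 + Real.cos θ • p.2)
      ∂((gam κ).prod (gam κ)) = ∫ p, f p ∂((gam κ).prod (gam κ)) := by
  exact (gam_rotate θ).integral_comp (Fub_rot κ θ).measurableEmbedding f

/-- the rotation used for A4 and A5: `(a, b) ↦ ((a + b)/√2, (a - b)/√2)` (a rotation by `π/4`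
composed with `(x, y) ↦ (x, -y)`) -/
theorem integral_rotate_half (f : (κ → ℝ) × (κ → ℝ) → ℝ) :
    ∫ p, f ((Real.sqrt 2)⁻¹ • (p.1 + p.2), (Real.sqrt 2)⁻¹ • (p.1 - p.2))
      ∂((gam κ).prod (gam κ)) = ∫ p, f p ∂((gam κ).prod (gam κ)) := by
  have hc : Real.cos (Real.pi / 4) = (Real.sqrt 2)⁻¹ := by
    rw [Real.cos_pi_div_four]
    have h := Real.sq_sqrt (show (0 : ℝ) ≤ 2 by norm_num)
    have h0 : Real.sqrt 2 ≠ 0 := by positivity
    field_simp
    exact h
  have hs : Real.sin (Real.pi / 4) = (Real.sqrt 2)⁻¹ := by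
    rw [Real.sin_pi_div_four, ← Real.cos_pi_div_four, hc]
  have h1 := integral_rotate (κ := κ) (Real.pi / 4) (fun p => f (p.1, -p.2))
  have hneg : MeasurePreserving ((MeasurableEquiv.refl (κ → ℝ)).prodCongr (MeasurableEquiv.neg (κ → ℝ)))
      ((gam κ).prod (gam κ)) ((gam κ).prod (gam κ)) :=
    (MeasurePreserving.id (gam κ)).prod Fub_neg
  have h2 : ∫ p : (κ → ℝ) × (κ → ℝ), f (p.1, -p.2) ∂((gam κ).prod (gam κ)) = ∫ p, f p ∂((gam κ).prod (gam κ)) :=
    hneg.integral_comp' f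
  rw [← h2, ← h1]
  refine integral_congr_ae (Filter.Eventually.of_forall fun p => ?_)
  show f ((Real.sqrt 2)⁻¹ • (p.1 + p.2), (Real.sqrt 2)⁻¹ • (p.1 - p.2)) =
    f (Real.cos (Real.pi / 4) • p.1 + Real.sin (Real.pi / 4) • p.2,
      -(-Real.sin (Real.pi / 4) • p.1 + Real.cos (Real.pi / 4) • p.2))
  rw [hc, hs]
  congr 2
  · rw [smul_add]
  · rw [smul_sub, neg_add, neg_smul, neg_neg, sub_eq_add_neg]

/-- reflection invariance -/
theorem gam_neg : MeasurePreserving (fun x : κ → ℝ => -x) (gam κ) (gam κ) := by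
  exact Fub_neg

theorem integral_gam_neg (f : (κ → ℝ) → ℝ) : ∫ x, f (-x) ∂(gam κ) = ∫ x, f x ∂(gam κ) := by
  have h1 : MeasurePreserving (MeasurableEquiv.neg (κ → ℝ)) (gam κ) (gam κ) := Fub_neg
  exact h1.integral_comp' f

/-- relabelling of the coordinates -/
theorem gam_equiv (e : ι ≃ κ) : MeasurePreserving (fun (x : κ → ℝ) (i : ι) => x (e i)) (gam κ) (gam ι) := by
  have h := measurePreserving_piCongrLeft (α := fun _ : ι => ℝ) (fun _ : ι => gaussianReal 0 1) e.symm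
  have e1 : (fun (x : κ → ℝ) (i : ι) => x (e i)) = ⇑(MeasurableEquiv.piCongrLeft (fun _ : ι => ℝ) e.symm) := by
    funext x i
    obtain ⟨k, rfl⟩ := e.symm.surjective i
    rw [e.apply_symm_apply]
    exact (MeasurableEquiv.piCongrLeft_apply_apply e.symm (β := fun _ : ι => ℝ) x k).symm
  rw [e1]
  exact h

end

end SKC.A
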