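import Pool.Agent.H.MP_08eaf3_pr.A.Lse

/-!
# Part A: Gibbs weights
-/

set_option autoImplicit false

open MeasureTheory ProbabilityTheory Filter Topology Matrix

namespace SKC.A

/-- Gibbs weight -/
noncomputable def gw {Ω : Type} (B : Finset Ω) (a : Ω → ℝ) (ω : Ω) : ℝ :=
  Real.exp (a ω) / ∑ ω' ∈ B, Real.exp (a ω')

/-- Gibbs average -/
noncomputable def gav {Ω : Type} (B : Finset Ω) (a : Ω → ℝ) (f : Ω → ℝ) : ℝ :=
  ∑ ω ∈ B, gw B a ω * f ω

section

variable {Ω Ω' : Type} {B : Finset Ω} {a b : Ω → ℝ}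

theorem gw_pos (hB : B.Nonempty) (a : Ω → ℝ) (ω : Ω) : 0 < gw B a ω := by
  exact div_pos (Real.exp_pos _) (Finset.sum_pos (fun _ _ => Real.exp_pos _) hB)

theorem gw_nonneg (a : Ω → ℝ) (ω : Ω) : 0 ≤ gw B a ω := by
  exact div_nonneg (Real.exp_pos _).le (Finset.sum_nonneg (fun _ _ => (Real.exp_pos _).le))

theorem sum_gw (hB : B.Nonempty) (a : Ω → ℝ) : ∑ ω ∈ B, gw B a ω = 1 := by
  have h : 0 < ∑ ω' ∈ B, Real.exp (a ω') := Finset.sum_pos (fun _ _ => Real.exp_pos _) hB
  simp only [gw]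
  rw [← Finset.sum_div]
  exact div_self h.ne'

theorem gw_le_one {ω : Ω} (h : ω ∈ B) (a : Ω → ℝ) : gw B a ω ≤ 1 := by
  rw [← sum_gw ⟨ω, h⟩ a]
  exact Finset.single_le_sum (fun ω' _ => gw_nonneg a ω') h

theorem gw_eq_exp (hB : B.Nonempty) (a : Ω → ℝ) (ω : Ω) : gw B a ω = Real.exp (a ω - lse B a) := by
  have h : 0 < ∑ ω' ∈ B, Real.exp (a ω') := Finset.sum_pos (fun _ _ => Real.exp_pos _) hB
  rw [lse, Real.exp_sub, Real.exp_log h, gw]

theorem abs_gav_le (hB : B.Nonempty) (a : Ω → ℝ) {f : Ω → ℝ} {c : ℝ} (h : ∀ ω ∈ B, |f ω| ≤ c) :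
    |gav B a f| ≤ c := by
  unfold gav
  calc |∑ ω ∈ B, gw B a ω * f ω| ≤ ∑ ω ∈ B, |gw B a ω * f ω| := Finset.abs_sum_le_sum_abs _ _
    _ ≤ ∑ ω ∈ B, gw B a ω * c := by
        refine Finset.sum_le_sum fun ω hω => ?_
        rw [abs_mul, abs_of_nonneg (gw_nonneg a ω)]
        exact mul_le_mul_of_nonneg_left (h ω hω) (gw_nonneg a ω)
    _ = c := by rw [← Finset.sum_mul, sum_gw hB a, one_mul]

theorem gav_const (hB : B.Nonempty) (a : Ω → ℝ) (c : ℝ) : gav B a (fun _ => c) = c := by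
  unfold gav
  rw [← Finset.sum_mul, sum_gw hB a, one_mul]

theorem gav_add (a : Ω → ℝ) (f g : Ω → ℝ) :
    gav B a (fun ω => f ω + g ω) = gav B a f + gav B a g := by
  unfold gav
  rw [← Finset.sum_add_distrib]
  exact Finset.sum_congr rfl fun ω _ => mul_add _ _ _

theorem gav_const_mul (a : Ω → ℝ) (c : ℝ) (f : Ω → ℝ) :
    gav B a (fun ω => c * f ω) = c * gav B a f := by
  unfold gav
  rw [Finset.mul_sum]
  exact Finset.sum_congr rfl fun ω _ => by ring

theorem gav_mono (a : Ω → ℝ) {f g : Ω → ℝ} (h : ∀ ω ∈ B, f ω ≤ g ω) : gav B a f ≤ gav B a g := by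
  exact Finset.sum_le_sum fun ω hω => mul_le_mul_of_nonneg_left (h ω hω) (gw_nonneg a ω)

theorem Gibbs_lse_add (hB : B.Nonempty) (a b : Ω → ℝ) :
    lse B (fun ω => a ω + b ω) = lse B a + Real.log (gav B a (fun ω => Real.exp (b ω))) := by
  have h : 0 < ∑ ω' ∈ B, Real.exp (a ω') := Finset.sum_pos (fun _ _ => Real.exp_pos _) hB
  have h1 : ∑ ω ∈ B, Real.exp (a ω + b ω) =
      (∑ ω' ∈ B, Real.exp (a ω')) * gav B a (fun ω => Real.exp (b ω)) := by
    unfold gav gw
    rw [Finset.mul_sum]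
    refine Finset.sum_congr rfl fun ω _ => ?_
    rw [Real.exp_add]
    field_simp
  have h2 : 0 < gav B a (fun ω => Real.exp (b ω)) :=
    Finset.sum_pos (fun ω _ => mul_pos (gw_pos hB a ω) (Real.exp_pos _)) hB
  unfold lse
  rw [h1, Real.log_mul h.ne' h2.ne']

/-- Jensen (convexity of `exp`): adding `b` changes the free energy by at least the Gibbs average -/
theorem lse_add_ge (hB : B.Nonempty) (a b : Ω → ℝ) :
    lse B a + gav B a b ≤ lse B (fun ω => a ω + b ω) := by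
  have h1 : gav B a (fun ω => Real.exp (gav B a b) * (1 + (b ω - gav B a b))) =
      Real.exp (gav B a b) := by
    rw [gav_const_mul, gav_add, gav_const hB]
    have h2 : gav B a (fun ω => b ω - gav B a b) = 0 := by
      have h3 := gav_add (B := B) a b (fun _ => -gav B a b)
      rw [gav_const hB] at h3
      simp only [← sub_eq_add_neg] at h3
      rw [h3, sub_self]
    rw [h2, add_zero, mul_one]
  have h4 : Real.exp (gav B a b) ≤ gav B a (fun ω => Real.exp (b ω)) := by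
    rw [← h1]
    refine gav_mono a fun ω _ => ?_
    have h5 := Real.add_one_le_exp (b ω - gav B a b)
    calc Real.exp (gav B a b) * (1 + (b ω - gav B a b))
        ≤ Real.exp (gav B a b) * Real.exp (b ω - gav B a b) :=
          mul_le_mul_of_nonneg_left (by linarith) (Real.exp_pos _).le
      _ = Real.exp (b ω) := by rw [← Real.exp_add]; congr 1; ring
  rw [Gibbs_lse_add hB a b]
  have h6 := (Real.le_log_iff_exp_le (lt_of_lt_of_le (Real.exp_pos _) h4)).2 h4
  linarith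

/-- the change of the free energy is the logarithm of the Gibbs average of `exp b` -/
theorem lse_add_eq (hB : B.Nonempty) (a b : Ω → ℝ) :
    lse B (fun ω => a ω + b ω) = lse B a + Real.log (gav B a (fun ω => Real.exp (b ω))) := by
  exact Gibbs_lse_add hB a b

end

end SKC.A
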