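import Pool.Agent.H.MP_08eaf3_pr.A.N

/-!
# Part A: the growth classes `EG`, `LG`
-/

set_option autoImplicit false

open MeasureTheory ProbabilityTheory Filter Topology Matrix

namespace SKC.A

section

variable {K L : Type} [Fintype K] [Fintype L]

/-! ### growth classes -/

theorem _root_.SKC.EG.cont {h : (K → ℝ) → ℝ} (hh : EG h) : Continuous h := hh.1

theorem _root_.SKC.LG.cont {h : (K → ℝ) → ℝ} (hh : LG h) : Continuous h := hh.1

/-- the constant may be taken nonnegative (and larger than any given number) -/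
theorem _root_.SKC.EG.bound {h : (K → ℝ) → ℝ} (hh : EG h) (C0 : ℝ) :
    ∃ C : ℝ, C0 ≤ C ∧ 0 < C ∧ ∀ z, |h z| ≤ C * Real.exp (C * n1 z) := by
  obtain ⟨hc, C, hC⟩ := hh
  refine ⟨max C (max C0 1), (le_max_left _ _).trans (le_max_right _ _),
    lt_of_lt_of_le one_pos ((le_max_right _ _).trans (le_max_right _ _)), fun z => (hC z).trans ?_⟩
  have h0 : (0 : ℝ) ≤ max C (max C0 1) := zero_le_one.trans ((le_max_right _ _).trans (le_max_right _ _))
  have h1 : Real.exp (C * n1 z) ≤ Real.exp (max C (max C0 1) * n1 z) :=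
    Real.exp_le_exp.mpr (mul_le_mul_of_nonneg_right (le_max_left _ _) (n1_nonneg z))
  exact mul_le_mul (le_max_left _ _) h1 (Real.exp_pos _).le h0

theorem _root_.SKC.LG.bound {h : (K → ℝ) → ℝ} (hh : LG h) (C0 : ℝ) :
    ∃ C : ℝ, C0 ≤ C ∧ 0 < C ∧ ∀ z, |h z| ≤ C * (1 + n1 z) := by
  obtain ⟨hc, C, hC⟩ := hh
  refine ⟨max C (max C0 1), (le_max_left _ _).trans (le_max_right _ _),
    lt_of_lt_of_le one_pos ((le_max_right _ _).trans (le_max_right _ _)), fun z => (hC z).trans ?_⟩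
  exact mul_le_mul_of_nonneg_right (le_max_left _ _) (by have := n1_nonneg z; linarith)

theorem _root_.SKC.EG.of_bound {h : (K → ℝ) → ℝ} (hc : Continuous h) {A B : ℝ}
    (hb : ∀ z, |h z| ≤ A * Real.exp (B * n1 z)) : EG h := by
  refine ⟨hc, max A (max B 0), fun z => (hb z).trans ?_⟩
  have h0 : (0 : ℝ) ≤ max A (max B 0) := (le_max_right _ _).trans (le_max_right _ _)
  have h1 : Real.exp (B * n1 z) ≤ Real.exp (max A (max B 0) * n1 z) :=
    Real.exp_le_exp.mpr (mul_le_mul_of_nonneg_right ((le_max_left _ _).trans (le_max_right _ _)) (n1_nonneg z))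
  exact mul_le_mul (le_max_left _ _) h1 (Real.exp_pos _).le h0

theorem _root_.SKC.EG.of_bdd {h : (K → ℝ) → ℝ} (hc : Continuous h) {A : ℝ} (hb : ∀ z, |h z| ≤ A) : EG h := by
  refine EG.of_bound (A := A) (B := 0) hc (fun z => ?_)
  rw [zero_mul, Real.exp_zero, mul_one]
  exact hb z

theorem _root_.SKC.EG.mono {h g : (K → ℝ) → ℝ} (hg : EG g) (hc : Continuous h) (hb : ∀ z, |h z| ≤ |g z|) :
    EG h := by
  obtain ⟨_, C, hC⟩ := hg
  exact ⟨hc, C, fun z => (hb z).trans (hC z)⟩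

theorem _root_.SKC.EG.const (a : ℝ) : EG (fun _ : K → ℝ => a) := by
  exact EG.of_bdd (A := |a|) continuous_const (fun _ => le_rfl)

theorem _root_.SKC.EG.coord (c : K) : EG (fun z : K → ℝ => z c) := by
  refine EG.of_bound (A := 1) (B := 1) (continuous_apply c) (fun z => ?_)
  rw [one_mul, one_mul]
  have := Real.add_one_le_exp (n1 z)
  linarith [abs_le_n1 z c]

theorem _root_.SKC.EG.dot_right (v : K → ℝ) : EG (fun z : K → ℝ => dot z v) := by
  refine EG.of_bound (A := n1 v) (B := 1) (continuous_dot_left v) (fun z => ?_)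
  rw [one_mul]
  have h1 := Real.add_one_le_exp (n1 z)
  calc |dot z v| ≤ n1 z * n1 v := abs_dot_le_n1 z v
    _ = n1 v * n1 z := mul_comm _ _
    _ ≤ n1 v * Real.exp (n1 z) := mul_le_mul_of_nonneg_left (by linarith) (n1_nonneg v)

theorem _root_.SKC.EG.exp_dot (v : K → ℝ) : EG (fun z : K → ℝ => Real.exp (dot z v)) := by
  refine EG.of_bound (A := 1) (B := n1 v) (Real.continuous_exp.comp (continuous_dot_left v)) (fun z => ?_)
  rw [one_mul, abs_of_pos (Real.exp_pos _)]
  refine Real.exp_le_exp.mpr ?_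
  calc dot z v ≤ |dot z v| := le_abs_self _
    _ ≤ n1 z * n1 v := abs_dot_le_n1 z v
    _ = n1 v * n1 z := mul_comm _ _

theorem _root_.SKC.LG.eg {f : (K → ℝ) → ℝ} (hf : LG f) : EG f := by
  obtain ⟨C, _, hC0, hC⟩ := hf.bound 0
  refine EG.of_bound (A := C) (B := 1) hf.1 (fun z => (hC z).trans ?_)
  rw [one_mul]
  have h1 := Real.add_one_le_exp (n1 z)
  exact mul_le_mul_of_nonneg_left (by linarith) hC0.le

theorem _root_.SKC.LG.exp {f : (K → ℝ) → ℝ} (hf : LG f) (m : ℝ) : EG (fun z => Real.exp (m * f z)) := by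
  obtain ⟨C, _, hC0, hC⟩ := hf.bound 0
  refine EG.of_bound (A := Real.exp (|m| * C)) (B := |m| * C)
    (Real.continuous_exp.comp (continuous_const.mul hf.1)) (fun z => ?_)
  rw [abs_of_pos (Real.exp_pos _), ← Real.exp_add]
  refine Real.exp_le_exp.mpr ?_
  calc m * f z ≤ |m * f z| := le_abs_self _
    _ = |m| * |f z| := abs_mul _ _
    _ ≤ |m| * (C * (1 + n1 z)) := mul_le_mul_of_nonneg_left (hC z) (abs_nonneg m)
    _ = |m| * C + |m| * C * n1 z := by ring

theorem _root_.SKC.EG.add {f g : (K → ℝ) → ℝ} (hf : EG f) (hg : EG g) : EG (fun z => f z + g z) := by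
  obtain ⟨C, _, hC0, hC⟩ := hf.bound 0
  obtain ⟨D, _, hD0, hD⟩ := hg.bound 0
  refine EG.of_bound (A := C + D) (B := C + D) (hf.1.add hg.1) (fun z => ?_)
  have hz := n1_nonneg z
  have h1 : Real.exp (C * n1 z) ≤ Real.exp ((C + D) * n1 z) :=
    Real.exp_le_exp.mpr (mul_le_mul_of_nonneg_right (by linarith) hz)
  have h2 : Real.exp (D * n1 z) ≤ Real.exp ((C + D) * n1 z) :=
    Real.exp_le_exp.mpr (mul_le_mul_of_nonneg_right (by linarith) hz)
  calc |f z + g z| ≤ |f z| + |g z| := abs_add_le _ _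
    _ ≤ C * Real.exp (C * n1 z) + D * Real.exp (D * n1 z) := add_le_add (hC z) (hD z)
    _ ≤ C * Real.exp ((C + D) * n1 z) + D * Real.exp ((C + D) * n1 z) :=
      add_le_add (mul_le_mul_of_nonneg_left h1 hC0.le) (mul_le_mul_of_nonneg_left h2 hD0.le)
    _ = (C + D) * Real.exp ((C + D) * n1 z) := by ring

theorem _root_.SKC.EG.sub {f g : (K → ℝ) → ℝ} (hf : EG f) (hg : EG g) : EG (fun z => f z - g z) := by
  obtain ⟨C, _, hC0, hC⟩ := hf.bound 0
  obtain ⟨D, _, hD0, hD⟩ := hg.bound 0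
  refine EG.of_bound (A := C + D) (B := C + D) (hf.1.sub hg.1) (fun z => ?_)
  have hz := n1_nonneg z
  have h1 : Real.exp (C * n1 z) ≤ Real.exp ((C + D) * n1 z) :=
    Real.exp_le_exp.mpr (mul_le_mul_of_nonneg_right (by linarith) hz)
  have h2 : Real.exp (D * n1 z) ≤ Real.exp ((C + D) * n1 z) :=
    Real.exp_le_exp.mpr (mul_le_mul_of_nonneg_right (by linarith) hz)
  calc |f z - g z| ≤ |f z| + |g z| := abs_sub _ _
    _ ≤ C * Real.exp (C * n1 z) + D * Real.exp (D * n1 z) := add_le_add (hC z) (hD z)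
    _ ≤ C * Real.exp ((C + D) * n1 z) + D * Real.exp ((C + D) * n1 z) :=
      add_le_add (mul_le_mul_of_nonneg_left h1 hC0.le) (mul_le_mul_of_nonneg_left h2 hD0.le)
    _ = (C + D) * Real.exp ((C + D) * n1 z) := by ring

theorem _root_.SKC.EG.neg {f : (K → ℝ) → ℝ} (hf : EG f) : EG (fun z => - f z) := by
  exact EG.mono hf hf.1.neg (fun z => (abs_neg _).le)

theorem _root_.SKC.EG.mul {f g : (K → ℝ) → ℝ} (hf : EG f) (hg : EG g) : EG (fun z => f z * g z) := by
  obtain ⟨C, _, hC0, hC⟩ := hf.bound 0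
  obtain ⟨D, _, hD0, hD⟩ := hg.bound 0
  refine EG.of_bound (A := C * D) (B := C + D) (hf.1.mul hg.1) (fun z => ?_)
  rw [abs_mul]
  calc |f z| * |g z| ≤ (C * Real.exp (C * n1 z)) * (D * Real.exp (D * n1 z)) :=
      mul_le_mul (hC z) (hD z) (abs_nonneg _) (mul_nonneg hC0.le (Real.exp_pos _).le)
    _ = (C * D) * (Real.exp (C * n1 z) * Real.exp (D * n1 z)) := by ring
    _ = (C * D) * Real.exp ((C + D) * n1 z) := by
      rw [← Real.exp_add]
      congr 2
      ring

theorem _root_.SKC.EG.const_mul {f : (K → ℝ) → ℝ} (hf : EG f) (a : ℝ) : EG (fun z => a * f z) := by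
  exact (EG.const a).mul hf

theorem _root_.SKC.EG.pow {f : (K → ℝ) → ℝ} (hf : EG f) (n : ℕ) : EG (fun z => f z ^ n) := by
  induction n with
  | zero =>
    simp only [pow_zero]
    exact EG.const 1
  | succ n ih =>
    simp only [pow_succ]
    exact ih.mul hf

theorem _root_.SKC.EG.abs {f : (K → ℝ) → ℝ} (hf : EG f) : EG (fun z => |f z|) := by
  exact EG.mono hf hf.1.abs (fun z => (abs_abs _).le)

theorem _root_.SKC.EG.sum {ι : Type} (s : Finset ι) {f : ι → (K → ℝ) → ℝ} (hf : ∀ i ∈ s, EG (f i)) :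
    EG (fun z => ∑ i ∈ s, f i z) := by
  classical
  induction s using Finset.induction_on with
  | empty =>
    simp only [Finset.sum_empty]
    exact EG.const 0
  | insert a s ha ih =>
    simp only [Finset.sum_insert ha]
    exact (hf a (Finset.mem_insert_self a s)).add (ih fun i hi => hf i (Finset.mem_insert_of_mem hi))

theorem _root_.SKC.EG.prod {ι : Type} (s : Finset ι) {f : ι → (K → ℝ) → ℝ} (hf : ∀ i ∈ s, EG (f i)) :
    EG (fun z => ∏ i ∈ s, f i z) := by
  classical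
  induction s using Finset.induction_on with
  | empty =>
    simp only [Finset.prod_empty]
    exact EG.const 1
  | insert a s ha ih =>
    simp only [Finset.prod_insert ha]
    exact (hf a (Finset.mem_insert_self a s)).mul (ih fun i hi => hf i (Finset.mem_insert_of_mem hi))

theorem _root_.SKC.LG.const (a : ℝ) : LG (fun _ : K → ℝ => a) := by
  refine ⟨continuous_const, |a|, fun z => ?_⟩
  have h1 := n1_nonneg z
  calc |a| = |a| * 1 := (mul_one _).symm
    _ ≤ |a| * (1 + n1 z) := mul_le_mul_of_nonneg_left (by linarith) (abs_nonneg a)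

theorem _root_.SKC.LG.dot_right (v : K → ℝ) : LG (fun z : K → ℝ => dot z v) := by
  refine ⟨continuous_dot_left v, n1 v, fun z => ?_⟩
  calc |dot z v| ≤ n1 z * n1 v := abs_dot_le_n1 z v
    _ = n1 v * n1 z := mul_comm _ _
    _ ≤ n1 v * (1 + n1 z) := mul_le_mul_of_nonneg_left (by linarith) (n1_nonneg v)

theorem _root_.SKC.LG.add {f g : (K → ℝ) → ℝ} (hf : LG f) (hg : LG g) : LG (fun z => f z + g z) := by
  obtain ⟨hfc, C, hC⟩ := hf
  obtain ⟨hgc, D, hD⟩ := hg
  refine ⟨hfc.add hgc, C + D, fun z => ?_⟩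
  calc |f z + g z| ≤ |f z| + |g z| := abs_add_le _ _
    _ ≤ C * (1 + n1 z) + D * (1 + n1 z) := add_le_add (hC z) (hD z)
    _ = (C + D) * (1 + n1 z) := by ring

theorem _root_.SKC.LG.const_mul {f : (K → ℝ) → ℝ} (hf : LG f) (a : ℝ) : LG (fun z => a * f z) := by
  obtain ⟨hfc, C, hC⟩ := hf
  refine ⟨continuous_const.mul hfc, |a| * C, fun z => ?_⟩
  rw [abs_mul, mul_assoc]
  exact mul_le_mul_of_nonneg_left (hC z) (abs_nonneg a)

theorem Growth_comp {h : (K → ℝ) → ℝ} (hh : EG h) {φ : (L → ℝ) → (K → ℝ)} (hφ : Continuous φ) {a b : ℝ}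
    (hb : ∀ x, n1 (φ x) ≤ a + b * n1 x) : EG (fun x => h (φ x)) := by
  obtain ⟨C, _, hC0, hC⟩ := hh.bound 0
  refine EG.of_bound (A := C * Real.exp (C * a)) (B := C * b) (hh.1.comp hφ) (fun x => (hC (φ x)).trans ?_)
  rw [mul_assoc, ← Real.exp_add]
  refine mul_le_mul_of_nonneg_left (Real.exp_le_exp.mpr ?_) hC0.le
  calc C * n1 (φ x) ≤ C * (a + b * n1 x) := mul_le_mul_of_nonneg_left (hb x) hC0.le
    _ = C * a + C * b * n1 x := by ring

theorem Growth_affine_cont (z : K → ℝ) (M : Matrix K L ℝ) : Continuous (fun x : L → ℝ => z + M.mulVec x) :=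
  continuous_const.add (Continuous.matrix_mulVec continuous_const continuous_id)

theorem Growth_affine_le (z : K → ℝ) (M : Matrix K L ℝ) (x : L → ℝ) :
    n1 (z + M.mulVec x) ≤ n1 z + (∑ i, ∑ j, |M i j|) * n1 x :=
  (n1_add_le _ _).trans (add_le_add le_rfl (n1_mulVec_le M x))

/-- composition with an affine map -/
theorem _root_.SKC.EG.comp_affine {h : (K → ℝ) → ℝ} (hh : EG h) (z : K → ℝ) (M : Matrix K L ℝ) :
    EG (fun x : L → ℝ => h (z + M.mulVec x)) := by
  exact Growth_comp hh (Growth_affine_cont z M) (Growth_affine_le z M)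

theorem _root_.SKC.LG.comp_affine {h : (K → ℝ) → ℝ} (hh : LG h) (z : K → ℝ) (M : Matrix K L ℝ) :
    LG (fun x : L → ℝ => h (z + M.mulVec x)) := by
  obtain ⟨C, _, hC0, hC⟩ := hh.bound 0
  refine ⟨hh.1.comp (Growth_affine_cont z M), C * (1 + n1 z + ∑ i, ∑ j, |M i j|), fun x => (hC _).trans ?_⟩
  have h1 := Growth_affine_le z M x
  have h2 := n1_nonneg z
  have h3 := n1_nonneg x
  have h4 : (0 : ℝ) ≤ ∑ i, ∑ j, |M i j| := Finset.sum_nonneg fun _ _ => Finset.sum_nonneg fun _ _ => abs_nonneg _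
  rw [mul_assoc]
  refine mul_le_mul_of_nonneg_left ?_ hC0.le
  nlinarith [mul_nonneg h2 h3, mul_nonneg h4 h3]

theorem _root_.SKC.EG.comp_add {h : (K → ℝ) → ℝ} (hh : EG h) (z : K → ℝ) : EG (fun x => h (z + x)) := by
  exact Growth_comp (a := n1 z) (b := 1) hh (continuous_const.add continuous_id)
    (fun x => (n1_add_le _ _).trans (by rw [one_mul]))

theorem _root_.SKC.EG.comp_smul_add {h : (K → ℝ) → ℝ} (hh : EG h) (z : K → ℝ) (a : ℝ) :
    EG (fun x => h (z + a • x)) := by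
  exact Growth_comp (a := n1 z) (b := |a|) hh (continuous_const.add (continuous_const_smul a))
    (fun x => (n1_add_le _ _).trans (by rw [n1_smul]))

theorem _root_.SKC.EG.comp_neg {h : (K → ℝ) → ℝ} (hh : EG h) : EG (fun x => h (-x)) := by
  exact Growth_comp (a := 0) (b := 1) hh continuous_neg (fun x => by rw [n1_neg, zero_add, one_mul])

/-- bound which is uniform in the base point -/
theorem _root_.SKC.EG.bound_affine {h : (K → ℝ) → ℝ} (hh : EG h) (M : Matrix K L ℝ) :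
    ∃ C : ℝ, 0 < C ∧ ∀ z x, |h (z + M.mulVec x)| ≤ C * Real.exp (C * n1 z) * Real.exp (C * n1 x) := by
  obtain ⟨C, _, hC0, hC⟩ := hh.bound 0
  have h4 : (0 : ℝ) ≤ ∑ i, ∑ j, |M i j| := Finset.sum_nonneg fun _ _ => Finset.sum_nonneg fun _ _ => abs_nonneg _
  set m : ℝ := ∑ i, ∑ j, |M i j| with hm
  refine ⟨C * (1 + m), mul_pos hC0 (by linarith), fun z x => (hC _).trans ?_⟩
  have h1 := Growth_affine_le z M x
  rw [← hm] at h1
  have h2 := n1_nonneg z
  have h3 := n1_nonneg x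
  rw [mul_assoc, ← Real.exp_add]
  have e1 : Real.exp (C * n1 (z + M.mulVec x)) ≤ Real.exp (C * (1 + m) * n1 z + C * (1 + m) * n1 x) := by
    refine Real.exp_le_exp.mpr ?_
    calc C * n1 (z + M.mulVec x) ≤ C * (n1 z + m * n1 x) := mul_le_mul_of_nonneg_left h1 hC0.le
      _ ≤ C * ((1 + m) * n1 z + (1 + m) * n1 x) := by
        refine mul_le_mul_of_nonneg_left ?_ hC0.le
        nlinarith [mul_nonneg h4 h2]
      _ = C * (1 + m) * n1 z + C * (1 + m) * n1 x := by ring
  refine mul_le_mul ?_ e1 (Real.exp_pos _).le (mul_nonneg hC0.le (by linarith))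
  nlinarith [mul_nonneg hC0.le h4]

end

end SKC.A
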