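import Pool.Agent.H.MP_08eaf3_pr.A.DerEL

/-!
# Part A: A2, Gaussian comparison
-/

set_option autoImplicit false

open MeasureTheory ProbabilityTheory Filter Topology Matrix

namespace SKC.A

section

variable {Ω κ κ' : Type} [Fintype κ] [Fintype κ'] {B : Finset Ω}

/-- features of the rotated pair of fields -/
noncomputable def vrot (v : Ω → κ → ℝ) (v' : Ω → κ' → ℝ) (θ : ℝ) (ω : Ω) : κ ⊕ κ' → ℝ :=
  Sum.elim (Real.cos θ • v ω) (Real.sin θ • v' ω)

theorem Interp_EL_congr (B : Finset Ω) (v : Ω → κ → ℝ) (v' : Ω → κ' → ℝ) (a : Ω → ℝ)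
    (h : ∀ ω ∈ B, ∀ ω' ∈ B, dot (v ω) (v ω') = dot (v' ω) (v' ω')) : EL B v a = EL B v' a := by
  have hg : Measurable (fun y : {ω // ω ∈ B} → ℝ =>
      Real.log (∑ ω : {ω // ω ∈ B}, Real.exp (y ω + a ω))) := by
    fun_prop
  have key : ∀ {κ₀ : Type} [Fintype κ₀] (w : Ω → κ₀ → ℝ), EL B w a =
      ∫ y, Real.log (∑ ω : {ω // ω ∈ B}, Real.exp (y ω + a ω))
        ∂((gam κ₀).map (fun x (ω : {ω // ω ∈ B}) => dot x (w ω))) := by
    intro κ₀ _ w
    have hT : Measurable (fun (x : κ₀ → ℝ) (ω : {ω // ω ∈ B}) => dot x (w ω)) :=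
      measurable_pi_lambda _ (fun ω : {ω // ω ∈ B} => (continuous_dot_left (w ω)).measurable)
    rw [integral_map hT.aemeasurable hg.aestronglyMeasurable]
    unfold EL lse
    refine integral_congr_ae (Eventually.of_forall fun x => ?_)
    show Real.log (∑ ω ∈ B, Real.exp (dot x (w ω) + a ω)) =
      Real.log (∑ ω : {ω // ω ∈ B}, Real.exp (dot x (w ω) + a ω))
    rw [← Finset.sum_coe_sort B (fun ω => Real.exp (dot x (w ω) + a ω))]
  rw [key v, key v']
  rw [law_map_field_eq (fun ω : {ω // ω ∈ B} => v ω) (fun ω : {ω // ω ∈ B} => v' ω)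
    (fun ω ω' => h ω ω.2 ω' ω'.2)]

theorem Interp_aux (F F' : ℝ → ℝ) (κ0 : ℝ)
    (hF : ∀ θ, HasDerivAt F (Real.sin θ * Real.cos θ * F' θ) θ) (hb : ∀ θ, F' θ ≤ 2 * κ0) :
    F (Real.pi / 2) ≤ F 0 + κ0 := by
  have hH : ∀ θ, HasDerivAt (fun θ => F θ + κ0 * Real.cos θ ^ 2)
      (Real.sin θ * Real.cos θ * (F' θ - 2 * κ0)) θ := by
    intro θ
    have h1 := (hF θ).add (((Real.hasDerivAt_cos θ).pow 2).const_mul κ0)
    refine h1.congr_deriv ?_
    simp
    ring
  have hA : AntitoneOn (fun θ => F θ + κ0 * Real.cos θ ^ 2) (Set.Icc 0 (Real.pi / 2)) := by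
    refine antitoneOn_of_deriv_nonpos (convex_Icc _ _)
      (fun θ _ => (hH θ).continuousAt.continuousWithinAt)
      (fun θ _ => (hH θ).differentiableAt.differentiableWithinAt) ?_
    intro θ hθ
    rw [interior_Icc] at hθ
    rw [(hH θ).deriv]
    have hs : 0 ≤ Real.sin θ := Real.sin_nonneg_of_nonneg_of_le_pi hθ.1.le
      (by linarith [hθ.2, Real.pi_pos])
    have hc : 0 ≤ Real.cos θ := Real.cos_nonneg_of_neg_pi_div_two_le_of_le
      (by linarith [hθ.1, Real.pi_pos]) hθ.2.le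
    exact mul_nonpos_of_nonneg_of_nonpos (mul_nonneg hs hc) (by linarith [hb θ])
  have h0 : (0 : ℝ) ∈ Set.Icc 0 (Real.pi / 2) := ⟨le_rfl, by linarith [Real.pi_pos]⟩
  have h1 : Real.pi / 2 ∈ Set.Icc 0 (Real.pi / 2) := ⟨by linarith [Real.pi_pos], le_rfl⟩
  have h2 := hA h0 h1 h0.2
  simp only [Real.cos_pi_div_two, Real.cos_zero] at h2
  linarith

/-- A2, the derivative along the rotation -/
theorem hasDerivAt_EL_vrot (hB : B.Nonempty) (v : Ω → κ → ℝ) (v' : Ω → κ' → ℝ) (a : Ω → ℝ) (θ : ℝ) :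
    HasDerivAt (fun θ => EL B (vrot v v' θ) a)
      (Real.sin θ * Real.cos θ * ∫ x,
        (gav B (fun ω => dot x (vrot v v' θ ω) + a ω) (fun ω => dot (v' ω) (v' ω) - dot (v ω) (v ω)) -
        gav B (fun ω => dot x (vrot v v' θ ω) + a ω) (fun ω =>
          gav B (fun ω => dot x (vrot v v' θ ω) + a ω)
            (fun ω' => dot (v' ω) (v' ω') - dot (v ω) (v ω')))) ∂(gam (κ ⊕ κ'))) θ := by
  have hC0 : 0 ≤ ∑ ω ∈ B, (n1 (v ω) + n1 (v' ω)) :=
    Finset.sum_nonneg fun ω _ => add_nonneg (n1_nonneg _) (n1_nonneg _)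
  have hC1 : ∀ ω ∈ B, n1 (v ω) + n1 (v' ω) ≤ ∑ ω ∈ B, (n1 (v ω) + n1 (v' ω)) := fun ω hω =>
    Finset.single_le_sum (f := fun ω => n1 (v ω) + n1 (v' ω))
      (fun ω _ => add_nonneg (n1_nonneg _) (n1_nonneg _)) hω
  have key : ∀ ω ω', dot (Sum.elim (-(Real.sin θ) • v ω) (Real.cos θ • v' ω)) (vrot v v' θ ω') =
      (Real.sin θ * Real.cos θ) * (dot (v' ω) (v' ω') - dot (v ω) (v ω')) := by
    intro ω ω'
    unfold vrot
    rw [dot_sum_elim, dot_smul_left, dot_smul_right, dot_smul_left, dot_smul_right]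
    ring
  have h := hasDerivAt_EL hB (fun θ => vrot v v' θ)
    (fun θ ω => Sum.elim (-(Real.sin θ) • v ω) (Real.cos θ • v' ω)) (fun _ => a) (fun _ _ => 0) θ
    (∑ ω ∈ B, (n1 (v ω) + n1 (v' ω)))
    (by
      intro t _ ω _ i
      rcases i with i | i
      · exact (Real.hasDerivAt_cos t).mul_const (v ω i)
      · exact (Real.hasDerivAt_sin t).mul_const (v' ω i))
    (fun t _ ω _ => hasDerivAt_const t (a ω))
    (by
      intro t _ ω hω i
      rcases i with i | i
      · show |-(Real.sin t) * v ω i| ≤ _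
        rw [abs_mul, abs_neg]
        calc |Real.sin t| * |v ω i| ≤ 1 * |v ω i| :=
              mul_le_mul_of_nonneg_right (Real.abs_sin_le_one t) (abs_nonneg _)
          _ = |v ω i| := one_mul _
          _ ≤ n1 (v ω) := abs_le_n1 _ _
          _ ≤ n1 (v ω) + n1 (v' ω) := le_add_of_nonneg_right (n1_nonneg _)
          _ ≤ _ := hC1 ω hω
      · show |Real.cos t * v' ω i| ≤ _
        rw [abs_mul]
        calc |Real.cos t| * |v' ω i| ≤ 1 * |v' ω i| :=
              mul_le_mul_of_nonneg_right (Real.abs_cos_le_one t) (abs_nonneg _)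
          _ = |v' ω i| := one_mul _
          _ ≤ n1 (v' ω) := abs_le_n1 _ _
          _ ≤ n1 (v ω) + n1 (v' ω) := le_add_of_nonneg_left (n1_nonneg _)
          _ ≤ _ := hC1 ω hω)
    (by
      intro t _ ω _
      simpa using hC0)
  refine h.congr_deriv ?_
  rw [← integral_const_mul]
  refine integral_congr_ae (Eventually.of_forall fun x => ?_)
  simp only [key, add_zero, gav_const_mul, ← mul_sub]

theorem EL_vrot_zero (B : Finset Ω) (v : Ω → κ → ℝ) (v' : Ω → κ' → ℝ) (a : Ω → ℝ) :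
    EL B (vrot v v' 0) a = EL B v a := by
  refine Interp_EL_congr B _ _ a fun ω _ ω' _ => ?_
  unfold vrot
  rw [dot_sum_elim, dot_smul_left, dot_smul_right, dot_smul_left, dot_smul_right, Real.cos_zero,
    Real.sin_zero]
  ring

theorem EL_vrot_pi (B : Finset Ω) (v : Ω → κ → ℝ) (v' : Ω → κ' → ℝ) (a : Ω → ℝ) :
    EL B (vrot v v' (Real.pi / 2)) a = EL B v' a := by
  refine Interp_EL_congr B _ _ a fun ω _ ω' _ => ?_
  unfold vrot
  rw [dot_sum_elim, dot_smul_left, dot_smul_right, dot_smul_left, dot_smul_right,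
    Real.cos_pi_div_two, Real.sin_pi_div_two]
  ring

/-- A2 (i): `law_map_field_eq` on the subtype `B` -/
theorem EL_congr (B : Finset Ω) (v : Ω → κ → ℝ) (v' : Ω → κ' → ℝ) (a : Ω → ℝ)
    (h : ∀ ω ∈ B, ∀ ω' ∈ B, dot (v ω) (v ω') = dot (v' ω) (v' ω')) : EL B v a = EL B v' a := by
  exact Interp_EL_congr B v v' a h

/-- A2 (ii) for one kernel: the two fields differ by at most `κ0`. The function
`EL B (vrot v v' θ) a + κ0 cos²θ` (derivative `F'(θ) - 2 κ0 sin θ cos θ ≤ 0` on `[0, π/2]`, since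
`|F'| ≤ 2 κ0 sin θ cos θ`) is antitone; symmetric for the other sign. -/
theorem EL_sub_le (B : Finset Ω) (hB : B.Nonempty)
    (v : Ω → κ → ℝ) (v' : Ω → κ' → ℝ) (a : Ω → ℝ) (κ0 : ℝ)
    (h : ∀ ω ∈ B, ∀ ω' ∈ B, |dot (v ω) (v ω') - dot (v' ω) (v' ω')| ≤ κ0) :
    |EL B v a - EL B v' a| ≤ κ0 := by
  have hb : ∀ θ, |∫ x,
        (gav B (fun ω => dot x (vrot v v' θ ω) + a ω) (fun ω => dot (v' ω) (v' ω) - dot (v ω) (v ω)) -
        gav B (fun ω => dot x (vrot v v' θ ω) + a ω) (fun ω =>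
          gav B (fun ω => dot x (vrot v v' θ ω) + a ω)
            (fun ω' => dot (v' ω) (v' ω') - dot (v ω) (v ω')))) ∂(gam (κ ⊕ κ'))| ≤ 2 * κ0 := by
    intro θ
    have h1 := norm_integral_le_of_norm_le_const (μ := gam (κ ⊕ κ')) (C := 2 * κ0) (f := fun x =>
        (gav B (fun ω => dot x (vrot v v' θ ω) + a ω) (fun ω => dot (v' ω) (v' ω) - dot (v ω) (v ω)) -
        gav B (fun ω => dot x (vrot v v' θ ω) + a ω) (fun ω =>
          gav B (fun ω => dot x (vrot v v' θ ω) + a ω)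
            (fun ω' => dot (v' ω) (v' ω') - dot (v ω) (v ω')))))
      (Eventually.of_forall fun x => by
        rw [Real.norm_eq_abs]
        have e1 : |gav B (fun ω => dot x (vrot v v' θ ω) + a ω)
            (fun ω => dot (v' ω) (v' ω) - dot (v ω) (v ω))| ≤ κ0 :=
          abs_gav_le hB _ fun ω hω => by
            rw [abs_sub_comm]
            exact h ω hω ω hω
        have e2 : |gav B (fun ω => dot x (vrot v v' θ ω) + a ω) (fun ω =>
            gav B (fun ω => dot x (vrot v v' θ ω) + a ω)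
              (fun ω' => dot (v' ω) (v' ω') - dot (v ω) (v ω')))| ≤ κ0 :=
          abs_gav_le hB _ fun ω hω => abs_gav_le hB _ fun ω' hω' => by
            rw [abs_sub_comm]
            exact h ω hω ω' hω'
        rw [abs_le] at e1 e2 ⊢
        constructor <;> linarith [e1.1, e1.2, e2.1, e2.2])
    rw [Real.norm_eq_abs] at h1
    simpa using h1
  rw [abs_le]
  constructor
  · have h2 := Interp_aux (fun θ => EL B (vrot v v' θ) a) _ κ0
      (fun θ => hasDerivAt_EL_vrot hB v v' a θ) (fun θ => (abs_le.mp (hb θ)).2)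
    simp only [EL_vrot_zero, EL_vrot_pi] at h2
    linarith
  · have h2 := Interp_aux (fun θ => - EL B (vrot v v' θ) a) _ κ0
      (fun θ => ((hasDerivAt_EL_vrot hB v v' a θ).neg).congr_deriv (mul_neg _ _).symm)
      (fun θ => by linarith [(abs_le.mp (hb θ)).1])
    simp only [EL_vrot_zero, EL_vrot_pi] at h2
    linarith

end

end SKC.A
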