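import Pool.Agent.H.MP_08eaf3_pr.A.Integ

/-!
# Part A: A0, laws of linear images
-/

set_option autoImplicit false

open MeasureTheory ProbabilityTheory Filter Topology Matrix

namespace SKC.A

section

variable {ι κ κ' : Type} [Fintype ι] [Fintype κ] [Fintype κ']

/-- -/
theorem Law_cf1 (L : StrongDual ℝ ℝ) :
    charFunDual (gaussianReal 0 1) L = Complex.exp (-((L 1 ^ 2 : ℝ) : ℂ) / 2) := by
  have h : charFunDual (gaussianReal 0 1) L = charFun (gaussianReal 0 1) (L 1) := by
    rw [charFunDual_apply, charFun_apply_real]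
    congr 1
    ext x
    have hx : L x = x * L 1 := by
      have := L.map_smul x 1
      simpa using this
    rw [hx]
    push_cast
    ring_nf
  rw [h, charFun_gaussianReal]
  congr 1
  push_cast
  simp only [mul_zero, zero_mul, one_mul]
  ring

/-- -/
theorem Law_dual_apply [DecidableEq ι] (L : StrongDual ℝ (ι → ℝ)) (x : ι → ℝ) :
    L x = ∑ i, x i * L (Pi.single i 1) := by
  have h : x = ∑ i, x i • (Pi.single i (1 : ℝ) : ι → ℝ) := by
    ext j
    simp [Finset.sum_apply, Pi.single_apply]
  conv_lhs => rw [h]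
  rw [map_sum]
  apply Finset.sum_congr rfl
  intro i _
  rw [map_smul, smul_eq_mul]

/-- characteristic function of the standard Gaussian vector: `charFunDual_pi` and
`charFun_gaussianReal` (or `charFunDual_eq_charFun_map_one`) -/
theorem charFunDual_gam [DecidableEq κ] (L : StrongDual ℝ (κ → ℝ)) :
    charFunDual (gam κ) L = Complex.exp (-((∑ i, L (Pi.single i 1) ^ 2 : ℝ) : ℂ) / 2) := by
  unfold gam
  rw [charFunDual_pi]
  have h1 : ∀ i : κ, charFunDual (gaussianReal 0 1) (L.comp (.single ℝ (fun _ : κ => ℝ) i)) =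
      Complex.exp (-((L (Pi.single i 1) ^ 2 : ℝ) : ℂ) / 2) := by
    intro i
    rw [Law_cf1]
    simp
  rw [Finset.prod_congr rfl (fun i _ => h1 i), ← Complex.exp_sum]
  congr 1
  push_cast
  rw [← Finset.sum_div, Finset.sum_neg_distrib]

/-- -/
theorem Law_key [DecidableEq ι] [DecidableEq κ] (N : Matrix ι κ ℝ) (L : StrongDual ℝ (ι → ℝ)) :
    charFunDual ((gam κ).map (fun x => N.mulVec x)) L =
      Complex.exp (-((∑ i, ∑ j, L (Pi.single i 1) * L (Pi.single j 1) * (N * Nᵀ) i j : ℝ) : ℂ) / 2) := by
  have h1 : (fun x => N.mulVec x) = (LinearMap.toContinuousLinearMap (Matrix.mulVecLin N)) := by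
    ext x
    simp
  rw [h1, charFunDual_map, charFunDual_gam]
  congr 4
  have h2 : ∀ k, (L.comp (LinearMap.toContinuousLinearMap (Matrix.mulVecLin N))) (Pi.single k 1) =
      ∑ i, N i k * L (Pi.single i 1) := by
    intro k
    rw [ContinuousLinearMap.comp_apply, Law_dual_apply L]
    simp
  simp only [h2]
  have h3 : ∀ k, (∑ i, N i k * L (Pi.single i 1)) ^ 2 =
      ∑ i, ∑ j, L (Pi.single i 1) * L (Pi.single j 1) * (N i k * N j k) := by
    intro k
    rw [sq, Finset.sum_mul_sum]
    apply Finset.sum_congr rfl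
    intro i _
    apply Finset.sum_congr rfl
    intro j _
    ring
  simp only [h3]
  rw [Finset.sum_comm]
  apply Finset.sum_congr rfl
  intro i _
  rw [Finset.sum_comm]
  apply Finset.sum_congr rfl
  intro j _
  rw [← Finset.mul_sum, Matrix.mul_apply]
  simp [Matrix.transpose_apply]

/-- A0. `Measure.ext_of_charFunDual`, `charFunDual_map`, `charFunDual_gam`; with `l i = L (single i 1)`
the exponent is `- l (M Mᵀ) l / 2`. -/
theorem law_map_linear_eq (M : Matrix ι κ ℝ) (M' : Matrix ι κ' ℝ) (h : M * Mᵀ = M' * M'ᵀ) :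
    (gam κ).map (fun x => M.mulVec x) = (gam κ').map (fun x => M'.mulVec x) := by
  classical
  apply Measure.ext_of_charFunDual
  funext L
  rw [Law_key, Law_key, h]

/-- A0'. `law_map_linear_eq` for the matrix `M ω i = v ω i` -/
theorem law_map_field_eq {Ω : Type} [Fintype Ω]
    (v : Ω → κ → ℝ) (v' : Ω → κ' → ℝ) (h : ∀ ω ω', dot (v ω) (v ω') = dot (v' ω) (v' ω')) :
    (gam κ).map (fun x ω => dot x (v ω)) = (gam κ').map (fun x ω => dot x (v' ω)) := by
  have h1 := law_map_linear_eq (Matrix.of v) (Matrix.of v')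
    (by
      ext ω ω'
      rw [Matrix.mul_apply, Matrix.mul_apply]
      have := h ω ω'
      unfold dot at this
      simpa [Matrix.transpose_apply] using this)
  have h2 : ∀ {κ0 : Type} [Fintype κ0] (u : Ω → κ0 → ℝ),
      (fun (x : κ0 → ℝ) => (Matrix.of u).mulVec x) =
        fun x ω => dot x (u ω) := by
    intro κ0 _ u
    funext x ω
    unfold dot Matrix.mulVec dotProduct
    apply Finset.sum_congr rfl
    intro i _
    show u ω i * x i = x i * u ω i
    ring
  rw [h2, h2] at h1
  exact h1

/-- the standard Gaussian vector is a Gaussian measure (`isGaussian_of_charFunDual_eq` or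
`isGaussian_iff_charFunDual_eq`, or `iIndepFun.hasGaussianLaw` for the coordinates) -/
instance isGaussian_gam : IsGaussian (gam κ) := by
  classical
  apply isGaussian_of_map_eq_gaussianReal
  intro L
  refine ⟨0, (∑ i, L (Pi.single i 1) ^ 2).toNNReal, ?_⟩
  apply Measure.ext_of_charFun
  ext t
  rw [charFun_map_eq_charFunDual_smul, charFunDual_gam, charFun_gaussianReal]
  congr 1
  rw [Real.coe_toNNReal _ (Finset.sum_nonneg (fun i _ => sq_nonneg _))]
  have h1 : ∀ i, (t • L) (Pi.single i 1) ^ 2 = t ^ 2 * L (Pi.single i 1) ^ 2 := by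
    intro i
    rw [_root_.smul_apply, smul_eq_mul]
    ring
  simp only [h1]
  rw [← Finset.mul_sum]
  push_cast
  ring

end

end SKC.A
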