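import Pool.Agent.H.MP_08eaf3_pr.A.N

/-!
# Part A: log-sum-exp
-/

set_option autoImplicit false

open MeasureTheory ProbabilityTheory Filter Topology Matrix

namespace SKC.A

section

variable {Ω Ω' : Type} {B : Finset Ω} {a b : Ω → ℝ}

theorem sum_exp_pos (hB : B.Nonempty) (a : Ω → ℝ) : 0 < ∑ ω ∈ B, Real.exp (a ω) := by
  exact Finset.sum_pos (fun ω _ => Real.exp_pos _) hB

theorem exp_lse (hB : B.Nonempty) (a : Ω → ℝ) : Real.exp (lse B a) = ∑ ω ∈ B, Real.exp (a ω) := by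
  exact Real.exp_log (sum_exp_pos hB a)

theorem lse_congr (h : ∀ ω ∈ B, a ω = b ω) : lse B a = lse B b := by
  unfold lse
  rw [Finset.sum_congr rfl fun ω hω => by rw [h ω hω]]

theorem lse_add_const (hB : B.Nonempty) (a : Ω → ℝ) (c : ℝ) :
    lse B (fun ω => a ω + c) = lse B a + c := by
  unfold lse
  have h1 : ∑ ω ∈ B, Real.exp (a ω + c) = (∑ ω ∈ B, Real.exp (a ω)) * Real.exp c := by
    rw [Finset.sum_mul]
    exact Finset.sum_congr rfl fun ω _ => Real.exp_add _ _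
  rw [h1, Real.log_mul (sum_exp_pos hB a).ne' (Real.exp_pos c).ne', Real.log_exp]

theorem lse_mono (hB : B.Nonempty) (h : ∀ ω ∈ B, a ω ≤ b ω) : lse B a ≤ lse B b := by
  exact Real.log_le_log (sum_exp_pos hB a)
    (Finset.sum_le_sum fun ω hω => Real.exp_le_exp.2 (h ω hω))

theorem lse_subset {B' : Finset Ω} (hB : B.Nonempty) (h : B ⊆ B') (a : Ω → ℝ) :
    lse B a ≤ lse B' a := by
  exact Real.log_le_log (sum_exp_pos hB a)
    (Finset.sum_le_sum_of_subset_of_nonneg h fun _ _ _ => (Real.exp_pos _).le)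

theorem le_lse {ω : Ω} (h : ω ∈ B) (a : Ω → ℝ) : a ω ≤ lse B a := by
  have hB : B.Nonempty := ⟨ω, h⟩
  unfold lse
  rw [Real.le_log_iff_exp_le (sum_exp_pos hB a)]
  exact Finset.single_le_sum (f := fun ω => Real.exp (a ω)) (fun _ _ => (Real.exp_pos _).le) h

theorem lse_le (hB : B.Nonempty) {c : ℝ} (h : ∀ ω ∈ B, a ω ≤ c) :
    lse B a ≤ Real.log B.card + c := by
  have h1 : ∑ ω ∈ B, Real.exp (a ω) ≤ (B.card : ℝ) * Real.exp c := by
    have h2 : ∑ ω ∈ B, Real.exp (a ω) ≤ ∑ _ω ∈ B, Real.exp c :=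
      Finset.sum_le_sum fun ω hω => Real.exp_le_exp.2 (h ω hω)
    rwa [Finset.sum_const, nsmul_eq_mul] at h2
  have hc : (B.card : ℝ) ≠ 0 := by
    exact_mod_cast (Finset.card_pos.2 hB).ne'
  have h2 := Real.log_le_log (sum_exp_pos hB a) h1
  rwa [Real.log_mul hc (Real.exp_pos c).ne', Real.log_exp] at h2

theorem abs_lse_le (hB : B.Nonempty) {c : ℝ} (h : ∀ ω ∈ B, |a ω| ≤ c) :
    |lse B a| ≤ Real.log B.card + c := by
  obtain ⟨ω, hω⟩ := hB
  have hB : B.Nonempty := ⟨ω, hω⟩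
  have h1 := lse_le hB fun ω hω => (le_abs_self _).trans (h ω hω)
  have h2 := le_lse hω a
  have h3 := neg_abs_le (a ω)
  have h4 := h ω hω
  have h5 : 0 ≤ Real.log (B.card : ℝ) := Real.log_natCast_nonneg _
  rw [abs_le]
  constructor <;> linarith

theorem lse_const (hB : B.Nonempty) (c : ℝ) : lse B (fun _ => c) = Real.log B.card + c := by
  unfold lse
  have hc : (B.card : ℝ) ≠ 0 := by
    exact_mod_cast (Finset.card_pos.2 hB).ne'
  rw [Finset.sum_const, nsmul_eq_mul, Real.log_mul hc (Real.exp_pos c).ne', Real.log_exp]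

theorem abs_lse_sub_le (hB : B.Nonempty) {c : ℝ} (h : ∀ ω ∈ B, |a ω - b ω| ≤ c) :
    |lse B a - lse B b| ≤ c := by
  have h1 : lse B a ≤ lse B b + c := by
    rw [← lse_add_const hB b c]
    refine lse_mono hB fun ω hω => ?_
    have := (abs_le.1 (h ω hω)).2
    linarith
  have h2 : lse B b ≤ lse B a + c := by
    rw [← lse_add_const hB a c]
    refine lse_mono hB fun ω hω => ?_
    have := (abs_le.1 (h ω hω)).1
    linarith
  rw [abs_le]
  constructor <;> linarith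

theorem lse_singleton (ω : Ω) (a : Ω → ℝ) : lse {ω} a = a ω := by
  unfold lse
  rw [Finset.sum_singleton, Real.log_exp]

theorem lse_map (e : Ω' ↪ Ω) (B : Finset Ω') (a : Ω → ℝ) : lse (B.map e) a = lse B (fun ω => a (e ω)) := by
  unfold lse
  rw [Finset.sum_map]

theorem lse_image [DecidableEq Ω] (e : Ω' → Ω) (B : Finset Ω') (he : Set.InjOn e B) (a : Ω → ℝ) :
    lse (B.image e) a = lse B (fun ω => a (e ω)) := by
  unfold lse
  rw [Finset.sum_image he]

theorem lse_product (hB : B.Nonempty) {B' : Finset Ω'} (hB' : B'.Nonempty) (a : Ω → ℝ) (b : Ω' → ℝ) :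
    lse (B ×ˢ B') (fun p => a p.1 + b p.2) = lse B a + lse B' b := by
  unfold lse
  have h1 : ∑ p ∈ B ×ˢ B', Real.exp (a p.1 + b p.2) =
      (∑ ω ∈ B, Real.exp (a ω)) * ∑ ω' ∈ B', Real.exp (b ω') := by
    rw [Finset.sum_product, Finset.sum_mul]
    refine Finset.sum_congr rfl fun ω _ => ?_
    rw [Finset.mul_sum]
    exact Finset.sum_congr rfl fun ω' _ => Real.exp_add _ _
  rw [h1, Real.log_mul (sum_exp_pos hB a).ne' (sum_exp_pos hB' b).ne']

/-- a sum over a product set computed fibrewise -/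
theorem lse_product_fibre (hB : B.Nonempty) {B' : Finset Ω'} (hB' : B'.Nonempty) (a : Ω × Ω' → ℝ) :
    lse (B ×ˢ B') a = lse B (fun ω => lse B' (fun ω' => a (ω, ω'))) := by
  have _ := hB
  have h1 : ∀ ω, Real.exp (lse B' fun ω' => a (ω, ω')) = ∑ ω' ∈ B', Real.exp (a (ω, ω')) :=
    fun ω => exp_lse hB' _
  change Real.log (∑ p ∈ B ×ˢ B', Real.exp (a p)) =
    Real.log (∑ ω ∈ B, Real.exp (lse B' fun ω' => a (ω, ω')))
  rw [Finset.sum_product]
  simp only [h1]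

theorem Lse_sum_biUnion {J : Type} [DecidableEq Ω] (s : Finset J) (E : J → Finset Ω) (f : Ω → ℝ)
    (hf : ∀ ω, 0 ≤ f ω) : ∑ ω ∈ s.biUnion E, f ω ≤ ∑ j ∈ s, ∑ ω ∈ E j, f ω := by
  classical
  induction s using Finset.induction_on with
  | empty => simp
  | insert j s hj ih =>
    rw [Finset.biUnion_insert, Finset.sum_insert hj]
    have h1 := Finset.sum_union_inter (s₁ := E j) (s₂ := s.biUnion E) (f := f)
    have h2 : 0 ≤ ∑ ω ∈ E j ∩ s.biUnion E, f ω := Finset.sum_nonneg fun ω _ => hf ω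
    linarith

/-- union bound for finitely many pieces -/
theorem lse_biUnion_le {J : Type} [DecidableEq Ω] (s : Finset J) (hs : s.Nonempty) (E : J → Finset Ω)
    (hE : ∀ j ∈ s, (E j).Nonempty) (a : Ω → ℝ) {c : ℝ} (hc : ∀ j ∈ s, lse (E j) a ≤ c) :
    lse (s.biUnion E) a ≤ Real.log s.card + c := by
  obtain ⟨j, hj⟩ := hs
  have hs : s.Nonempty := ⟨j, hj⟩
  obtain ⟨ω, hω⟩ := hE j hj
  have hne : (s.biUnion E).Nonempty := ⟨ω, Finset.mem_biUnion.2 ⟨j, hj, hω⟩⟩
  have h1 : ∑ ω ∈ s.biUnion E, Real.exp (a ω) ≤ (s.card : ℝ) * Real.exp c := by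
    have h2 : ∑ ω ∈ s.biUnion E, Real.exp (a ω) ≤ ∑ j ∈ s, ∑ ω ∈ E j, Real.exp (a ω) :=
      Lse_sum_biUnion s E _ fun _ => (Real.exp_pos _).le
    refine h2.trans ?_
    have h3 : ∑ j ∈ s, ∑ ω ∈ E j, Real.exp (a ω) ≤ ∑ _j ∈ s, Real.exp c :=
      Finset.sum_le_sum fun j hj => by
        rw [← exp_lse (hE j hj) a]
        exact Real.exp_le_exp.2 (hc j hj)
    rwa [Finset.sum_const, nsmul_eq_mul] at h3
  have hcd : (s.card : ℝ) ≠ 0 := by
    exact_mod_cast (Finset.card_pos.2 hs).ne'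
  have h2 := Real.log_le_log (sum_exp_pos hne a) h1
  rwa [Real.log_mul hcd (Real.exp_pos c).ne', Real.log_exp] at h2

end

end SKC.A
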