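import Pool.Agent.H.MP_08eaf3_pr.Defs2

/-!
# Part A: `n1` and `dot`
-/

set_option autoImplicit false

open MeasureTheory ProbabilityTheory Filter Topology Matrix

namespace SKC.A

section

variable {K L : Type} [Fintype K] [Fintype L]

/-! ### `n1` -/

theorem n1_nonneg (z : K → ℝ) : 0 ≤ n1 z := by
  unfold n1
  exact Finset.sum_nonneg fun c _ => abs_nonneg _

theorem n1_zero : n1 (0 : K → ℝ) = 0 := by
  unfold n1
  simp

theorem n1_neg (z : K → ℝ) : n1 (-z) = n1 z := by
  unfold n1
  simp

theorem n1_add_le (x y : K → ℝ) : n1 (x + y) ≤ n1 x + n1 y := by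
  unfold n1
  rw [← Finset.sum_add_distrib]
  exact Finset.sum_le_sum fun c _ => abs_add_le (x c) (y c)

theorem n1_smul (a : ℝ) (x : K → ℝ) : n1 (a • x) = |a| * n1 x := by
  unfold n1
  rw [Finset.mul_sum]
  exact Finset.sum_congr rfl fun c _ => by rw [Pi.smul_apply, smul_eq_mul, abs_mul]

theorem abs_le_n1 (z : K → ℝ) (c : K) : |z c| ≤ n1 z := by
  unfold n1
  exact Finset.single_le_sum (f := fun c => |z c|) (fun i _ => abs_nonneg _) (Finset.mem_univ c)

theorem continuous_n1 : Continuous (n1 : (K → ℝ) → ℝ) := by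
  unfold n1
  exact continuous_finsetSum _ fun c _ => (continuous_apply c).abs

theorem n1_single [DecidableEq K] (c : K) (a : ℝ) : n1 (Pi.single c a : K → ℝ) = |a| := by
  unfold n1
  rw [Finset.sum_eq_single c]
  · rw [Pi.single_eq_same]
  · intro b _ hb
    rw [Pi.single_eq_of_ne hb, abs_zero]
  · intro h
    exact absurd (Finset.mem_univ c) h

theorem n1_sum_elim (x : K → ℝ) (y : L → ℝ) : n1 (Sum.elim x y) = n1 x + n1 y := by
  unfold n1
  rw [Fintype.sum_sum_type]
  simp

theorem n1_mulVec_le (M : Matrix K L ℝ) (x : L → ℝ) :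
    n1 (M.mulVec x) ≤ (∑ i, ∑ j, |M i j|) * n1 x := by
  unfold n1
  rw [Finset.sum_mul]
  refine Finset.sum_le_sum fun i _ => ?_
  have h1 : |M.mulVec x i| ≤ ∑ j, |M i j * x j| := by
    rw [show M.mulVec x i = ∑ j, M i j * x j from rfl]
    exact Finset.abs_sum_le_sum_abs _ _
  refine h1.trans ?_
  rw [Finset.sum_mul]
  refine Finset.sum_le_sum fun j _ => ?_
  rw [abs_mul]
  exact mul_le_mul_of_nonneg_left (abs_le_n1 x j) (abs_nonneg _)

/-! ### `dot` -/

theorem dot_comm (x y : K → ℝ) : dot x y = dot y x := by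
  unfold dot
  exact Finset.sum_congr rfl fun i _ => mul_comm _ _

theorem dot_add_left (x y z : K → ℝ) : dot (x + y) z = dot x z + dot y z := by
  unfold dot
  rw [← Finset.sum_add_distrib]
  exact Finset.sum_congr rfl fun i _ => by rw [Pi.add_apply, add_mul]

theorem dot_add_right (x y z : K → ℝ) : dot x (y + z) = dot x y + dot x z := by
  unfold dot
  rw [← Finset.sum_add_distrib]
  exact Finset.sum_congr rfl fun i _ => by rw [Pi.add_apply, mul_add]

theorem dot_smul_left (a : ℝ) (x y : K → ℝ) : dot (a • x) y = a * dot x y := by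
  unfold dot
  rw [Finset.mul_sum]
  exact Finset.sum_congr rfl fun i _ => by rw [Pi.smul_apply, smul_eq_mul, mul_assoc]

theorem dot_smul_right (a : ℝ) (x y : K → ℝ) : dot x (a • y) = a * dot x y := by
  unfold dot
  rw [Finset.mul_sum]
  exact Finset.sum_congr rfl fun i _ => by rw [Pi.smul_apply, smul_eq_mul, mul_left_comm]

theorem dot_zero_left (x : K → ℝ) : dot 0 x = 0 := by
  unfold dot
  simp

theorem dot_zero_right (x : K → ℝ) : dot x 0 = 0 := by
  unfold dot
  simp

theorem dot_neg_left (x y : K → ℝ) : dot (-x) y = - dot x y := by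
  unfold dot
  rw [← Finset.sum_neg_distrib]
  exact Finset.sum_congr rfl fun i _ => by rw [Pi.neg_apply, neg_mul]

theorem dot_single [DecidableEq K] (x : K → ℝ) (c : K) (a : ℝ) :
    dot x (Pi.single c a) = x c * a := by
  unfold dot
  rw [Finset.sum_eq_single c]
  · rw [Pi.single_eq_same]
  · intro b _ hb
    rw [Pi.single_eq_of_ne hb, mul_zero]
  · intro h
    exact absurd (Finset.mem_univ c) h

theorem dot_sum_elim (x x' : K → ℝ) (y y' : L → ℝ) :
    dot (Sum.elim x y) (Sum.elim x' y') = dot x x' + dot y y' := by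
  unfold dot
  rw [Fintype.sum_sum_type]
  simp

theorem dot_self_nonneg (x : K → ℝ) : 0 ≤ dot x x := by
  unfold dot
  exact Finset.sum_nonneg fun i _ => mul_self_nonneg _

/-- Cauchy-Schwarz -/
theorem dot_sq_le (x y : K → ℝ) : dot x y ^ 2 ≤ dot x x * dot y y := by
  unfold dot
  have h := Finset.sum_mul_sq_le_sq_mul_sq Finset.univ x y
  simp only [sq] at h ⊢
  exact h

theorem abs_dot_le_n1 (x y : K → ℝ) : |dot x y| ≤ n1 x * n1 y := by
  unfold dot
  refine (Finset.abs_sum_le_sum_abs _ _).trans ?_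
  have h1 : ∀ i, |x i * y i| ≤ |x i| * n1 y := fun i => by
    rw [abs_mul]
    exact mul_le_mul_of_nonneg_left (abs_le_n1 y i) (abs_nonneg _)
  refine (Finset.sum_le_sum fun i _ => h1 i).trans ?_
  rw [← Finset.sum_mul]
  exact le_of_eq rfl

theorem continuous_dot_left (y : K → ℝ) : Continuous (fun x : K → ℝ => dot x y) := by
  unfold dot
  exact continuous_finsetSum _ fun i _ => (continuous_apply i).mul continuous_const

/-- if all squared norms are at most `D`, all scalar products are at most `D` -/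
theorem abs_dot_le_of_le {x y : K → ℝ} {D : ℝ} (hx : dot x x ≤ D) (hy : dot y y ≤ D) :
    |dot x y| ≤ D := by
  have hD : 0 ≤ D := (dot_self_nonneg x).trans hx
  refine abs_le_of_sq_le_sq ?_ hD
  refine (dot_sq_le x y).trans ?_
  rw [sq D]
  exact mul_le_mul hx hy (dot_self_nonneg y) hD

end

end SKC.A
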